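import Pool.Agent.H20.Sp.Fam
import Pool.Agent.H74.Win.RingZ
import Pool.Agent.H20.Q1.BDk
import Pool.Agent.Q1.M6e.PathT

set_option autoImplicit false
open Finset

/-!
# The totals of the tied natural windows

`Tot_XA` : the total over the bulk and the ties is the sum of the weighted increments of `XA` along the
path, `sT D p s` : the parameters of the ties as a function of the labels.
-/

namespace Pool.Agent.H20.Sp

open Pool.Agent.H75.Perc hiding ph
open Pool.Agent.H75.TwoArm Pool.Agent.Q1 Pool.Agent.H33.Q1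
open Pool.Agent.H75.Four hiding ev
open Pool.Agent.H69.Q1
open Pool.Agent.H46.Sp (Win Out)
open Pool.Agent.H46.Sp.Win
open Pool.Agent.H74.Win (CA InP EN XA FZ OutB qs qs_kt qs_P mem_EN odd_TB kt_inj' RG TT)
open Pool.Agent.H42.Sp (Sd Ix kt rt kt_odd rt_even kt_Tg rt_Tg)
open Pool.Agent.H13.R45 (gp ev)
open Pool.Agent.H39.Q1
open Pool.Agent.H20.Q1
open Pool.Agent.H13.Sp (TA fmA colp XA_eq FR_eq TieP gt gt_kt kt_gt KA_iff mem_TA exists_tie CA_iff)
open Pool.Agent.Q1.M6e (Tot_incW)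

variable {D : Win} {p : Bool} {s0 : ℤ} {S Cs : Finset (ℤ × ℤ)} {O : OutB D} {a : ℤ × ℤ → ℂ}
  {s : Ix → ℂ}

open Classical in
/-- the parameters of the ties as a function of the labels -/
noncomputable def sT (D : Win) (p : Bool) (s : Ix → ℂ) (e : ℤ × ℤ) : ℂ :=
  if h : ∃ k, CA D p k ∧ e = lt (kt k) then s h.choose else 0

lemma sT_kt {k : Ix} (hk : CA D p k) : sT D p s (lt (kt k)) = s k := by
  have h : ∃ l, CA D p l ∧ lt (kt k) = lt (kt l) := ⟨k, hk, rfl⟩
  unfold sT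
  rw [dif_pos h]
  have h2 := h.choose_spec
  rw [← kt_inj' hk h2.1 (lt_inj h2.2)]

/-- the ties -/
lemma tie_of_TA {e : ℤ × ℤ} (he : e ∈ TA D p) : ∃ k, CA D p k ∧ lt (kt k) = e := by
  obtain ⟨u, v, s, c, rfl, h⟩ := exists_tie he
  exact ⟨(s, gt s c (u, v)), CA_iff.1 h.2.1, by rw [kt_gt h.odd]⟩

lemma co_kt {k : Ix} (hk : CA D p k) : colp D (fmA D p s0 (lt (kt k))) = kc k := (tieP_kt hk).co

lemma kc_ev (k : Ix) : kc k = !(ev k.2) := by
  unfold kc ev
  rcases Int.emod_two_eq_zero_or_one (k.2.1 + k.2.2) with e | e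
  · rw [e]; simp
  · rw [e]; simp

/-- **The total is the sum of the weighted increments.** -/
theorem Tot_XA (hS : S ⊆ FZ D p) : Tot (XA O p S hS) Cs a (EN D p) (TA D p) (fmA D p s0) (colp D)
    (sT D p s) = ∑ c ∈ Cs, a c * (XA O p S hS).incW (qs D p s) c := by
  refine Tot_incW ?_ ?_ ?_ ?_
  · rw [XA_eq]
    rfl
  · rw [disjoint_left]
    intro e he he'
    obtain ⟨u, v, k, c, rfl, h⟩ := exists_tie he'
    exact h.ly.out (mem_EN.1 he)
  · intro e he
    obtain ⟨x, y, rfl⟩ := Pool.Agent.H74.R45.exists_lt (odd_TB he)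
    exact qs_P (mem_EN.1 he)
  · intro e he
    obtain ⟨k, hk, rfl⟩ := tie_of_TA he
    rw [qs_kt hk, sT_kt hk, co_kt hk, kc_ev]
    cases ev k.2 <;> simp

end Pool.Agent.H20.Sp
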