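import Pool.Agent.H20.Sp.WinX
import Pool.Agent.H20.Sp.TotX
import Pool.Agent.H20.Q1.BDj
import Pool.Agent.H20.Q1.BDf
import Pool.Agent.H54.Sp.Flat

set_option autoImplicit false
open Finset

/-!
# The local a priori bound for the tied natural windows

`flat_seg` : deep ties are flat (helper54's `flatX`). `lbw_pre` : the bound `M max (1, |P - Q|) ^ (2/3)` of the
sums of the weighted increments of `XA` along the path between linked points, weights near one or between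
zero and one.
-/

namespace Pool.Agent.H20.Sp

open Pool.Agent.H75.Perc hiding ph
open Pool.Agent.H75.TwoArm Pool.Agent.Q1 Pool.Agent.H33.Q1 Pool.Agent.Q1.M6b
open Pool.Agent.H75.Four hiding ev
open Pool.Agent.H69.Q1
open Pool.Agent.H46.Sp (Win Out)
open Pool.Agent.H46.Sp.Win
open Pool.Agent.H74.Win (CA InP EN FZ OutB qs mem_EN odd_TB sh sh_nonneg sh_le fillc)
open Pool.Agent.H42.Sp (Sd Ix kt rt)
open Pool.Agent.H13.R45 (gp ev Ag ag_he ag_ve OutF)
open Pool.Agent.H39.Q1 hiding OutF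
open Pool.Agent.H20.Q1
open Pool.Agent.H13.Sp (TA fmA colp XA_eq FR_eq FR WA WlA LaA LBA bA oA arc rep InL Wide HasG multiA
  farA_two mem_LBA Dp OnT LaA_sub exists_tie)
open Pool.Agent.Q1.M6e (LC La Lk)
open Pool.Agent.Q1.M6c

section runs

variable {W Bb TT T T' Wi Li : Finset (ℤ × ℤ)} {b o : ℤ × ℤ → ℤ × ℤ} {co : Bool} {L J K K' : ℕ}

lemma RunsK.mono (h : RunsK W Bb TT T Wi Li b o co L J K) (hK : K ≤ K') :
    RunsK W Bb TT T Wi Li b o co L J K' := by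
  obtain ⟨T', h1, h2⟩ := h
  refine ⟨fun k => if hk : (k : ℕ) < K then T' ⟨k, hk⟩ else ∅, fun e he => ?_, fun k => ?_⟩
  · obtain ⟨k, hk⟩ := h1 e he
    refine ⟨⟨k, k.2.trans_le hK⟩, ?_⟩
    simp only [k.2, dif_pos]
    exact hk
  · simp only
    split_ifs with hk
    · exact h2 _
    · exact RunsW.empty

end runs

/-- the frame of a colour -/
def dlt (c : Bool) : ℤ × ℤ := if c = true then (1, 0) else (0, 1)

variable {D : Win} {p : Bool} {s0 N m c : ℤ} {G S : Finset ℤ} {O : OutB D} {P Q : ℤ × ℤ}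

lemma ev_inn (k : Ix) : ev (inn k) = kc k := by
  obtain ⟨s, x, y⟩ := k
  unfold ev kc
  have key : ∀ a b : ℤ, a % 2 = 0 ↔ ¬ (a % 2 = 1) := fun a _ => by omega
  cases s <;> simp only [inn] <;> (congr 1; exact propext (by constructor <;> intro h <;> omega))

/-- a deep tie is flat -/
theorem flat_seg {S : Finset (ℤ × ℤ)} {j R : ℤ} (hS : S ⊆ FR D p)
    (hcut : colp D (s0 - 1) ≠ colp D s0)
    (hG : D.Lev j G) (hF : D.Fat N) (hl : Ldg D G N) (hO : Ports O N) {i : Fin 8} {g : ℤ} {k : Ix}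
    (hg : g ∈ G) (h : Sg D p G c i g k) (hR : 0 ≤ R) (hm : 2 * R + 1 ≤ m) (hc : 2 * R + 7 ≤ c)
    (hN : 2 * R + 7 ≤ N) :
    FlatL (WA O p S) (EN D p) (TA D p) (TF (TA D p) (fmA D p s0) (fmA D p s0 (lt (kt k))))
      (WlA D p s0 N S (fmA D p s0 (lt (kt k)))) (LaA D p s0 m (fmA D p s0 (lt (kt k)))) (bA D p)
      (oA D p) (colp D (fmA D p s0 (lt (kt k)))) (eps k.1)
      (dlt (colp D (fmA D p s0 (lt (kt k))))) (bA D p (lt (kt k))) R := by
  rw [bA_kt h.ca]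
  have e1 : eps k.1 = Pool.Agent.H54.Sp.eS k.1 := by cases k.1 <;> rfl
  have e2 : ∀ c, dlt c = Pool.Agent.H54.Sp.dS c := fun c => rfl
  have key := fun x y (h1 : |x - (inn k).1| ≤ 2 * R + 4) (h2 : |y - (inn k).2| ≤ 2 * R + 4) =>
    box_flat hG hF hl hg h (r := 2 * R + 4) (by omega) (by omega) (by omega) x y h1 h2
  have key2 := fun x y (h1 : |x - (inn k).1| ≤ 2 * R + 4) (h2 : |y - (inn k).2| ≤ 2 * R + 4) =>
    box_arc hcut hG hl hg h (r := 2 * R + 4) (by omega) (by omega) (by omega) x y h1 h2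
  have key3 := fun x y (h1 : |x - (inn k).1| ≤ 2 * R + 4) (h2 : |y - (inn k).2| ≤ 2 * R + 4) =>
    box_far hG hF hO hg h (r := 2 * R + 4) (by omega) (by omega) (by omega) x y h1 h2
  rw [e1, e2]
  refine Pool.Agent.H54.Sp.flatX ⟨fun x y hx => ?_, fun x y hx hh => ?_⟩
    (by rw [ev_inn, co_kt h.ca]) hS hm (by omega) ?_
  · unfold Pool.Agent.H54.Sp.Sq at hx
    rw [(key x y (by rw [abs_le]; omega) (by rw [abs_le]; omega)).1]
    cases k.1 <;> simp only [hpl, Pool.Agent.H54.Sp.hS] <;> omega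
  · unfold Pool.Agent.H54.Sp.Sq at hx
    refine key2 x y (by rw [abs_le]; omega) (by rw [abs_le]; omega) fun h3 => ?_
    revert h3 hh
    cases k.1 <;> simp only [hpl, Pool.Agent.H54.Sp.hS] <;> omega
  · intro _ x y hx
    unfold Pool.Agent.H54.Sp.Sq at hx
    exact (key3 x y (by rw [abs_le]; omega) (by rw [abs_le]; omega)).2

/-- the corners of the path are deep -/
lemma path_deep (hL : Lk (InP D p) ((m : ℝ) + 3) P Q) {z : ℤ × ℤ}
    (hz : z ∈ LC P.1 P.2 Q.1 Q.2) {g : ℤ × ℤ} (hg : Ag g z) {x y : ℤ} (hxy : OnT g x y) :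
    Dp D p m x y := by
  obtain ⟨i, l, hz', -, -, hT⟩ := hL.corner (n := m + 2) (by push_cast; linarith) hz
  have h1 : (i ≤ g.1 ∧ g.1 ≤ i + 1) ∧ l ≤ g.2 ∧ g.2 ≤ l + 1 := by
    rcases hz' with rfl | rfl
    · rcases ag_he.1 hg with rfl | rfl <;> simp
    · rcases ag_ve.1 hg with rfl | rfl <;> simp
  unfold OnT at hxy
  intro u v h2 h3 h4 h5
  refine hT u v ?_ ?_ <;> rw [abs_le] <;> omega

/-- linked points are in the window -/
lemma lk_size {R η : ℝ} (hR : 1 ≤ η * R) (hL : Lk (InP D p) (η * R) P Q)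
    (h2 : (D.h : ℝ) ≤ R / η) (w2 : ((D.b D.yQ - D.a (D.yP - 1) : ℤ) : ℝ) ≤ R / η) :
    |((P.1 : ℝ) - Q.1)| ≤ R / η ∧ |((P.2 : ℝ) - Q.2)| ≤ R / η := by
  have hs := sh_nonneg p
  have hs1 := sh_le p
  have key : ∀ x y : ℤ, min P.1 Q.1 - 1 ≤ x → x < max P.1 Q.1 + 1 → min P.2 Q.2 - 1 ≤ y →
      y < max P.2 Q.2 + 1 → InP D p x y := fun x y h1 h2 h3 h4 =>
    hL.int (n := 1) (by push_cast; exact hR) h1 h2 h3 h4
  have kP := key P.1 P.2 (by omega) (by omega) (by omega) (by omega)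
  have kQ := key Q.1 Q.2 (by omega) (by omega) (by omega) (by omega)
  obtain ⟨a1, a2, a3, a4⟩ := kP
  obtain ⟨b1, b2, b3, b4⟩ := kQ
  have c1 := a_min (D := D) a1 a2
  have c2 := b_max (D := D) a1 a2
  have c3 := a_min (D := D) b1 b2
  have c4 := b_max (D := D) b1 b2
  constructor
  · refine le_trans ?_ w2
    rw [← Int.cast_sub, ← Int.cast_abs]
    have : |P.1 - Q.1| ≤ D.b D.yQ - D.a (D.yP - 1) := by rw [abs_le]; omega
    exact_mod_cast this
  · refine le_trans ?_ h2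
    rw [← Int.cast_sub, ← Int.cast_abs]
    have : |P.2 - Q.2| ≤ D.h := by rw [abs_le]; omega
    exact_mod_cast this

/-- **The local a priori bound for the tied natural windows.** -/
theorem lbw_pre {η : ℝ} (hη : 0 < η) (n0 : ℕ) {Z : ℝ} (hZ : 0 ≤ Z) :
    ∃ (M : ℝ) (R0 : ℕ), 0 ≤ M ∧ ∀ R : ℕ, R0 ≤ R → ∀ (D : Win) (O : OutB D) (s0 N : ℤ)
      (G : Finset ℤ), WinX η n0 R O s0 N G → ∀ (p : Bool) (S : Finset (ℤ × ℤ)) (hS : S ⊆ FZ D p)
      (s : Ix → ℂ), (∀ k, CA D p k → Nr (Z * (R : ℝ) ^ (-(2 / 3) : ℝ)) (s k)) →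
      ∀ P Q : ℤ × ℤ, Lk (InP D p) (η * R) P Q →
      ‖∑ c ∈ LC P.1 P.2 Q.1 Q.2, La P.1 P.2 Q.1 Q.2 c *
        (Pool.Agent.H74.Win.XA O p S hS).incW (qs D p s) c‖ ≤
        M * (max 1 (|(P.1 : ℝ) - Q.1| + |(P.2 : ℝ) - Q.2|)) ^ (2 / 3 : ℝ) := by
  obtain ⟨C1, hC1, R1, hVM⟩ := VM_lkl hη
  obtain ⟨C2, hC2, hbd⟩ := tot_bdF
  set K : ℕ := 218 * (n0 + 1) with hK
  obtain ⟨J, R2, hnum⟩ := bd_num (Z := Z) (C := C2 * 4 ^ K * 2 ^ K) hη hZ (by positivity)
  refine ⟨C1 * (1 + K * (K * 2 ^ J)), max ⌈R1⌉₊ ⌈R2⌉₊, by positivity, ?_⟩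
  intro R hR D O s0 N G hX p S hS s hs P Q hPQ
  have hR1 : R1 ≤ R := Nat.ceil_le.1 ((le_max_left _ _).trans hR)
  have hR2 : R2 ≤ R := Nat.ceil_le.1 ((le_max_right _ _).trans hR)
  obtain ⟨h16, hRp, Lr, k1, k2, k3⟩ := hnum R hR2
  obtain ⟨j, hG⟩ := hX.lev
  obtain ⟨q, q', hq, hq', hqq⟩ := hX.gates
  have hcut := hX.cut
  set m : ℤ := ⌊η * R / 4⌋ with hm
  have m1 : (m : ℝ) ≤ η * R / 4 := Int.floor_le _
  have m2 : (4 : ℤ) ≤ m := by rw [hm, Int.le_floor]; push_cast; linarith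
  have hN1 := hX.N1
  have hN : 4 * m ≤ N := by
    have : ((4 * m : ℤ) : ℝ) ≤ N := by push_cast; linarith
    exact_mod_cast this
  set Dd : ℝ := max 1 (|(P.1 : ℝ) - Q.1| + |(P.2 : ℝ) - Q.2|) with hDd
  have hS' : S ⊆ FR D p := by rw [FR_eq]; exact hS
  rw [← Tot_XA (s0 := s0) hS, XA_eq]
  set X := Pool.Agent.H13.Sp.XA O p S hS' with hXd
  have hlayer : LBA D p (m + 1) ⊆ EN D p := by
    intro e he
    obtain ⟨x, y, rfl⟩ := Pool.Agent.H74.R45.exists_lt (odd_TB he)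
    exact mem_EN.2 (mem_LBA.1 he).1
  have hMul : Multi X (WA O p S) (EN D p) (LBA D p (m + 1)) (TA D p) (fmA D p s0) (colp D)
      (WlA D p s0 N S) (LaA D p s0 m) (bA D p) (oA D p) :=
    multiA hS' (by omega) hX.free (by omega) (Subset.refl _) hlayer
  have hFar : ∀ z ∈ LC P.1 P.2 Q.1 Q.2, FarM X (TA D p) (fmA D p s0) (colp D) (WlA D p s0 N S)
      (LaA D p s0 m) (bA D p) (oA D p) z := by
    intro z hz
    refine farA_two (by omega) (by omega) (wide_mono hX.wide (by omega)) hcut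
      (hasG_mono hq (by omega)) (hasG_mono hq' (by omega)) hqq hX.root (fun i => LaA_sub) fun g hg x y hxy => ?_
    exact path_deep (hPQ.mono (by linarith)) hz hg hxy
  have hM : ∀ ω ⊆ LBA D p (m + 1), ∀ T ⊆ TA D p, ‖VM X (LC P.1 P.2 Q.1 Q.2)
      (La P.1 P.2 Q.1 Q.2) (EN D p) (LBA D p (m + 1)) (TA D p) (fmA D p s0) (colp D) ω T‖ ≤
      C1 * Dd ^ (2 / 3 : ℝ) := by
    intro ω hω T _
    obtain ⟨s1, s2⟩ := lk_size (by linarith) hPQ hX.h2 hX.w2
    refine hVM X Pool.Agent.Q1.M6e.planeK_plane (EN D p) (LBA D p (m + 1)) (TA D p) subset_union_left ?_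
      subset_union_right hlayer (fmA D p s0) (colp D) (InP D p) (m + 1) P Q R hR1
      (fun x y h => mem_EN.2 h) ?_ ?_ s1 s2 hPQ ω hω T
    · rw [disjoint_left]
      intro e he he'
      obtain ⟨u, v, k, c, rfl, h⟩ := exists_tie he'
      exact h.ly.out (mem_EN.1 he)
    · intro x y hxy
      obtain ⟨-, u, v, h1, h2⟩ := mem_LBA.1 hxy
      exact ⟨u, v, h1, by rw [abs_le]; omega, by rw [abs_le]; omega⟩
    · push_cast
      linarith
  have hJL : (R : ℝ) / η ≤ ((J * Lr : ℕ) : ℝ) := by push_cast; exact k2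
  have hJLp : 0 < J * Lr := by
    have : (0 : ℝ) < ((J * Lr : ℕ) : ℝ) := lt_of_lt_of_le (by positivity) hJL
    exact_mod_cast this
  have hJ : 1 ≤ J := Nat.pos_of_mul_pos_right hJLp
  have hL : 1 ≤ Lr := Nat.pos_of_mul_pos_left hJLp
  have hh : D.h ≤ 2 * (J * Lr) := by
    have : (D.h : ℝ) ≤ ((J * Lr : ℕ) : ℝ) := hX.h2.trans hJL
    have h3 : D.h ≤ ((J * Lr : ℕ) : ℤ) := by exact_mod_cast this
    push_cast at h3
    have h4 : (0 : ℤ) ≤ (J : ℤ) * Lr := by positivity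
    linarith
  have hw : D.b D.yQ - D.a (D.yP - 1) ≤ 2 * (J * Lr) := by
    have : ((D.b D.yQ - D.a (D.yP - 1) : ℤ) : ℝ) ≤ ((J * Lr : ℕ) : ℝ) := hX.w2.trans hJL
    have h3 : D.b D.yQ - D.a (D.yP - 1) ≤ ((J * Lr : ℕ) : ℤ) := by exact_mod_cast this
    push_cast at h3
    have h4 : (0 : ℤ) ≤ (J : ℤ) * Lr := by positivity
    linarith
  have hcard := hX.card
  have hruns : ∀ i, RunsK (WA O p S) (EN D p) (TA D p) (TF (TA D p) (fmA D p s0) i)
      (WlA D p s0 N S i) (LaA D p s0 m i) (bA D p) (oA D p) (colp D i) Lr J K := by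
    intro i
    refine RunsK.mono (runsK_XA (c := 10) (δ := dlt (colp D i)) hG (by norm_num) hL hJ hh hw
      (fun k hk => bA_kt hk) (fun e he => tie_of_TF he) ?_ ?_) ?_
    · intro i' g hg k k' hk hk' hT
      refine mem_TF.2 ⟨ca_mem hk'.ca, ?_⟩
      rw [← fmA_seg hcut hG (by norm_num) hg hk hk']
      exact (mem_TF.1 hT).2
    · intro i' g hg k ρ hk hT h1 h2
      have hfm := (mem_TF.1 hT).2
      have := flat_seg (O := O) (m := m) (R := ρ + 1) hS' hcut hG hX.fat hX.ldg hX.port hg hk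
        (by omega) (by omega) (by omega) (by omega)
      rwa [hfm] at this
    · have h3 : (10 : ℤ).toNat = 10 := rfl
      rw [h3, hK]
      omega
  have hfam := card_fam (p := p) (c := 10) hcut hG (by norm_num)
  have key := hbd X (WA O p S) (EN D p) (LBA D p (m + 1)) (TA D p) (LC P.1 P.2 Q.1 Q.2)
    (fmA D p s0) (colp D) (WlA D p s0 N S) (LaA D p s0 m) (bA D p) (oA D p)
    (La P.1 P.2 Q.1 Q.2) (sT D p s) Lr J K K (C1 * Dd ^ (2 / 3 : ℝ))
    (Z * (R : ℝ) ^ (-(2 / 3) : ℝ)) ((TA D p).image (fmA D p s0))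
    (fun e he => mem_image_of_mem _ he) ?_ (by omega) hMul hFar hruns (by positivity) hM ?_ k3
  · refine key.trans (le_of_eq ?_)
    ring
  · have h3 : (10 : ℤ).toNat = 10 := rfl
    rw [h3] at hfam
    omega
  · intro e he
    obtain ⟨k, hk, rfl⟩ := tie_of_TA he
    rw [sT_kt hk]
    exact hs k hk

end Pool.Agent.H20.Sp
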