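import Pool.Agent.H20.Sp.LbW
import Pool.Agent.H46.Sp.GateC
import Pool.Agent.H13.Sp.Root

set_option autoImplicit false
open Finset

/-!
# Coarse windows

`lev_C`, `fat_C`, `ldg_C` : levels, fatness and ledges of a coarse window. `outOK_one`, `outOK_two` : the
outsides of helper33. `winX_C` : coarse windows are in the class `WinX`. `lbw_C` : the local a priori bound
for coarse windows of a fixed polyomino.
-/

namespace Pool.Agent.H20.Sp

open Pool.Agent.H75.Perc hiding ph
open Pool.Agent.H75.TwoArm Pool.Agent.Q1 Pool.Agent.H33.Q1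
open Pool.Agent.H75.Four hiding ev
open Pool.Agent.H69.Q1
open Pool.Agent.H46.Sp (Win Out)
open Pool.Agent.H46.Sp.Win
open Pool.Agent.H46.Sp.CG (dv dv_eq ab_mid AB_n row_h wide_C exists_gate)
open Pool.Agent.H74.Win (OutB fillc a_drop a_rise b_drop b_rise)
open Pool.Agent.H13.R45 (Ag OutF)
open Pool.Agent.H13.Sp (colp rep InL Wide HasG colp_rep portc freeO freeT rootO rootT colp_left
  colp_right)
open Pool.Agent.H31.Sp (Coarse CoarseC)
open Pool.Agent.Q1.M6b.ABW (Lnk LBW)

variable {D : Win} {n H : ℤ} {A B : ℤ → ℤ} {N g x y : ℤ}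

lemma fat_mono (h : D.Fat n) (hN : 1 ≤ N) (hn : N ≤ n) : D.Fat N where
  row y h0 h1 := by have := h.row y h0 h1; omega
  col x y h0 h1 h2 h3 := by
    obtain ⟨y0, k1, k2, k3⟩ := h.col x y h0 h1 h2 h3
    refine ⟨max y0 (y - N + 1), by omega, by omega, fun z z1 z2 => k3 z (by omega) (by omega)⟩

section coarse

variable (C : Coarse D n H A B)

include C

lemma lev_cases (h0 : 0 < g) (h1 : g < D.h) (hne : D.a g ≠ D.a (g - 1) ∨ D.b g ≠ D.b (g - 1)) :
    ∃ Y, 0 ≤ Y ∧ Y < H ∧ (g = n * Y ∨ g = n * Y + 1 ∨ g = n * Y + n - 1) := by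
  have hn := C.pos
  have hY := C.row h0.le h1
  have hd := dv hn g
  refine ⟨g / n, hY.1, hY.2, ?_⟩
  by_contra hc
  have e1 := ab_mid C hY.1 hY.2 (y := g) (by omega) (by omega)
  have e2 := ab_mid C hY.1 hY.2 (y := g - 1) (by omega) (by omega)
  rw [e1.1, e1.2, e2.1, e2.2] at hne
  simp at hne

/-- **Coarse windows are fat.** -/
theorem fat_C : D.Fat n where
  row y h0 h1 := by
    have hY := C.row h0 h1
    have e1 := (C.a_le h0 h1).2
    have e2 := (C.le_b h0 h1).1
    have e3 := AB_n C hY.1 hY.2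
    omega
  col x y h0 h1 h2 h3 := by
    have hn := C.pos
    have hn8 := C.hn
    have hY := C.row h0 h1
    have hd := dv hn y
    have hr := row_h C hY.1 hY.2
    have hAB := AB_n C hY.1 hY.2
    have inrow : ∀ Y z, 0 ≤ Y → Y < H → n * Y ≤ z → z < n * Y + n → n * A Y ≤ x → x < n * B Y →
        0 ≤ z ∧ z < D.h ∧ D.a z ≤ x ∧ x < D.b z := by
      intro Y z g1 g2 g3 g4 g5 g6
      have k := row_h C g1 g2
      have e := dv_eq hn g3 g4
      have e1 := (C.a_le (y := z) (by omega) (by omega)).2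
      have e2 := (C.le_b (y := z) (by omega) (by omega)).1
      rw [e] at e1 e2
      omega
    have own : ∀ z, z = y → 0 ≤ z ∧ z < D.h ∧ D.a z ≤ x ∧ x < D.b z := fun z hz => by
      subst hz; exact ⟨h0, h1, h2, h3⟩
    have up : n * (y / n + 1) = n * (y / n) + n := by ring
    have dn : n * (y / n - 1) = n * (y / n) - n := by ring
    by_cases c1 : n * A (y / n) ≤ x
    · by_cases c2 : x < n * B (y / n)
      · exact ⟨n * (y / n), hd.1, hd.2.1, fun z z1 z2 => inrow _ z hY.1 hY.2 z1 z2 c1 c2⟩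
      · -- right notch
        rcases C.b y h0 h1 with e | ⟨e, ⟨e1, e2, e3⟩ | ⟨e1, e2, e3⟩⟩
        · omega
        · have k1 : n * (B (y / n) + 1) ≤ n * B (y / n + 1) :=
            mul_le_mul_of_nonneg_left (by omega) hn.le
          have k2 : n * (A (y / n + 1) + 1) ≤ n * B (y / n) :=
            mul_le_mul_of_nonneg_left (by have := C.ov2 _ hY.1 e2; omega) hn.le
          have k3 : n * (B (y / n) + 1) = n * B (y / n) + n := by ring
          have k4 : n * (A (y / n + 1) + 1) = n * A (y / n + 1) + n := by ring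
          refine ⟨y, le_rfl, by omega, fun z z1 z2 => ?_⟩
          by_cases hz : z = y
          · exact own z hz
          · exact inrow (y / n + 1) z (by omega) e2 (by omega) (by omega) (by omega) (by omega)
        · have k1 : n * (B (y / n) + 1) ≤ n * B (y / n - 1) :=
            mul_le_mul_of_nonneg_left (by omega) hn.le
          have k2 : n * (A (y / n - 1) + 1) ≤ n * B (y / n) :=
            mul_le_mul_of_nonneg_left (by
              have := C.ov1 (y / n - 1) (by omega) (by omega)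
              rw [sub_add_cancel] at this
              omega) hn.le
          have k3 : n * (B (y / n) + 1) = n * B (y / n) + n := by ring
          have k4 : n * (A (y / n - 1) + 1) = n * A (y / n - 1) + n := by ring
          refine ⟨y - n + 1, by omega, by omega, fun z z1 z2 => ?_⟩
          by_cases hz : z = y
          · exact own z hz
          · exact inrow (y / n - 1) z (by omega) (by omega) (by omega) (by omega) (by omega)
              (by omega)
    · -- left notch
      rcases C.a y h0 h1 with e | ⟨e, ⟨e1, e2, e3⟩ | ⟨e1, e2, e3⟩⟩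
      · omega
      · have k1 : n * (A (y / n + 1) + 1) ≤ n * A (y / n) :=
          mul_le_mul_of_nonneg_left (by omega) hn.le
        have k2 : n * (A (y / n) + 1) ≤ n * B (y / n + 1) :=
          mul_le_mul_of_nonneg_left (by have := C.ov1 _ hY.1 e2; omega) hn.le
        have k3 : n * (A (y / n + 1) + 1) = n * A (y / n + 1) + n := by ring
        have k4 : n * (A (y / n) + 1) = n * A (y / n) + n := by ring
        refine ⟨y, le_rfl, by omega, fun z z1 z2 => ?_⟩
        by_cases hz : z = y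
        · exact own z hz
        · exact inrow (y / n + 1) z (by omega) e2 (by omega) (by omega) (by omega) (by omega)
      · have k1 : n * (A (y / n - 1) + 1) ≤ n * A (y / n) :=
          mul_le_mul_of_nonneg_left (by omega) hn.le
        have k2 : n * (A (y / n) + 1) ≤ n * B (y / n - 1) :=
          mul_le_mul_of_nonneg_left (by
            have := C.ov2 (y / n - 1) (by omega) (by omega)
            rw [sub_add_cancel] at this
            omega) hn.le
        have k3 : n * (A (y / n - 1) + 1) = n * A (y / n - 1) + n := by ring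
        have k4 : n * (A (y / n) + 1) = n * A (y / n) + n := by ring
        refine ⟨y - n + 1, by omega, by omega, fun z z1 z2 => ?_⟩
        by_cases hz : z = y
        · exact own z hz
        · exact inrow (y / n - 1) z (by omega) (by omega) (by omega) (by omega) (by omega)
            (by omega)

end coarse

/-- the levels of a coarse window -/
noncomputable def GC (D : Win) (n H : ℤ) : Finset ℤ :=
  ((Icc 0 H ×ˢ Icc (-1) 1).image fun t : ℤ × ℤ => n * t.1 + t.2).filter fun g => 0 ≤ g ∧ g ≤ D.h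

lemma mem_GC {Y i : ℤ} (h0 : 0 ≤ Y) (h1 : Y ≤ H) (hi : -1 ≤ i) (hi' : i ≤ 1)
    (hg : g = n * Y + i) (g0 : 0 ≤ g) (g1 : g ≤ D.h) : g ∈ GC D n H := by
  refine mem_filter.2 ⟨mem_image.2 ⟨(Y, i), mem_product.2 ⟨Finset.mem_Icc.2 ⟨h0, h1⟩,
    Finset.mem_Icc.2 ⟨hi, hi'⟩⟩, hg.symm⟩, g0, g1⟩

lemma card_GC {H0 : ℕ} (hH : 0 ≤ H) (hH0 : H ≤ H0) : (GC D n H).card ≤ 3 * (H0 + 1) := by
  refine (card_le_card (filter_subset _ _)).trans (card_image_le.trans ?_)
  rw [card_product, Int.card_Icc, Int.card_Icc]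
  have h1 : (1 + 1 - -1 : ℤ).toNat = 3 := rfl
  rw [h1]
  have h2 : (H + 1 - 0).toNat ≤ H0 + 1 := by omega
  omega

section coarseC

variable {YP YQ : ℤ} {CL CR : ℤ → Bool} (C : CoarseC D n H A B YP YQ CL CR)

include C

/-- **The levels of a coarse window** -/
theorem lev_C : D.Lev 0 (GC D n H) := by
  have hn := C.pos
  have hh := C.hh
  have hH := C.HH
  have hD := D.hh
  have hP0 := D.P0
  have hP1 := D.P1
  have hQ0 := D.Q0
  have hQ1 := D.Q1
  have z : (0 : ℤ) ∈ GC D n H := mem_GC (Y := 0) (i := 0) le_rfl hH.le (by norm_num) (by norm_num)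
    (by ring) le_rfl (by omega)
  refine ⟨?_, z, ?_, ?_, z, ?_, ?_, ?_⟩
  · intro y h0 h1 hy
    by_contra hc
    have hne : D.a y ≠ D.a (y - 1) ∨ D.b y ≠ D.b (y - 1) := by
      by_contra h
      push Not at h
      exact hc h
    obtain ⟨Y, k0, k1, k | k | k⟩ := lev_cases C.toCoarse h0 h1 hne
    · exact hy (mem_GC (Y := Y) (i := 0) k0 k1.le (by norm_num) (by norm_num) (by omega) h0.le
        h1.le)
    · exact hy (mem_GC (Y := Y) (i := 1) k0 k1.le (by norm_num) (by norm_num) (by omega) h0.le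
        h1.le)
    · exact hy (mem_GC (Y := Y + 1) (i := -1) (by omega) k1 (by norm_num) (by norm_num)
        (by rw [k]; ring) h0.le h1.le)
  · have e := C.yP
    have h1 : YP ≤ H := by
      by_contra hc
      have : n * (H + 1) ≤ n * YP := mul_le_mul_of_nonneg_left (by omega) hn.le
      have e3 : n * (H + 1) = n * H + n := by ring
      omega
    have h2 : 0 ≤ YP := by
      by_contra hc
      have : n * YP ≤ n * 0 := mul_le_mul_of_nonneg_left (by omega) hn.le
      omega
    exact mem_GC (Y := YP) (i := 0) h2 h1 (by norm_num) (by norm_num) (by omega) (by omega) hP1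
  · have e := C.yQ
    have h1 : YQ ≤ H := by
      by_contra hc
      have : n * (H + 1) ≤ n * YQ := mul_le_mul_of_nonneg_left (by omega) hn.le
      have e3 : n * (H + 1) = n * H + n := by ring
      omega
    have h2 : 0 ≤ YQ := by
      by_contra hc
      have : n * (YQ + 1) ≤ n * 0 := mul_le_mul_of_nonneg_left (by omega) hn.le
      have e3 : n * (YQ + 1) = n * YQ + n := by ring
      omega
    exact mem_GC (Y := YQ) (i := 0) h2 h1 (by norm_num) (by norm_num) (by omega) (by omega)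
      (by omega)
  · exact mem_GC (Y := H) (i := 0) hH.le le_rfl (by norm_num) (by norm_num) (by omega) (by omega)
      le_rfl
  · exact fun g hg => (mem_filter.1 hg).2.1
  · exact fun g hg => (mem_filter.1 hg).2.2

/-- **The ledges of a coarse window** -/
theorem ldg_C (hN : N + 1 ≤ n) : Ldg D (GC D n H) N := by
  have hn := C.pos
  have hn8 := C.hn
  have hh := C.hh
  have hP0 := D.P0
  have hQ0 := D.Q0
  have end_a : ∀ Y, 0 ≤ Y → Y < H → D.a (n * Y + 1) = n * A Y ∧ D.b (n * Y + 1) = n * B Y ∧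
      D.a (n * Y + n - 2) = n * A Y ∧ D.b (n * Y + n - 2) = n * B Y ∧
      D.a (n * Y) ≤ n * A Y ∧ n * B Y ≤ D.b (n * Y) ∧
      D.a (n * Y + n - 1) ≤ n * A Y ∧ n * B Y ≤ D.b (n * Y + n - 1) ∧
      0 ≤ n * Y ∧ n * Y + n ≤ D.h := by
    intro Y h0 h1
    have k := row_h C.toCoarse h0 h1
    have e1 := ab_mid C.toCoarse h0 h1 (y := n * Y + 1) (by omega) (by omega)
    have e2 := ab_mid C.toCoarse h0 h1 (y := n * Y + n - 2) (by omega) (by omega)
    have e3 := (C.a_le (y := n * Y) (by omega) (by omega)).2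
    have e4 := (C.le_b (y := n * Y) (by omega) (by omega)).1
    have e5 := (C.a_le (y := n * Y + n - 1) (by omega) (by omega)).2
    have e6 := (C.le_b (y := n * Y + n - 1) (by omega) (by omega)).1
    rw [dv_eq (X := Y) hn (by omega) (by omega)] at e3 e4
    rw [dv_eq (X := Y) hn (by omega) (by omega)] at e5 e6
    exact ⟨e1.1, e1.2, e2.1, e2.2, e3, e4, e5, e6, k⟩
  have clL : ∀ y Y, -1 ≤ y → y + 1 < D.yP → n * Y ≤ y + 1 → y + 1 < n * Y + n → D.cl y = CL Y := by
    intro y Y h0 h1 h2 h3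
    rw [C.cl y h0 (by have := D.P1; omega), if_pos h1, dv_eq hn h2 h3]
  have clU : ∀ y Y, -1 ≤ y → y < D.h → D.yP ≤ y + 1 → n * Y ≤ y → y < n * Y + n →
      D.cl y = CL Y := by
    intro y Y h0 h1 h2 h3 h4
    rw [C.cl y h0 h1, if_neg (by omega), dv_eq hn h3 h4]
  have crL : ∀ y Y, -1 ≤ y → y < D.yQ → n * Y ≤ y + 1 → y + 1 < n * Y + n → D.cr y = CR Y := by
    intro y Y h0 h1 h2 h3
    rw [C.cr y h0 (by have := D.Q1; omega), if_pos h1, dv_eq hn h2 h3]
  have crU : ∀ y Y, -1 ≤ y → y < D.h → D.yQ ≤ y → n * Y ≤ y → y < n * Y + n → D.cr y = CR Y := by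
    intro y Y h0 h1 h2 h3 h4
    rw [C.cr y h0 h1, if_neg (by omega), dv_eq hn h3 h4]
  have pred : ∀ Y, n * (Y - 1) = n * Y - n := fun Y => by ring
  refine ⟨?_, ?_, ?_, ?_⟩
  · intro g _ h0 h1 hlt
    have hd := a_drop (D := D) (y := g - 1) (by omega) (by omega) (by rw [sub_add_cancel]; omega)
    rw [sub_add_cancel] at hd
    obtain ⟨Y, k0, k1, k | k | k⟩ := lev_cases C.toCoarse h0 h1 (Or.inl (by omega))
    · have hY : 0 < Y := by
        by_contra hc
        have : Y = 0 := by omega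
        rw [this, mul_zero] at k
        omega
      have e := pred Y
      have hr := end_a (Y - 1) (by omega) (by omega)
      refine ⟨by omega, fun y y1 y2 => ?_⟩
      rw [clL y (Y - 1) (by omega) (by omega) (by omega) (by omega),
        clL (g - 2) (Y - 1) (by omega) (by omega) (by omega) (by omega)]
    · have hr := end_a Y k0 k1
      rw [k, add_sub_cancel_right] at hlt
      omega
    · have hr := end_a Y k0 k1
      refine ⟨by omega, fun y y1 y2 => ?_⟩
      rw [clL y Y (by omega) (by omega) (by omega) (by omega),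
        clL (g - 2) Y (by omega) (by omega) (by omega) (by omega)]
  · intro g _ h0 h1 hlt
    have hd := b_rise (D := D) (y := g - 1) (by omega) (by rw [sub_add_cancel]; omega)
    rw [sub_add_cancel] at hd
    obtain ⟨Y, k0, k1, k | k | k⟩ := lev_cases C.toCoarse h0 h1 (Or.inr (by omega))
    · have hY : 0 < Y := by
        by_contra hc
        have : Y = 0 := by omega
        rw [this, mul_zero] at k
        omega
      have e := pred Y
      have hr := end_a (Y - 1) (by omega) (by omega)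
      refine ⟨by omega, fun y y1 y2 => ?_⟩
      rw [crL y (Y - 1) (by omega) (by omega) (by omega) (by omega),
        crL (g - 2) (Y - 1) (by omega) (by omega) (by omega) (by omega)]
    · have hr := end_a Y k0 k1
      rw [k, add_sub_cancel_right] at hlt
      omega
    · have hr := end_a Y k0 k1
      refine ⟨by omega, fun y y1 y2 => ?_⟩
      rw [crL y Y (by omega) (by omega) (by omega) (by omega),
        crL (g - 2) Y (by omega) (by omega) (by omega) (by omega)]
  · intro g _ h0 h1 hlt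
    have hd := a_rise (D := D) (y := g - 1) (by omega) (by rw [sub_add_cancel]; omega)
    rw [sub_add_cancel] at hd
    obtain ⟨Y, k0, k1, k | k | k⟩ := lev_cases C.toCoarse h0 h1 (Or.inl (by omega))
    · have hr := end_a Y k0 k1
      refine ⟨by omega, fun y y1 y2 => ?_⟩
      rw [clU y Y (by omega) (by omega) (by omega) (by omega) (by omega),
        clU g Y (by omega) (by omega) (by omega) (by omega) (by omega)]
    · have hr := end_a Y k0 k1
      refine ⟨by omega, fun y y1 y2 => ?_⟩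
      rw [clU y Y (by omega) (by omega) (by omega) (by omega) (by omega),
        clU g Y (by omega) (by omega) (by omega) (by omega) (by omega)]
    · have hr := end_a Y k0 k1
      rw [k, show n * Y + n - 1 - 1 = n * Y + n - 2 by ring] at hlt
      omega
  · intro g _ h0 h1 hlt
    have hd := b_drop (D := D) (y := g - 1) (by omega) (by rw [sub_add_cancel]; omega)
    obtain ⟨Y, k0, k1, k | k | k⟩ := lev_cases C.toCoarse h0 h1 (Or.inr (by omega))
    · have hr := end_a Y k0 k1
      refine ⟨by omega, fun y y1 y2 => ?_⟩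
      rw [crU y Y (by omega) (by omega) (by omega) (by omega) (by omega),
        crU g Y (by omega) (by omega) (by omega) (by omega) (by omega)]
    · have hr := end_a Y k0 k1
      refine ⟨by omega, fun y y1 y2 => ?_⟩
      rw [crU y Y (by omega) (by omega) (by omega) (by omega) (by omega),
        crU g Y (by omega) (by omega) (by omega) (by omega) (by omega)]
    · have hr := end_a Y k0 k1
      rw [k, show n * Y + n - 1 - 1 = n * Y + n - 2 by ring] at hlt
      omega

end coarseC

/-! ### The outside -/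

variable {O : OutB D}

/-- far labels, ports and root are good in the large box of the half side `N` -/
structure OutOK (O : OutB D) (N : ℤ) : Prop where
  free : ∀ x y, InL D N x y → fillc D x y = false → lt (x, y) ∉ O.Wo
  port : Ports O N
  root : ∀ g, Ag g O.c0 → OutF (D.a (D.yP - 1) - N + 1) (D.b D.yQ + N) (-N + 1) (D.h + N) g

lemma colp_top : colp D (D.h + 2) = D.ct := by
  have hh := D.hh
  unfold colp
  rw [Int.emod_eq_of_lt (by omega) (by unfold Pool.Agent.H13.Sp.nP; omega), Pool.Agent.H13.Sp.colq_t]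

lemma colp_bot : colp D 0 = D.cb := by
  unfold colp
  rw [Int.zero_emod, Pool.Agent.H13.Sp.colq_0]

/-- the port is a wired row, the next position (counterclockwise) is free -/
structure PortN (D : Win) (X : Bool × ℤ) : Prop where
  rl : X.1 = false → -1 ≤ X.2 ∧ X.2 ≤ D.h
  rr : X.1 = true → -2 ≤ X.2 ∧ X.2 < D.h
  c : portc D X = true
  l : X.1 = false → colp D (2 * D.h + 3 - X.2) = false
  r : X.1 = true → colp D (X.2 + 3) = false

lemma PortN.port {X : Bool × ℤ} (h : PortN D X)
    (hxy : y = X.2 ∧ ((X.1 = false ∧ x + 4 < D.a (D.yP - 1)) ∨ (X.1 = true ∧ D.b D.yQ + 4 ≤ x))) :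
    (x < D.a (D.yP - 1) ∧ -1 ≤ y ∧ y ≤ D.h ∧ colp D (2 * D.h + 2 - y) ≠ colp D (2 * D.h + 3 - y)) ∨
    (D.b D.yQ ≤ x ∧ -2 ≤ y ∧ y < D.h ∧ colp D (y + 2) ≠ colp D (y + 3)) := by
  have hc := h.c
  unfold portc at hc
  have hh := D.hh
  obtain ⟨rfl, ⟨h2, h3⟩ | ⟨h2, h3⟩⟩ := hxy
  · obtain ⟨h0, h1⟩ := h.rl h2
    rw [if_neg (by omega)] at hc
    refine Or.inl ⟨by omega, h0, h1, ?_⟩
    rw [h.l h2]
    by_cases h4 : X.2 = D.h
    · rw [if_pos (by omega)] at hc
      rw [h4, show 2 * D.h + 2 - D.h = D.h + 2 by ring, colp_top, hc]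
      simp
    · rw [if_neg (by omega), h2, if_neg (by simp)] at hc
      rw [colp_left h0 (by omega), hc]
      simp
  · obtain ⟨h0, h1⟩ := h.rr h2
    refine Or.inr ⟨by omega, h0, h1, ?_⟩
    rw [h.r h2]
    by_cases h4 : X.2 = -2
    · rw [if_pos (by omega)] at hc
      rw [h4, show (-2 : ℤ) + 2 = 0 by norm_num, colp_bot, hc]
      simp
    · rw [if_neg (by omega), if_neg (by omega), h2, if_pos rfl] at hc
      rw [colp_right (by omega) h1, hc]
      simp

/-- **One wire** -/
theorem outOK_one {L : ℤ} {hL : 2 ≤ L} {X : Bool × ℤ} (h : Pool.Agent.H33.Sp.PortD D X)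
    (hX : PortN D X) (hN : N ≤ L + 5) : OutOK (Pool.Agent.H33.Sp.oOne D L hL X h) N where
  free := freeO h hX.c
  port x y _ hl := hX.port (Pool.Agent.H33.Sp.wo_oOne h (by
    rwa [Pool.Agent.H33.Sp.oOne_Wo] at hl))
  root := rootO h hN

/-- **Two wires** -/
theorem outOK_two {L : ℤ} {hL : 2 ≤ L} {X Y : Bool × ℤ} (h : Pool.Agent.H33.Sp.PortD D X)
    (h' : Pool.Agent.H33.Sp.PortD D Y) (hX : PortN D X) (hY : PortN D Y) (hN : N ≤ L + 3) :
    OutOK (Pool.Agent.H33.Sp.oTwo D L hL X Y h h') N where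
  free := freeT h h' hX.c hY.c hN
  port x y hin hl := by
    rw [Pool.Agent.H33.Sp.oTwo_Wo] at hl
    rcases Pool.Agent.H33.Sp.wo_oTwo h h' hl with h1 | h1 | h1
    · exact hX.port h1
    · exact hY.port h1
    · unfold InL at hin
      omega
  root := rootT h h' (by omega)

/-! ### Coarse windows at the scale `R` -/

/-- **Coarse windows are natural windows at the scale `R`.** -/
theorem winX_C {YP YQ : ℤ} {CL CR : ℤ → Bool} (C : CoarseC D n H A B YP YQ CL CR) {η : ℝ}
    {H0 R : ℕ} {s0 : ℤ} (hH : H ≤ H0) (hN0 : 1 ≤ N) (hN : 2 * N + 8 ≤ n) (hR : η * R ≤ N)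
    (h2 : (D.h : ℝ) ≤ R / η) (w2 : ((D.b D.yQ - D.a (D.yP - 1) : ℤ) : ℝ) ≤ R / η)
    (hcut : colp D (s0 - 1) ≠ colp D s0) (hO : OutOK O N) :
    WinX η (3 * (H0 + 1)) R O s0 N (GC D n H) where
  N1 := hR
  lev := ⟨0, lev_C C⟩
  card := card_GC C.HH.le hH
  h2 := h2
  w2 := w2
  fat := fat_mono (fat_C C.toCoarse) hN0 (by omega)
  ldg := ldg_C C (by omega)
  cut := hcut
  wide := wide_C C.toCoarse hN
  gates := by
    obtain ⟨q, hq, e1⟩ := exists_gate C (by omega : 0 ≤ N) hN (s0 - 1)
    obtain ⟨q', hq', e2⟩ := exists_gate C (by omega : 0 ≤ N) hN s0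
    refine ⟨q, q', hq, hq', fun h => hcut ?_⟩
    rw [← e1, ← e2, ← colp_rep (D := D) (s0 := s0) (s := q), ← colp_rep (D := D) (s0 := s0)
      (s := q'), h]
  free := hO.free
  port := hO.port
  root := hO.root

/-- linked points at a larger distance -/
lemma lnk_mono {d d' : ℝ} {P Q : ℤ × ℤ} (h : Lnk D d P Q) (hd : d' ≤ d) : Lnk D d' P Q :=
  fun x y h1 h2 h3 h4 => h x y (by linarith) (by linarith) (by linarith) (by linarith)

lemma lbw_mono {S : ℕ → Set (Σ D : Win, Out D)} {η η' : ℝ} (h : LBW S η') (hη : η' ≤ η) :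
    LBW S η := by
  intro Z
  obtain ⟨M, R0, h1⟩ := h Z
  refine ⟨M, R0, fun R hR v hv top z hz H' hH P Q hPQ => h1 R hR v hv top z hz H' hH P Q ?_⟩
  exact lnk_mono hPQ (mul_le_mul_of_nonneg_right hη (Nat.cast_nonneg R))

/-- **The local a priori bound for coarse windows** with at most `H0` rows and `W0` columns of cells of a
side between `c1 R` and `c2 R`. -/
theorem lbw_C {S : ℕ → Set (Σ D : Win, Out D)} (H0 W0 R1 : ℕ) {c1 c2 : ℝ} (hc1 : 0 < c1)
    (hc2 : 0 < c2) (hS : ∀ R : ℕ, R1 ≤ R → ∀ v ∈ S R, ∃ O : OutB v.1, v.2 = O.out ∧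
      ∃ (n H : ℤ) (A B : ℤ → ℤ) (YP YQ : ℤ) (CL CR : ℤ → Bool) (s0 : ℤ),
        CoarseC v.1 n H A B YP YQ CL CR ∧ H ≤ H0 ∧ (v.1.b v.1.yQ - v.1.a (v.1.yP - 1) ≤ n * W0) ∧
        c1 * R ≤ n ∧ (n : ℝ) ≤ c2 * R ∧ colp v.1 (s0 - 1) ≠ colp v.1 s0 ∧
        OutOK O (n / 2 - 4)) {η : ℝ} (hη : 0 < η) : LBW S η := by
  set η' : ℝ := min η (min (c1 / 4) (min (1 / (c2 * (H0 + 1))) (1 / (c2 * (W0 + 1))))) with hη'
  have hη'0 : 0 < η' := by positivity
  have k1 : η' ≤ c1 / 4 := (min_le_right _ _).trans (min_le_left _ _)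
  have k2 : η' ≤ 1 / (c2 * (H0 + 1)) :=
    (min_le_right _ _).trans ((min_le_right _ _).trans (min_le_left _ _))
  have k3 : η' ≤ 1 / (c2 * (W0 + 1)) :=
    (min_le_right _ _).trans ((min_le_right _ _).trans (min_le_right _ _))
  refine lbw_mono (η' := η') (lbw_of hη'0 (3 * (H0 + 1)) (max R1 ⌈20 / c1⌉₊) ?_) (min_le_left _ _)
  intro R hR v hv
  have hR1 : R1 ≤ R := (le_max_left _ _).trans hR
  have hR2 : 20 ≤ c1 * R := by
    have := Nat.ceil_le.1 ((le_max_right _ _).trans hR)
    rw [div_le_iff₀ hc1] at this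
    linarith
  obtain ⟨O, hO, n, H, A, B, YP, YQ, CL, CR, s0, C, hH, hw, n1, n2, hcut, hok⟩ := hS R hR1 v hv
  have hn20 : (20 : ℤ) ≤ n := by
    have : ((20 : ℤ) : ℝ) ≤ n := by push_cast; linarith
    exact_mod_cast this
  have hR0 : (0 : ℝ) ≤ R := Nat.cast_nonneg R
  have hn0 : (0 : ℝ) ≤ n := by
    have : ((0 : ℤ) : ℝ) ≤ n := by exact_mod_cast (by omega : (0 : ℤ) ≤ n)
    simpa using this
  have size : ∀ (K : ℕ) (z : ℤ), z ≤ n * K → η' ≤ 1 / (c2 * (K + 1)) → (z : ℝ) ≤ R / η' := by
    intro K z hz hk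
    rw [le_div_iff₀ hη'0]
    have h1 : (z : ℝ) ≤ n * K := by exact_mod_cast hz
    have h2 : (z : ℝ) ≤ c2 * R * (K + 1) := by
      have h3 : (n : ℝ) * K ≤ c2 * R * K := mul_le_mul_of_nonneg_right n2 (Nat.cast_nonneg K)
      have h4 : 0 ≤ c2 * R := by positivity
      nlinarith
    calc (z : ℝ) * η' ≤ c2 * R * (K + 1) * η' := mul_le_mul_of_nonneg_right h2 hη'0.le
      _ ≤ c2 * R * (K + 1) * (1 / (c2 * (K + 1))) := mul_le_mul_of_nonneg_left hk (by positivity)
      _ = R := by field_simp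
  refine ⟨O, hO, s0, n / 2 - 4, GC v.1 n H, winX_C C hH (by omega) (by omega) ?_ ?_ ?_ hcut hok⟩
  · have h1 : (n : ℝ) / 2 - 5 ≤ ((n / 2 - 4 : ℤ) : ℝ) := by
      have h2 : n ≤ 2 * (n / 2 - 4) + 9 := by omega
      have h3 : (n : ℝ) ≤ 2 * ((n / 2 - 4 : ℤ) : ℝ) + 9 := by exact_mod_cast h2
      linarith
    have h2 : η' * R ≤ c1 / 4 * R := mul_le_mul_of_nonneg_right k1 hR0
    linarith
  · refine size H0 _ ?_ k2
    rw [C.hh]
    exact mul_le_mul_of_nonneg_left hH (by omega)
  · exact size W0 _ hw k3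

end Pool.Agent.H20.Sp
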