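import Pool.Agent.H20.Sp.BoxA
import Pool.Agent.H13.Sp.Gate

set_option autoImplicit false
open Finset

/-!
# Natural windows at the scale `R`

`Ports O N` : inside the large box far labels only in the rows next to a change of the colour.
`WinX η n0 R O s0 N G` : few levels, size of order `R`, all geometric parameters at least `N ≥ η R`.
`box_far` : no far label in the box around a deep tie.
-/

namespace Pool.Agent.H20.Sp

open Pool.Agent.H75.Perc hiding ph
open Pool.Agent.H75.TwoArm Pool.Agent.Q1 Pool.Agent.H33.Q1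
open Pool.Agent.H75.Four hiding ev
open Pool.Agent.H69.Q1
open Pool.Agent.H46.Sp (Win Out nxt nxt_le nxt_mem le_nxt not_lev)
open Pool.Agent.H46.Sp.Win
open Pool.Agent.H74.Win
open Pool.Agent.H42.Sp (Sd Ix kt rt kt_odd rt_even kt_Tg rt_Tg)
open Pool.Agent.H13.R45 (gp Ag OutF ev)
open Pool.Agent.H39.Q1 (TF mem_TF)
open Pool.Agent.H13.Sp (TieP fmA bA bt gt gt_kt kt_gt KA_iff mem_TA exists_tie CA_iff arc ps colp rep
  rep_adj dr colp_ps InL Wide HasG StL StR StB StT nP)

variable {D : Win} {p : Bool} {j : ℤ} {G : Finset ℤ} {g c n r s0 N m : ℤ} {O : OutB D}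

/-- inside the large box far labels only in the rows next to a change of the colour -/
def Ports (O : OutB D) (N : ℤ) : Prop := ∀ x y, InL D N x y → lt (x, y) ∈ O.Wo →
  (x < D.a (D.yP - 1) ∧ -1 ≤ y ∧ y ≤ D.h ∧ colp D (2 * D.h + 2 - y) ≠ colp D (2 * D.h + 3 - y)) ∨
  (D.b D.yQ ≤ x ∧ -2 ≤ y ∧ y < D.h ∧ colp D (y + 2) ≠ colp D (y + 3))

/-- **natural windows at the scale `R`** -/
structure WinX (η : ℝ) (n0 R : ℕ) (O : OutB D) (s0 N : ℤ) (G : Finset ℤ) : Prop where
  N1 : η * R ≤ N
  lev : ∃ j, D.Lev j G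
  card : G.card ≤ n0
  h2 : (D.h : ℝ) ≤ R / η
  w2 : ((D.b D.yQ - D.a (D.yP - 1) : ℤ) : ℝ) ≤ R / η
  fat : D.Fat N
  ldg : Ldg D G N
  cut : colp D (s0 - 1) ≠ colp D s0
  wide : Wide D N
  gates : ∃ q q', HasG D N q ∧ HasG D N q' ∧ rep D s0 q ≠ rep D s0 q'
  free : ∀ x y, InL D N x y → fillc D x y = false → lt (x, y) ∉ O.Wo
  port : Ports O N
  root : ∀ g, Ag g O.c0 → OutF (D.a (D.yP - 1) - N + 1) (D.b D.yQ + N) (-N + 1) (D.h + N) g

lemma wide_mono (h : Wide D N) (hN : m ≤ N) : Wide D m := fun y z h1 h2 h3 h4 h5 h6 => by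
  have := h y z h1 h2 h3 h4 (by omega) (by omega)
  omega

lemma hasG_mono {q : ℤ} (h : HasG D N q) (hN : m ≤ N) : HasG D m q := by
  rcases h with ⟨y, h1, h2, h3, A, h4⟩ | ⟨y, h1, h2, h3, A, h4⟩ | ⟨h1, h2, x, h3⟩ | ⟨h1, h2, x, h3⟩
  · refine Or.inl ⟨y, h1, by omega, by omega, A, fun v h5 h6 => ?_⟩
    have := h4 v (by omega) (by omega)
    omega
  · refine Or.inr (Or.inl ⟨y, h1, by omega, by omega, A, fun v h5 h6 => ?_⟩)
    have := h4 v (by omega) (by omega)
    omega
  · refine Or.inr (Or.inr (Or.inl ⟨h1, by omega, x, fun v h5 h6 => ?_⟩))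
    have := h3 v (by omega) (by omega)
    omega
  · refine Or.inr (Or.inr (Or.inr ⟨h1, by omega, x, fun v h5 h6 => ?_⟩))
    have := h3 v (by omega) (by omega)
    omega

/-- the box around a deep tie is inside the large box, and contains no far label -/
theorem box_far (hG : D.Lev j G) (hF : D.Fat n) (hO : Ports O n)
    {i : Fin 8} {k : Ix} (hg : g ∈ G) (h : Sg D p G c i g k) (hr0 : 1 ≤ r) (hr : r + 3 ≤ c)
    (hrn : r + 3 ≤ n) :
    ∀ x y, |x - (inn k).1| ≤ r → |y - (inn k).2| ≤ r → InL D n x y ∧ lt (x, y) ∉ O.Wo := by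
  have lo := hG.lo g hg
  have hi := hG.hi g hg
  have hs := sh_nonneg p
  have hs1 := sh_le p
  have hhh := D.hh
  have hP := D.P0
  have hP1 := D.P1
  have hQ := D.Q0
  have hQ1 := D.Q1
  have am : ∀ y, 0 ≤ y → y < D.h → D.a (D.yP - 1) ≤ D.a y := fun y h1 h2 => a_min h1 h2
  have bm : ∀ y, 0 ≤ y → y < D.h → D.b y ≤ D.b D.yQ := fun y h1 h2 => b_max h1 h2
  have xMm : D.a (D.yP - 1) + n ≤ D.b D.yQ := by
    have h1 := hF.row 0 le_rfl (by omega)
    have h2 := am 0 le_rfl (by omega)
    have h3 := bm 0 le_rfl (by omega)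
    omega
  obtain ⟨s, x0, y0⟩ := k
  -- columns strictly inside
  have ins : ∀ x y, InL D n x y → D.a (D.yP - 1) ≤ x → x < D.b D.yQ → lt (x, y) ∉ O.Wo := by
    intro x y h1 h2 h3 h4
    rcases hO x y h1 h4 with h5 | h5 <;> omega
  intro x y hx hy
  fin_cases i
  · obtain ⟨hca, h1, h2, h3, h4⟩ := h
    simp only at h1 h2 h3 h4
    subst h1 h2
    have hn := hG.nxt_h (g := g) (by omega)
    simp only [inn] at hx hy
    rw [abs_le] at hx hy
    have e1 := am g (by omega) (by omega)
    have e2 := bm g (by omega) (by omega)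
    have e3 := hF.row g (by omega) (by omega)
    have hin : InL D n x y := by unfold InL; omega
    refine ⟨hin, fun hw => ?_⟩
    rcases hO x y hin hw with ⟨k1, k2, k3, k4⟩ | k1
    · apply k4
      rw [colp_row' (by omega) (by omega), colp_row' (by omega) (by omega),
        hG.cl_eq hg (y := 2 * D.h + 2 - (2 * D.h + 2 - y)) (by omega) (by omega),
        hG.cl_eq hg (y := 2 * D.h + 2 - (2 * D.h + 3 - y)) (by omega) (by omega)]
    · omega
  · obtain ⟨hca, h1, h2, h3, h4⟩ := h
    simp only at h1 h2 h3 h4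
    subst h1 h2
    have hn := hG.nxt_h (g := g) (by omega)
    simp only [inn] at hx hy
    rw [abs_le] at hx hy
    have e1 := am g (by omega) (by omega)
    have e2 := bm g (by omega) (by omega)
    have e3 := hF.row g (by omega) (by omega)
    have hin : InL D n x y := by unfold InL; omega
    refine ⟨hin, fun hw => ?_⟩
    rcases hO x y hin hw with k1 | ⟨k1, k2, k3, k4⟩
    · omega
    · apply k4
      rw [colp_row (by omega) (by omega), colp_row (by omega) (by omega),
        hG.cr_eq hg (y := y + 2 - 2) (by omega) (by omega),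
        hG.cr_eq hg (y := y + 3 - 2) (by omega) (by omega)]
  · obtain ⟨hca, h1, h2, h3, h4, h5⟩ := h
    simp only at h1 h2 h3 h4 h5
    subst h1 h2
    have h6 := (F_x hca).2.1
    simp only [inn] at hx hy
    rw [abs_le] at hx hy
    have e1 := am g (by omega) (by omega)
    have e2 := bm (g - 1) (by omega) (by omega)
    have e3 := D.ab (g - 1) (by omega) (by omega)
    have hin : InL D n x y := by unfold InL; omega
    exact ⟨hin, ins x y hin (by omega) (by omega)⟩
  · obtain ⟨hca, h1, h2, h3, h4, h5⟩ := h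
    simp only at h1 h2 h3 h4 h5
    subst h1 h2
    have h6 := (F_x hca).2.1
    simp only [inn] at hx hy
    rw [abs_le] at hx hy
    have e1 := am (g - 1) (by omega) (by omega)
    have e2 := bm g (by omega) (by omega)
    have e3 := D.ab (g - 1) (by omega) (by omega)
    have hin : InL D n x y := by unfold InL; omega
    exact ⟨hin, ins x y hin (by omega) (by omega)⟩
  · obtain ⟨hca, h1, h2, h3, h4, h5⟩ := h
    simp only at h1 h2 h3 h4 h5
    subst h1 h2 h3
    simp only [inn] at hx hy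
    rw [abs_le] at hx hy
    have e1 := am 0 (by omega) (by omega)
    have e2 := bm 0 (by omega) (by omega)
    have hin : InL D n x y := by unfold InL; omega
    exact ⟨hin, ins x y hin (by omega) (by omega)⟩
  · obtain ⟨hca, h1, h2, h3, h4, h5⟩ := h
    simp only at h1 h2 h3 h4 h5
    subst h1 h2
    have h6 := (C_x hca).1
    simp only [inn] at hx hy
    rw [abs_le] at hx hy
    have e1 := am (g - 1) (by omega) (by omega)
    have e2 := bm g (by omega) (by omega)
    have e3 := D.ab g (by omega) (by omega)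
    have hin : InL D n x y := by unfold InL; omega
    exact ⟨hin, ins x y hin (by omega) (by omega)⟩
  · obtain ⟨hca, h1, h2, h3, h4, h5⟩ := h
    simp only at h1 h2 h3 h4 h5
    subst h1 h2
    have h6 := (C_x hca).1
    simp only [inn] at hx hy
    rw [abs_le] at hx hy
    have e1 := am g (by omega) (by omega)
    have e2 := bm (g - 1) (by omega) (by omega)
    have e3 := D.ab g (by omega) (by omega)
    have hin : InL D n x y := by unfold InL; omega
    exact ⟨hin, ins x y hin (by omega) (by omega)⟩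
  · obtain ⟨hca, h1, h2, h3, h4, h5⟩ := h
    simp only at h1 h2 h3 h4 h5
    subst h1 h2 h3
    simp only [inn] at hx hy
    rw [abs_le] at hx hy
    have e1 := am (D.h - 1) (by omega) (by omega)
    have e2 := bm (D.h - 1) (by omega) (by omega)
    have hin : InL D n x y := by unfold InL; omega
    exact ⟨hin, ins x y hin (by omega) (by omega)⟩

/-! ### The number of families -/

open Classical in
/-- the arc of the ties of a segment -/
noncomputable def sgF (D : Win) (p : Bool) (s0 : ℤ) (G : Finset ℤ) (c : ℤ) (i : Fin 8) (g : ℤ) : ℤ :=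
  if h : ∃ k, Sg D p G c i g k then fmA D p s0 (lt (kt h.choose)) else 0

/-- **The number of families.** -/
theorem card_fam (hcut : colp D (s0 - 1) ≠ colp D s0) (hG : D.Lev j G) (hc : 3 ≤ c) :
    ((Pool.Agent.H13.Sp.TA D p).image (fmA D p s0)).card ≤
      8 * G.card + 10 * G.card * (2 * c.toNat + 1) := by
  classical
  have h1 : (Pool.Agent.H13.Sp.TA D p).image (fmA D p s0) ⊆
      (((univ : Finset (Fin 8)) ×ˢ G).image fun t => sgF D p s0 G c t.1 t.2) ∪
      (((univ : Finset (Fin 10)) ×ˢ (G ×ˢ Icc (-c) c)).image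
        fun t => fmA D p s0 (lt (kt (isoPt D p t.1 t.2.1 t.2.2)))) := by
    intro f hf
    obtain ⟨e, he, rfl⟩ := mem_image.1 hf
    obtain ⟨u, v, s, co, rfl, h⟩ := exists_tie he
    obtain ⟨k, hk, hk2⟩ : ∃ k, CA D p k ∧ lt (kt k) = lt (u, v) :=
      ⟨(s, gt s co (u, v)), CA_iff.1 h.2.1, by rw [kt_gt h.odd]⟩
    rw [← hk2]
    rcases cover_XA (c := c) hG hk with ⟨i, g, hg, h2⟩ | ⟨e, g, hg, i, hi, hi', h2⟩
    · refine mem_union_left _ (mem_image.2 ⟨(i, g), mem_product.2 ⟨mem_univ _, hg⟩, ?_⟩)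
      have hex : ∃ k, Sg D p G c i g k := ⟨k, h2⟩
      unfold sgF
      rw [dif_pos hex]
      exact fmA_seg hcut hG hc hg hex.choose_spec h2
    · refine mem_union_right _ (mem_image.2 ⟨(e, g, i), ?_, by rw [h2]⟩)
      exact mem_product.2 ⟨mem_univ _, mem_product.2 ⟨hg, Finset.mem_Icc.2 ⟨hi, hi'⟩⟩⟩
  refine (card_le_card h1).trans ((card_union_le _ _).trans ?_)
  refine (add_le_add card_image_le card_image_le).trans (le_of_eq ?_)
  rw [card_product, card_product, card_product, card_univ, card_univ, Fintype.card_fin,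
    Fintype.card_fin, Int.card_Icc, show (c + 1 - -c).toNat = 2 * c.toNat + 1 by omega]
  ring

end Pool.Agent.H20.Sp
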