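import Pool.Agent.H20.Sp.Fam

set_option autoImplicit false
open Finset

/-!
# The outside of the box around a deep tie lies in one arc

`box_arc` : in the box of radius `r` around the inner point of a tie which is far from the ends of its
segment, all tiles outside of `P^p` belong to the arc of the tie.
-/

namespace Pool.Agent.H20.Sp

open Pool.Agent.H75.Perc hiding ph
open Pool.Agent.H75.TwoArm Pool.Agent.Q1 Pool.Agent.H33.Q1
open Pool.Agent.H75.Four Pool.Agent.H69.Q1
open Pool.Agent.H46.Sp (Win Out nxt nxt_le nxt_mem le_nxt not_lev)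
open Pool.Agent.H46.Sp.Win
open Pool.Agent.H74.Win
open Pool.Agent.H42.Sp (Sd Ix kt rt kt_odd rt_even kt_Tg rt_Tg)
open Pool.Agent.H13.R45 (gp)
open Pool.Agent.H39.Q1 (TF mem_TF)
open Pool.Agent.H13.Sp (TieP TA fmA bA bt gt gt_kt kt_gt KA_iff mem_TA exists_tie CA_iff arc ps colp rep
  rep_adj dr colp_ps)

variable {D : Win} {p : Bool} {j : ℤ} {G : Finset ℤ} {g c n r s0 : ℤ}

/-- **The outside of a flat box lies in one arc.** -/
theorem box_arc (hcut : colp D (s0 - 1) ≠ colp D s0) (hG : D.Lev j G) (hl : Ldg D G n)
    {i : Fin 8} {k : Ix} (hg : g ∈ G) (h : Sg D p G c i g k) (hr0 : 2 ≤ r) (hr : r + 3 ≤ c)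
    (hrn : r + 3 ≤ n) :
    ∀ x y, |x - (inn k).1| ≤ r → |y - (inn k).2| ≤ r → ¬ hpl k.1 (inn k) x y →
      arc D p s0 x y = fmA D p s0 (lt (kt k)) := by
  have lo := hG.lo g hg
  have hi := hG.hi g hg
  have hs := sh_nonneg p
  have hs1 := sh_le p
  have hhh := D.hh
  have hP := D.P0
  have hP1 := D.P1
  have hQ := D.Q0
  have hQ1 := D.Q1
  suffices H : ∃ A B : ℤ, (∀ t, A ≤ t → t < B → colp D t = colp D (t + 1)) ∧
      ∀ x y, |x - (inn k).1| ≤ r → |y - (inn k).2| ≤ r → ¬ hpl k.1 (inn k) x y →
        A ≤ ps D p x y ∧ ps D p x y ≤ B by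
    obtain ⟨A, B, H1, H2⟩ := H
    intro x y hx hy hxy
    rw [fmA_kt h.ca]
    unfold arc
    refine rep_const' hcut (H2 x y hx hy hxy) (H2 _ _ ?_ ?_ ?_) H1
    · have q := kt_cases k
      obtain ⟨s, x, y⟩ := k
      cases s <;> simp only [inn, dr] at q ⊢ <;> rw [abs_le] <;> omega
    · have q := kt_cases k
      obtain ⟨s, x, y⟩ := k
      cases s <;> simp only [inn, dr] at q ⊢ <;> rw [abs_le] <;> omega
    · have q := kt_cases k
      obtain ⟨s, x, y⟩ := k
      cases s <;> simp only [inn, dr, hpl] at q ⊢ <;> omega
  obtain ⟨s, x0, y0⟩ := k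
  fin_cases i
  · obtain ⟨hca, h1, h2, h3, h4⟩ := h
    simp only at h1 h2 h3 h4
    subst h1 h2
    have hn := hG.nxt_h (g := g) (by omega)
    refine ⟨2 * D.h + 2 - (nxt G g - 2), 2 * D.h + 2 - g, fun t h5 h6 => ?_, fun x y hx hy h7 => ?_⟩
    · rw [colp_row' (by omega) (by omega), colp_row' (by omega) (by omega),
        hG.cl_eq hg (y := 2 * D.h + 2 - t) (by omega) (by omega),
        hG.cl_eq hg (y := 2 * D.h + 2 - (t + 1)) (by omega) (by omega)]
    · simp only [inn] at hx hy
      rw [abs_le] at hx hy
      simp only [hpl, inn] at h7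
      have e3 := hG.m_eq hg (y := y) (by omega) (by omega)
      unfold ps
      rw [if_neg (by omega), if_neg (by omega), if_pos (by omega)]
      omega
  · obtain ⟨hca, h1, h2, h3, h4⟩ := h
    simp only at h1 h2 h3 h4
    subst h1 h2
    have hn := hG.nxt_h (g := g) (by omega)
    refine ⟨g + 2, nxt G g - 2 + 2, fun t h5 h6 => ?_, fun x y hx hy h7 => ?_⟩
    · rw [colp_row (by omega) (by omega), colp_row (by omega) (by omega),
        hG.cr_eq hg (y := t - 2) (by omega) (by omega),
        hG.cr_eq hg (y := t + 1 - 2) (by omega) (by omega)]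
    · simp only [inn] at hx hy
      rw [abs_le] at hx hy
      simp only [hpl, inn] at h7
      have e3 := hG.M_eq hg (y := y) (by omega) (by omega)
      have e4 := m_lt_M (D := D) (y := y) (by omega) (by omega)
      unfold ps
      rw [if_neg (by omega), if_neg (by omega), if_neg (by omega), if_pos (by omega)]
      omega
  · obtain ⟨hca, h1, h2, h3, h4, h5⟩ := h
    simp only at h1 h2 h3 h4 h5
    subst h1 h2
    have h6 := (F_x hca).2.1
    obtain ⟨l1, l2⟩ := hl.fl g hg h3 (by omega) (by omega)
    refine ⟨2 * D.h + 2 - (g - 2), 2 * D.h + 2 - (g - n), fun t h7 h8 => ?_,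
      fun x y hx hy h7 => ?_⟩
    · rw [colp_row' (by omega) (by omega), colp_row' (by omega) (by omega),
        l2 (2 * D.h + 2 - t) (by omega) (by omega), l2 (2 * D.h + 2 - (t + 1)) (by omega) (by omega)]
    · simp only [inn] at hx hy
      rw [abs_le] at hx hy
      simp only [hpl, inn] at h7
      have hd := a_drop (D := D) (y := g - 1) (by omega) (by omega) (by rw [sub_add_cancel]; omega)
      rw [sub_add_cancel] at hd
      have below : ∀ Z, 0 ≤ Z → Z ≤ g - 1 → x < D.a Z := fun Z z1 z2 =>
        a_below (D := D) (Y := g - 1) (by omega) (by omega) (by rw [sub_add_cancel]; omega)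
          (by omega) Z z1 z2
      unfold ps
      by_cases h8 : y = g - 1
      · subst h8
        have e0 : p = false := by
          rcases sh_cases p with ⟨h, -⟩ | ⟨h, hs⟩
          · exact h
          · omega
        subst e0
        have e1 : D.m (g - 1) = D.a g := by rw [md_lo (by omega), sub_add_cancel]
        have e2 : D.b (g - 1) ≤ D.M (g - 1) := b_le_M (by omega)
        have e3 := D.ab (g - 1) (by omega) (by omega)
        have e4 := below (g - 1) (by omega) le_rfl
        rw [if_neg (by omega), if_neg (by omega), if_neg (by omega), if_neg (by omega),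
          if_neg (by simp), if_neg (by omega), if_pos (by omega)]
        omega
      · have e1 : D.m y = D.a (y + 1) := md_lo (by omega)
        have e2 := below (y + 1) (by omega) (by omega)
        rw [if_neg (by omega), if_neg (by omega), if_pos (by omega)]
        omega
  · obtain ⟨hca, h1, h2, h3, h4, h5⟩ := h
    simp only at h1 h2 h3 h4 h5
    subst h1 h2
    have h6 := (F_x hca).2.1
    obtain ⟨l1, l2⟩ := hl.fr g hg h3 (by omega) (by omega)
    refine ⟨g - n + 2, g - 2 + 2, fun t h7 h8 => ?_, fun x y hx hy h7 => ?_⟩
    · rw [colp_row (by omega) (by omega), colp_row (by omega) (by omega),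
        l2 (t - 2) (by omega) (by omega), l2 (t + 1 - 2) (by omega) (by omega)]
    · simp only [inn] at hx hy
      rw [abs_le] at hx hy
      simp only [hpl, inn] at h7
      have hd := b_rise (D := D) (y := g - 1) (by omega) (by rw [sub_add_cancel]; omega)
      rw [sub_add_cancel] at hd
      have below : ∀ Z, 0 ≤ Z → Z ≤ g - 1 → D.b Z ≤ x := fun Z z1 z2 =>
        b_below (D := D) (Y := g - 1) (by omega) (by omega) (by rw [sub_add_cancel]; omega)
          (by omega) Z z1 z2
      unfold ps
      by_cases h8 : y = g - 1
      · subst h8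
        have e0 : p = false := by
          rcases sh_cases p with ⟨h, -⟩ | ⟨h, hs⟩
          · exact h
          · omega
        subst e0
        have e1 : D.M (g - 1) = D.b g := by rw [Md_lo (by omega), sub_add_cancel]
        have e2 : D.m (g - 1) ≤ D.a (g - 1) := m_le_a (by omega)
        have e3 := D.ab (g - 1) (by omega) (by omega)
        have e4 := below (g - 1) (by omega) le_rfl
        rw [if_neg (by omega), if_neg (by omega), if_neg (by omega), if_neg (by omega),
          if_neg (by simp), if_neg (by omega), if_neg (by omega)]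
        omega
      · have e1 : D.M y = D.b (y + 1) := Md_lo (by omega)
        have e2 := below (y + 1) (by omega) (by omega)
        have e3 := m_lt_M (D := D) (y := y) (by omega) (by omega)
        rw [if_neg (by omega), if_neg (by omega), if_neg (by omega), if_pos (by omega)]
        omega
  · obtain ⟨hca, h1, h2, h3, h4, h5⟩ := h
    simp only at h1 h2 h3 h4 h5
    subst h1 h2 h3
    refine ⟨0, 0, fun t h7 h8 => by omega, fun x y hx hy h7 => ?_⟩
    simp only [inn] at hx hy
    rw [abs_le] at hx hy
    simp only [hpl, inn] at h7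
    unfold ps
    by_cases h8 : y < -1
    · rw [if_pos h8]
      omega
    · have h9 : y = -1 := by omega
      subst h9
      have e1 : D.m (-1) = D.a 0 := by rw [md_lo (by omega)]; congr 1
      have e2 : D.M (-1) = D.b 0 := by rw [Md_lo (by omega)]; congr 1
      have e3 : p = false := by
        rcases sh_cases p with ⟨h, -⟩ | ⟨h, hs⟩
        · exact h
        · omega
      subst e3
      rw [if_neg (by omega), if_neg (by omega), if_neg (by omega), if_neg (by omega),
        if_neg (by simp), if_pos rfl]
      omega
  · obtain ⟨hca, h1, h2, h3, h4, h5⟩ := h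
    simp only at h1 h2 h3 h4 h5
    subst h1 h2
    have h6 := (C_x hca).1
    obtain ⟨l1, l2⟩ := hl.ul g hg (by omega) h3 (by omega)
    refine ⟨2 * D.h + 2 - (g + n - 2), 2 * D.h + 2 - g, fun t h7 h8 => ?_,
      fun x y hx hy h7 => ?_⟩
    · rw [colp_row' (by omega) (by omega), colp_row' (by omega) (by omega),
        l2 (2 * D.h + 2 - t) (by omega) (by omega), l2 (2 * D.h + 2 - (t + 1)) (by omega) (by omega)]
    · simp only [inn] at hx hy
      rw [abs_le] at hx hy
      simp only [hpl, inn] at h7
      have hd := a_rise (D := D) (y := g - 1) (by omega) (by rw [sub_add_cancel]; omega)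
      rw [sub_add_cancel] at hd
      have above : ∀ Z, g ≤ Z → Z < D.h → x < D.a Z := fun Z z1 z2 =>
        a_above (D := D) (Y := g) (by omega) (by omega) (by omega) (by omega) Z z1 z2
      unfold ps
      by_cases h8 : y = g - 1
      · subst h8
        have e0 : p = true := by
          rcases sh_cases p with ⟨h, hs⟩ | ⟨h, -⟩
          · omega
          · exact h
        subst e0
        have e1 : D.m (g - 1) = D.a (g - 1) := md_hi (by omega)
        have e2 : D.b g ≤ D.M (g - 1) := by
          have := b_le_M' (D := D) (y := g - 1) (by omega)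
          rwa [sub_add_cancel] at this
        have e3 := above g le_rfl (by omega)
        have e4 := D.ab g (by omega) (by omega)
        rw [if_neg (by omega), if_neg (by omega), if_neg (by omega), if_neg (by omega),
          if_pos rfl, if_neg (by omega), if_pos (by rw [sub_add_cancel]; omega)]
        omega
      · have e1 : D.m y = D.a y := md_hi (by omega)
        have e2 := above y (by omega) (by omega)
        rw [if_neg (by omega), if_neg (by omega), if_pos (by omega)]
        omega
  · obtain ⟨hca, h1, h2, h3, h4, h5⟩ := h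
    simp only at h1 h2 h3 h4 h5
    subst h1 h2
    have h6 := (C_x hca).1
    obtain ⟨l1, l2⟩ := hl.ur g hg (by omega) h3 (by omega)
    refine ⟨g + 2, g + n - 2 + 2, fun t h7 h8 => ?_, fun x y hx hy h7 => ?_⟩
    · rw [colp_row (by omega) (by omega), colp_row (by omega) (by omega),
        l2 (t - 2) (by omega) (by omega), l2 (t + 1 - 2) (by omega) (by omega)]
    · simp only [inn] at hx hy
      rw [abs_le] at hx hy
      simp only [hpl, inn] at h7
      have hd := b_drop (D := D) (y := g - 1) (by omega) (by rw [sub_add_cancel]; omega)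
      have above : ∀ Z, g ≤ Z → Z < D.h → D.b Z ≤ x := fun Z z1 z2 =>
        b_above (D := D) (Y := g) (by omega) (by omega) (by omega) (by omega) Z z1 z2
      unfold ps
      by_cases h8 : y = g - 1
      · subst h8
        have e0 : p = true := by
          rcases sh_cases p with ⟨h, hs⟩ | ⟨h, -⟩
          · omega
          · exact h
        subst e0
        have e1 : D.M (g - 1) = D.b (g - 1) := Md_hi (by omega)
        have e2 : D.m (g - 1) ≤ D.a g := by
          have := m_le_a' (D := D) (y := g - 1) (by omega)
          rwa [sub_add_cancel] at this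
        have e3 := above g le_rfl (by omega)
        have e4 := D.ab g (by omega) (by omega)
        rw [if_neg (by omega), if_neg (by omega), if_neg (by omega), if_neg (by omega),
          if_pos rfl, if_neg (by omega), if_neg (by rw [sub_add_cancel]; omega)]
        omega
      · have e1 : D.M y = D.b y := Md_hi (by omega)
        have e2 := above y (by omega) (by omega)
        have e3 := m_lt_M (D := D) (y := y) (by omega) (by omega)
        rw [if_neg (by omega), if_neg (by omega), if_neg (by omega), if_pos (by omega)]
        omega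
  · obtain ⟨hca, h1, h2, h3, h4, h5⟩ := h
    simp only at h1 h2 h3 h4 h5
    subst h1 h2 h3
    refine ⟨D.h + 2, D.h + 2, fun t h7 h8 => by omega, fun x y hx hy h7 => ?_⟩
    simp only [inn] at hx hy
    rw [abs_le] at hx hy
    simp only [hpl, inn] at h7
    unfold ps
    by_cases h8 : D.h ≤ y
    · rw [if_neg (by omega), if_pos h8]
      omega
    · have h9 : y = D.h - 1 := by omega
      subst h9
      have e1 : D.m (D.h - 1) = D.a (D.h - 1) := md_hi (by omega)
      have e2 : D.M (D.h - 1) = D.b (D.h - 1) := Md_hi (by omega)
      have e3 : p = true := by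
        rcases sh_cases p with ⟨h, hs⟩ | ⟨h, -⟩
        · omega
        · exact h
      subst e3
      rw [if_neg (by omega), if_neg (by omega), if_neg (by omega), if_neg (by omega),
        if_pos rfl, if_pos rfl]
      omega

end Pool.Agent.H20.Sp
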