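import Pool.Agent.H20.Sp.RunX

set_option autoImplicit false
open Finset

/-!
# The box around a tie which is far from the ends of its segment is flat

`Ldg D G n` : the ledges are at distance `≥ n` from the bottom and the top, and the colour of the rows on
the outer side of a ledge is constant up to the distance `n`. `box_flat` : in the box of radius `r` around
the inner point of a tie, `P^p` is a half plane and the outside has the colour of the tie.
-/

namespace Pool.Agent.H20.Sp

open Pool.Agent.H75.Perc hiding ph
open Pool.Agent.H75.TwoArm Pool.Agent.Q1 Pool.Agent.H33.Q1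
open Pool.Agent.H75.Four Pool.Agent.H69.Q1
open Pool.Agent.H46.Sp (Win Out nxt nxt_le nxt_mem le_nxt not_lev)
open Pool.Agent.H46.Sp.Win
open Pool.Agent.H74.Win
open Pool.Agent.H42.Sp (Sd Ix kt rt kt_odd rt_even kt_Tg rt_Tg)

/-- ledges are far from the bottom and the top, the colour on their outer side is constant -/
structure Ldg (D : Win) (G : Finset ℤ) (n : ℤ) : Prop where
  fl : ∀ g ∈ G, 0 < g → g < D.h → D.a g < D.a (g - 1) → n ≤ g ∧
    ∀ y, g - n ≤ y → y ≤ g - 2 → D.cl y = D.cl (g - 2)
  fr : ∀ g ∈ G, 0 < g → g < D.h → D.b (g - 1) < D.b g → n ≤ g ∧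
    ∀ y, g - n ≤ y → y ≤ g - 2 → D.cr y = D.cr (g - 2)
  ul : ∀ g ∈ G, 0 < g → g < D.h → D.a (g - 1) < D.a g → g + n ≤ D.h ∧
    ∀ y, g ≤ y → y ≤ g + n - 2 → D.cl y = D.cl g
  ur : ∀ g ∈ G, 0 < g → g < D.h → D.b g < D.b (g - 1) → g + n ≤ D.h ∧
    ∀ y, g ≤ y → y ≤ g + n - 2 → D.cr y = D.cr g

/-- half planes -/
def hpl (s : Sd) (g : ℤ × ℤ) (x y : ℤ) : Prop :=
  match s with
  | .L => g.1 ≤ x
  | .R => x < g.1
  | .F => g.2 ≤ y
  | .C => y < g.2

variable {D : Win} {p : Bool} {j : ℤ} {G : Finset ℤ} {g c n r : ℤ}

/-- columns of a fat window above a point which is not in `P` -/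
lemma Fat_up (hF : D.Fat n) {x : ℤ} (h0 : 0 ≤ g) (h1 : g < D.h) (h2 : D.a g ≤ x) (h3 : x < D.b g)
    (h4 : ¬ (0 ≤ g - 1 ∧ D.a (g - 1) ≤ x ∧ x < D.b (g - 1))) {Y : ℤ} (h5 : g ≤ Y) (h6 : Y < g + n) :
    0 ≤ Y ∧ Y < D.h ∧ D.a Y ≤ x ∧ x < D.b Y := by
  obtain ⟨y0, k1, k2, k3⟩ := hF.col x g h0 h1 h2 h3
  by_cases h : y0 = g
  · subst h
    exact k3 Y h5 h6
  · have := k3 (g - 1) (by omega) (by omega)
    exact absurd ⟨this.1, this.2.2.1, this.2.2.2⟩ h4

/-- columns of a fat window below a point which is not in `P` -/
lemma Fat_down (hF : D.Fat n) {x : ℤ} (h0 : 0 < g) (h1 : g ≤ D.h) (h2 : D.a (g - 1) ≤ x)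
    (h3 : x < D.b (g - 1)) (h4 : ¬ (g < D.h ∧ D.a g ≤ x ∧ x < D.b g)) {Y : ℤ} (h5 : Y < g)
    (h6 : g - n ≤ Y) : 0 ≤ Y ∧ Y < D.h ∧ D.a Y ≤ x ∧ x < D.b Y := by
  obtain ⟨y0, k1, k2, k3⟩ := hF.col x (g - 1) (by omega) (by omega) h2 h3
  by_cases h : y0 + n = g
  · exact k3 Y (by omega) (by omega)
  · have := k3 g (by omega) (by omega)
    exact absurd ⟨this.2.1, this.2.2.1, this.2.2.2⟩ h4

/-- **Flat boxes.** -/
theorem box_flat (hG : D.Lev j G) (hF : D.Fat n) (hl : Ldg D G n) {i : Fin 8} {k : Ix} (hg : g ∈ G)
    (h : Sg D p G c i g k) (hr0 : 1 ≤ r) (hr : r + 3 ≤ c) (hrn : r + 3 ≤ n) :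
    ∀ x y, |x - (inn k).1| ≤ r → |y - (inn k).2| ≤ r →
      (InP D p x y ↔ hpl k.1 (inn k) x y) ∧
      (¬ InP D p x y → natc D p x y = decide ((k.2.1 + k.2.2) % 2 = 1)) := by
  have lo := hG.lo g hg
  have hi := hG.hi g hg
  have hs := sh_nonneg p
  have hs1 := sh_le p
  have hhh := D.hh
  have hP := D.P0
  have hP1 := D.P1
  have hQ := D.Q0
  have hQ1 := D.Q1
  -- the colour
  suffices H : ∃ κ : Bool, ∀ x y, |x - (inn k).1| ≤ r → |y - (inn k).2| ≤ r →
      (InP D p x y ↔ hpl k.1 (inn k) x y) ∧ (¬ hpl k.1 (inn k) x y → natc D p x y = κ) by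
    obtain ⟨κ, H⟩ := H
    have hca := h.ca
    have hk : natc D p k.2.1 k.2.2 = decide ((k.2.1 + k.2.2) % 2 = 1) := by
      obtain ⟨s, x, y⟩ := k
      cases s
      · exact hca.2.2.1
      · exact hca.2.2.1
      · exact hca.2.2.1
      · exact hca.2.2.1
    have hk2 : natc D p k.2.1 k.2.2 = κ := by
      refine (H k.2.1 k.2.2 ?_ ?_).2 ?_
      · obtain ⟨s, x, y⟩ := k
        cases s <;> simp only [inn] <;> rw [abs_le] <;> omega
      · obtain ⟨s, x, y⟩ := k
        cases s <;> simp only [inn] <;> rw [abs_le] <;> omega
      · obtain ⟨s, x, y⟩ := k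
        cases s <;> simp only [inn, hpl] <;> omega
    intro x y hx hy
    obtain ⟨h1, h2⟩ := H x y hx hy
    refine ⟨h1, fun h3 => ?_⟩
    rw [h2 (fun h4 => h3 (h1.2 h4)), ← hk2, hk]
  obtain ⟨s, x0, y0⟩ := k
  fin_cases i
  · obtain ⟨hca, h1, h2, h3, h4⟩ := h
    simp only at h1 h2 h3 h4
    subst h1 h2
    have hn := hG.nxt_h (g := g) (by omega)
    refine ⟨D.cl g, fun x y hx hy => ?_⟩
    simp only [inn] at hx hy
    rw [abs_le] at hx hy
    have e1 := (hG.ab_eq hg (y := y + sh p) (by omega) (by omega)).1
    have e2 := hF.row (y + sh p) (by omega) (by omega)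
    have e3 := hG.m_eq hg (y := y) (by omega) (by omega)
    simp only [hpl, inn]
    refine ⟨?_, fun h5 => ?_⟩
    · unfold InP; omega
    · unfold natc
      rw [if_neg (by omega), if_neg (by omega), if_pos (by omega)]
      exact hG.cl_eq hg (by omega) (by omega)
  · obtain ⟨hca, h1, h2, h3, h4⟩ := h
    simp only at h1 h2 h3 h4
    subst h1 h2
    have hn := hG.nxt_h (g := g) (by omega)
    refine ⟨D.cr g, fun x y hx hy => ?_⟩
    simp only [inn] at hx hy
    rw [abs_le] at hx hy
    have e1 := (hG.ab_eq hg (y := y + sh p) (by omega) (by omega)).2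
    have e2 := hF.row (y + sh p) (by omega) (by omega)
    have e3 := hG.M_eq hg (y := y) (by omega) (by omega)
    have e4 := m_lt_M (D := D) (y := y) (by omega) (by omega)
    simp only [hpl, inn]
    refine ⟨?_, fun h5 => ?_⟩
    · unfold InP; omega
    · unfold natc
      rw [if_neg (by omega), if_neg (by omega), if_neg (by omega), if_pos (by omega)]
      exact hG.cr_eq hg (by omega) (by omega)
  · obtain ⟨hca, h1, h2, h3, h4, h5⟩ := h
    simp only at h1 h2 h3 h4 h5
    subst h1 h2
    have h6 := (F_x hca).2.1
    obtain ⟨l1, l2⟩ := hl.fl g hg h3 (by omega) (by omega)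
    have hov := D.ov1 (g - 1) (by omega) (by omega)
    rw [sub_add_cancel] at hov
    have hd := a_drop (D := D) (y := g - 1) (by omega) (by omega) (by rw [sub_add_cancel]; omega)
    rw [sub_add_cancel] at hd
    refine ⟨D.cl (g - 2), fun x y hx hy => ?_⟩
    simp only [inn] at hx hy
    rw [abs_le] at hx hy
    simp only [hpl, inn]
    have below : ∀ Z, 0 ≤ Z → Z ≤ g - 1 → x < D.a Z := fun Z z1 z2 =>
      a_below (D := D) (Y := g - 1) (by omega) (by omega) (by rw [sub_add_cancel]; omega) (by omega)
        Z z1 z2
    refine ⟨⟨fun h7 => ?_, fun h7 => ?_⟩, fun h7 => ?_⟩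
    · by_contra h8
      have := below (y + sh p) h7.1 (by omega)
      have := h7.2.2.1
      omega
    · exact Fat_up hF (g := g) (by omega) (by omega) (by omega) (by omega)
        (by have := below (g - 1) (by omega) le_rfl; omega) (by omega) (by omega)
    · rcases sh_cases p with ⟨rfl, hs⟩ | ⟨rfl, hs⟩
      · by_cases h8 : y = g - 1
        · subst h8
          unfold natc
          have e1 : D.m (g - 1) = D.a g := by rw [md_lo (by omega), sub_add_cancel]
          have e2 : D.b (g - 1) ≤ D.M (g - 1) := b_le_M (by omega)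
          have e3 := D.ab (g - 1) (by omega) (by omega)
          rw [if_neg (by omega), if_neg (by omega), if_neg (by omega), if_neg (by omega),
            if_neg (by simp), if_neg (by omega), if_pos (by omega)]
          congr 1; ring
        · unfold natc
          have e1 : D.m y = D.a (y + 1) := md_lo (by omega)
          have e2 := below (y + 1) (by omega) (by omega)
          rw [if_neg (by omega), if_neg (by omega), if_pos (by omega)]
          exact l2 y (by omega) (by omega)
      · unfold natc
        have e1 : D.m y = D.a (y + 1) := md_lo (by omega)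
        have e2 := below (y + 1) (by omega) (by omega)
        rw [if_neg (by omega), if_neg (by omega), if_pos (by omega)]
        exact l2 y (by omega) (by omega)
  · obtain ⟨hca, h1, h2, h3, h4, h5⟩ := h
    simp only at h1 h2 h3 h4 h5
    subst h1 h2
    have h6 := (F_x hca).2.1
    obtain ⟨l1, l2⟩ := hl.fr g hg h3 (by omega) (by omega)
    have hov := D.ov2 (g - 1) (by omega) (by omega)
    rw [sub_add_cancel] at hov
    have hd := b_rise (D := D) (y := g - 1) (by omega) (by rw [sub_add_cancel]; omega)
    rw [sub_add_cancel] at hd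
    refine ⟨D.cr (g - 2), fun x y hx hy => ?_⟩
    simp only [inn] at hx hy
    rw [abs_le] at hx hy
    simp only [hpl, inn]
    have below : ∀ Z, 0 ≤ Z → Z ≤ g - 1 → D.b Z ≤ x := fun Z z1 z2 =>
      b_below (D := D) (Y := g - 1) (by omega) (by omega) (by rw [sub_add_cancel]; omega) (by omega)
        Z z1 z2
    refine ⟨⟨fun h7 => ?_, fun h7 => ?_⟩, fun h7 => ?_⟩
    · by_contra h8
      have := below (y + sh p) h7.1 (by omega)
      have := h7.2.2.2
      omega
    · exact Fat_up hF (g := g) (by omega) (by omega) (by omega) (by omega)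
        (by have := below (g - 1) (by omega) le_rfl; omega) (by omega) (by omega)
    · rcases sh_cases p with ⟨rfl, hs⟩ | ⟨rfl, hs⟩
      · by_cases h8 : y = g - 1
        · subst h8
          unfold natc
          have e1 : D.M (g - 1) = D.b g := by rw [Md_lo (by omega), sub_add_cancel]
          have e2 : D.m (g - 1) ≤ D.a (g - 1) := m_le_a (by omega)
          have e3 := D.ab (g - 1) (by omega) (by omega)
          rw [if_neg (by omega), if_neg (by omega), if_neg (by omega), if_neg (by omega),
            if_neg (by simp), if_neg (by omega), if_neg (by omega)]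
          congr 1; ring
        · unfold natc
          have e1 : D.M y = D.b (y + 1) := Md_lo (by omega)
          have e2 := below (y + 1) (by omega) (by omega)
          have e3 := m_lt_M (D := D) (y := y) (by omega) (by omega)
          rw [if_neg (by omega), if_neg (by omega), if_neg (by omega), if_pos (by omega)]
          exact l2 y (by omega) (by omega)
      · unfold natc
        have e1 : D.M y = D.b (y + 1) := Md_lo (by omega)
        have e2 := below (y + 1) (by omega) (by omega)
        have e3 := m_lt_M (D := D) (y := y) (by omega) (by omega)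
        rw [if_neg (by omega), if_neg (by omega), if_neg (by omega), if_pos (by omega)]
        exact l2 y (by omega) (by omega)
  · obtain ⟨hca, h1, h2, h3, h4, h5⟩ := h
    simp only at h1 h2 h3 h4 h5
    subst h1 h2 h3
    refine ⟨D.cb, fun x y hx hy => ?_⟩
    simp only [inn] at hx hy
    rw [abs_le] at hx hy
    simp only [hpl, inn]
    refine ⟨⟨fun h7 => ?_, fun h7 => ?_⟩, fun h7 => ?_⟩
    · have := h7.1
      omega
    · exact Fat_up hF (g := 0) (by omega) (by omega) (by omega) (by omega) (by omega) (by omega)
        (by omega)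
    · unfold natc
      by_cases h8 : y < -1
      · rw [if_pos h8]
      · have h9 : y = -1 := by omega
        subst h9
        have e1 : D.m (-1) = D.a 0 := by rw [md_lo (by omega)]; congr 1
        have e2 : D.M (-1) = D.b 0 := by rw [Md_lo (by omega)]; congr 1
        have e3 : p = false := by
          rcases sh_cases p with ⟨h, -⟩ | ⟨h, hs⟩
          · exact h
          · omega
        subst e3
        rw [if_neg (by omega), if_neg (by omega), if_neg (by omega), if_neg (by omega),
          if_neg (by simp), if_pos rfl]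
  · obtain ⟨hca, h1, h2, h3, h4, h5⟩ := h
    simp only at h1 h2 h3 h4 h5
    subst h1 h2
    have h6 := (C_x hca).1
    obtain ⟨l1, l2⟩ := hl.ul g hg (by omega) h3 (by omega)
    have hov := D.ov2 (g - 1) (by omega) (by omega)
    rw [sub_add_cancel] at hov
    have hd := a_rise (D := D) (y := g - 1) (by omega) (by rw [sub_add_cancel]; omega)
    rw [sub_add_cancel] at hd
    have hab := D.ab g (by omega) (by omega)
    refine ⟨D.cl g, fun x y hx hy => ?_⟩
    simp only [inn] at hx hy
    rw [abs_le] at hx hy
    simp only [hpl, inn]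
    have above : ∀ Z, g ≤ Z → Z < D.h → x < D.a Z := fun Z z1 z2 =>
      a_above (D := D) (Y := g) (by omega) (by omega) (by omega) (by omega) Z z1 z2
    refine ⟨⟨fun h7 => ?_, fun h7 => ?_⟩, fun h7 => ?_⟩
    · by_contra h8
      have := above (y + sh p) (by omega) h7.2.1
      have := h7.2.2.1
      omega
    · exact Fat_down hF (g := g) (by omega) (by omega) (by omega) (by omega)
        (by have := above g le_rfl (by omega); omega) (by omega) (by omega)
    · rcases sh_cases p with ⟨rfl, hs⟩ | ⟨rfl, hs⟩
      · unfold natc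
        have e1 : D.m y = D.a y := md_hi (by omega)
        have e2 := above y (by omega) (by omega)
        rw [if_neg (by omega), if_neg (by omega), if_pos (by omega)]
        exact l2 y (by omega) (by omega)
      · by_cases h8 : y = g - 1
        · subst h8
          unfold natc
          have e1 : D.m (g - 1) = D.a (g - 1) := md_hi (by omega)
          have e2 : D.b g ≤ D.M (g - 1) := by
            have := b_le_M' (D := D) (y := g - 1) (by omega)
            rwa [sub_add_cancel] at this
          rw [if_neg (by omega), if_neg (by omega), if_neg (by omega), if_neg (by omega),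
            if_pos rfl, if_neg (by omega), if_pos (by rw [sub_add_cancel]; omega), sub_add_cancel]
        · unfold natc
          have e1 : D.m y = D.a y := md_hi (by omega)
          have e2 := above y (by omega) (by omega)
          rw [if_neg (by omega), if_neg (by omega), if_pos (by omega)]
          exact l2 y (by omega) (by omega)
  · obtain ⟨hca, h1, h2, h3, h4, h5⟩ := h
    simp only at h1 h2 h3 h4 h5
    subst h1 h2
    have h6 := (C_x hca).1
    obtain ⟨l1, l2⟩ := hl.ur g hg (by omega) h3 (by omega)
    have hov := D.ov1 (g - 1) (by omega) (by omega)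
    rw [sub_add_cancel] at hov
    have hd := b_drop (D := D) (y := g - 1) (by omega) (by rw [sub_add_cancel]; omega)
    have hab := D.ab g (by omega) (by omega)
    refine ⟨D.cr g, fun x y hx hy => ?_⟩
    simp only [inn] at hx hy
    rw [abs_le] at hx hy
    simp only [hpl, inn]
    have above : ∀ Z, g ≤ Z → Z < D.h → D.b Z ≤ x := fun Z z1 z2 =>
      b_above (D := D) (Y := g) (by omega) (by omega) (by omega) (by omega) Z z1 z2
    refine ⟨⟨fun h7 => ?_, fun h7 => ?_⟩, fun h7 => ?_⟩
    · by_contra h8
      have := above (y + sh p) (by omega) h7.2.1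
      have := h7.2.2.2
      omega
    · exact Fat_down hF (g := g) (by omega) (by omega) (by omega) (by omega)
        (by have := above g le_rfl (by omega); omega) (by omega) (by omega)
    · rcases sh_cases p with ⟨rfl, hs⟩ | ⟨rfl, hs⟩
      · unfold natc
        have e1 : D.M y = D.b y := Md_hi (by omega)
        have e2 := above y (by omega) (by omega)
        have e3 := m_lt_M (D := D) (y := y) (by omega) (by omega)
        rw [if_neg (by omega), if_neg (by omega), if_neg (by omega), if_pos (by omega)]
        exact l2 y (by omega) (by omega)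
      · by_cases h8 : y = g - 1
        · subst h8
          unfold natc
          have e1 : D.M (g - 1) = D.b (g - 1) := Md_hi (by omega)
          have e2 : D.m (g - 1) ≤ D.a g := by
            have := m_le_a' (D := D) (y := g - 1) (by omega)
            rwa [sub_add_cancel] at this
          rw [if_neg (by omega), if_neg (by omega), if_neg (by omega), if_neg (by omega),
            if_pos rfl, if_neg (by omega), if_neg (by rw [sub_add_cancel]; omega), sub_add_cancel]
        · unfold natc
          have e1 : D.M y = D.b y := Md_hi (by omega)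
          have e2 := above y (by omega) (by omega)
          have e3 := m_lt_M (D := D) (y := y) (by omega) (by omega)
          rw [if_neg (by omega), if_neg (by omega), if_neg (by omega), if_pos (by omega)]
          exact l2 y (by omega) (by omega)
  · obtain ⟨hca, h1, h2, h3, h4, h5⟩ := h
    simp only at h1 h2 h3 h4 h5
    subst h1 h2 h3
    refine ⟨D.ct, fun x y hx hy => ?_⟩
    simp only [inn] at hx hy
    rw [abs_le] at hx hy
    simp only [hpl, inn]
    refine ⟨⟨fun h7 => ?_, fun h7 => ?_⟩, fun h7 => ?_⟩
    · have := h7.2.1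
      omega
    · exact Fat_down hF (g := D.h) (by omega) (by omega) (by omega) (by omega) (by omega) (by omega)
        (by omega)
    · unfold natc
      by_cases h8 : D.h ≤ y
      · rw [if_neg (by omega), if_pos h8]
      · have h9 : y = D.h - 1 := by omega
        subst h9
        have e1 : D.m (D.h - 1) = D.a (D.h - 1) := md_hi (by omega)
        have e2 : D.M (D.h - 1) = D.b (D.h - 1) := Md_hi (by omega)
        have e3 : p = true := by
          rcases sh_cases p with ⟨h, hs⟩ | ⟨h, -⟩
          · omega
          · exact h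
        subst e3
        rw [if_neg (by omega), if_neg (by omega), if_neg (by omega), if_neg (by omega),
          if_pos rfl, if_pos rfl]

end Pool.Agent.H20.Sp
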