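import Pool.Agent.H20.Sp.BoxF
import Pool.Agent.H13.Sp.Bridge

set_option autoImplicit false
open Finset

/-!
# The segments of ties lie in one arc

`tieP_kt` : ties in the form of helper13. `bA_kt` : their inner end. `fmA_seg` : all ties of a segment
belong to the same arc.
-/

namespace Pool.Agent.H20.Sp

open Pool.Agent.H75.Perc hiding ph
open Pool.Agent.H75.TwoArm Pool.Agent.Q1 Pool.Agent.H33.Q1
open Pool.Agent.H75.Four Pool.Agent.H69.Q1
open Pool.Agent.H46.Sp (Win Out nxt nxt_le nxt_mem le_nxt not_lev)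
open Pool.Agent.H46.Sp.Win
open Pool.Agent.H74.Win
open Pool.Agent.H42.Sp (Sd Ix kt rt kt_odd rt_even kt_Tg rt_Tg)
open Pool.Agent.H13.R45 (gp)
open Pool.Agent.H39.Q1 (TF mem_TF)
open Pool.Agent.H13.Sp (TieP TA fmA bA bt gt gt_kt kt_gt KA_iff mem_TA exists_tie CA_iff arc ps colp rep
  rep_adj dr colp_ps)

variable {D : Win} {p : Bool} {j : ℤ} {G : Finset ℤ} {g c s0 : ℤ}

/-- the colour of a tie -/
def kc (k : Ix) : Bool := decide ((k.2.1 + k.2.2) % 2 = 1)

lemma tieP_kt {k : Ix} (h : CA D p k) : TieP D p k.1 (kc k) (kt k).1 (kt k).2 := by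
  refine ⟨kt_odd k, ?_, ?_⟩
  · show Pool.Agent.H13.Sp.CA D p (k.1, gt k.1 (decide ((k.2.1 + k.2.2) % 2 = 1)) (kt k))
    rw [gt_kt]
    exact CA_iff.2 h
  · show ((gt k.1 (decide ((k.2.1 + k.2.2) % 2 = 1)) (kt k)).1 +
      (gt k.1 (decide ((k.2.1 + k.2.2) % 2 = 1)) (kt k)).2) % 2 = 1 ↔ _
    rw [gt_kt]
    unfold kc
    rw [decide_eq_true_eq]

lemma bt_kt (k : Ix) : bt k.1 (kc k) (kt k) = inn k := by
  obtain ⟨s, x, y⟩ := k
  unfold kc
  by_cases h : (x + y) % 2 = 1
  · cases s <;> simp [bt, kt, inn, h]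
  · cases s <;> simp [bt, kt, inn, h]

/-- the inner end -/
lemma bA_kt {k : Ix} (h : CA D p k) : bA D p (lt (kt k)) = gp (inn k) := by
  rw [← bt_kt k]
  exact (tieP_kt h).b

/-- the ties of a family -/
lemma tie_of_TF {i : ℤ} {e : ℤ × ℤ} (he : e ∈ TF (TA D p) (fmA D p s0) i) :
    ∃ k, CA D p k ∧ lt (kt k) = e := by
  obtain ⟨u, v, s, c, rfl, h⟩ := exists_tie (mem_TF.1 he).1
  exact ⟨(s, gt s c (u, v)), CA_iff.1 h.2.1, by rw [kt_gt h.odd]⟩

lemma ca_mem {k : Ix} (h : CA D p k) : lt (kt k) ∈ TA D p := by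
  have h2 : lt ((kt k).1, (kt k).2) ∈ TA D p := mem_TA.2 ⟨_, _, tieP_kt h⟩
  exact h2

/-- the arc of a tie -/
lemma fmA_kt {k : Ix} (h : CA D p k) : fmA D p s0 (lt (kt k)) =
    rep D s0 (ps D p ((kt k).1 - (dr k.1).1) ((kt k).2 - (dr k.1).2)) := (tieP_kt h).fm

/-- the arc of consecutive positions of one colour -/
lemma rep_const (hcut : colp D (s0 - 1) ≠ colp D s0) {s : ℤ} (n : ℕ)
    (h : ∀ t, s ≤ t → t < s + n → colp D t = colp D (t + 1)) : rep D s0 (s + n) = rep D s0 s := by
  induction n with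
  | zero => simp
  | succ n ih =>
    push_cast at h ⊢
    rw [← add_assoc, rep_adj hcut (h (s + n) (by omega) (by omega))]
    exact ih fun t h1 h2 => h t h1 (by omega)

lemma rep_const' (hcut : colp D (s0 - 1) ≠ colp D s0) {s t a b : ℤ} (hs : a ≤ s ∧ s ≤ b)
    (ht : a ≤ t ∧ t ≤ b) (h : ∀ t, a ≤ t → t < b → colp D t = colp D (t + 1)) :
    rep D s0 s = rep D s0 t := by
  have key : ∀ s, a ≤ s → s ≤ b → rep D s0 s = rep D s0 a := by
    intro s h1 h2
    have := rep_const (s0 := s0) hcut (s := a) (s - a).toNat (fun t h3 h4 => h t h3 (by omega))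
    rwa [Int.toNat_of_nonneg (by omega), show a + (s - a) = s by ring] at this
  rw [key s hs.1 hs.2, key t ht.1 ht.2]

lemma colp_row {s : ℤ} (h1 : 1 ≤ s) (h2 : s ≤ D.h + 1) : colp D s = D.cr (s - 2) := by
  unfold colp
  have := D.hh
  rw [Int.emod_eq_of_lt (by omega) (by unfold Pool.Agent.H13.Sp.nP; omega)]
  exact Pool.Agent.H13.Sp.colq_cr h1 h2

lemma colp_row' {s : ℤ} (h1 : D.h + 3 ≤ s) (h2 : s ≤ 2 * D.h + 3) :
    colp D s = D.cl (2 * D.h + 2 - s) := by
  unfold colp
  have := D.hh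
  rw [Int.emod_eq_of_lt (by omega) (by unfold Pool.Agent.H13.Sp.nP; omega)]
  exact Pool.Agent.H13.Sp.colq_cl h1

/-- a kept tile is near its tie point -/
lemma kt_cases (k : Ix) : match k.1 with
    | .L => (kt k).1 = k.2.1 ∧ ((kt k).2 = k.2.2 ∨ (kt k).2 = k.2.2 - 1)
    | .R => (kt k).1 = k.2.1 - 1 ∧ ((kt k).2 = k.2.2 ∨ (kt k).2 = k.2.2 - 1)
    | .F => (kt k).2 = k.2.2 ∧ ((kt k).1 = k.2.1 ∨ (kt k).1 = k.2.1 - 1)
    | .C => (kt k).2 = k.2.2 - 1 ∧ ((kt k).1 = k.2.1 ∨ (kt k).1 = k.2.1 - 1) := by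
  obtain ⟨s, x, y⟩ := k
  cases s <;> (unfold kt; simp only; split_ifs <;> simp)

/-- **The ties of one segment belong to the same arc.** -/
theorem fmA_seg (hcut : colp D (s0 - 1) ≠ colp D s0) (hG : D.Lev j G) (hc : 3 ≤ c) {i : Fin 8}
    (hg : g ∈ G) {k k' : Ix} (h : Sg D p G c i g k) (h' : Sg D p G c i g k') :
    fmA D p s0 (lt (kt k)) = fmA D p s0 (lt (kt k')) := by
  rw [fmA_kt h.ca, fmA_kt h'.ca]
  have lo := hG.lo g hg
  have hi := hG.hi g hg
  have hs := sh_nonneg p
  have hs1 := sh_le p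
  have hhh := D.hh
  have q := kt_cases k
  have q' := kt_cases k'
  obtain ⟨s, x, y⟩ := k
  obtain ⟨s', x', y'⟩ := k'
  fin_cases i
  · obtain ⟨hca, h1, h2, h3, h4⟩ := h
    obtain ⟨hca', h1', h2', h3', h4'⟩ := h'
    simp only at h1 h2 h3 h4 h1' h2' h3' h4'
    subst h1 h2 h1' h2'
    simp only at q q'
    have hn := hG.nxt_h (g := g) (by omega)
    have key : ∀ u v, u = D.a g - 2 → g ≤ v → v + 2 ≤ nxt G g → ps D p u v = 2 * D.h + 2 - v := by
      intro u v hu h5 h6
      have := hG.m_eq hg (y := v) h5 (by omega)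
      unfold ps
      rw [if_neg (by omega), if_neg (by omega), if_pos (by omega)]
    simp only [dr]
    rw [key _ _ (by omega) (by omega) (by omega), key _ _ (by omega) (by omega) (by omega)]
    refine rep_const' hcut (a := 2 * D.h + 2 - (nxt G g - 2)) (b := 2 * D.h + 2 - g) (by omega)
      (by omega) fun t h5 h6 => ?_
    rw [colp_row' (by omega) (by omega), colp_row' (by omega) (by omega),
      hG.cl_eq hg (y := 2 * D.h + 2 - t) (by omega) (by omega),
      hG.cl_eq hg (y := 2 * D.h + 2 - (t + 1)) (by omega) (by omega)]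
  · obtain ⟨hca, h1, h2, h3, h4⟩ := h
    obtain ⟨hca', h1', h2', h3', h4'⟩ := h'
    simp only at h1 h2 h3 h4 h1' h2' h3' h4'
    subst h1 h2 h1' h2'
    simp only at q q'
    have hn := hG.nxt_h (g := g) (by omega)
    have key : ∀ u v, u = D.b g + 1 → g ≤ v → v + 2 ≤ nxt G g → ps D p u v = v + 2 := by
      intro u v hu h5 h6
      have e1 := hG.M_eq hg (y := v) h5 (by omega)
      have e2 := m_lt_M (D := D) (y := v) (by omega) (by omega)
      unfold ps
      rw [if_neg (by omega), if_neg (by omega), if_neg (by omega), if_pos (by omega)]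
    simp only [dr]
    rw [key _ _ (by omega) (by omega) (by omega), key _ _ (by omega) (by omega) (by omega)]
    refine rep_const' hcut (a := g + 2) (b := nxt G g - 2 + 2) (by omega)
      (by omega) fun t h5 h6 => ?_
    rw [colp_row (by omega) (by omega), colp_row (by omega) (by omega),
      hG.cr_eq hg (y := t - 2) (by omega) (by omega),
      hG.cr_eq hg (y := t + 1 - 2) (by omega) (by omega)]
  · obtain ⟨hca, h1, h2, h3, h4, h5⟩ := h
    obtain ⟨hca', h1', h2', h3', h4', h5'⟩ := h'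
    simp only at h1 h2 h3 h4 h5 h1' h2' h3' h4' h5'
    subst h1 h2 h1' h2'
    simp only at q q'
    have h6 := (F_x hca).2.1
    have hd := a_drop (D := D) (y := g - 1) (by omega) (by omega) (by rw [sub_add_cancel]; omega)
    rw [sub_add_cancel] at hd
    have key : ∀ u, u + 1 ≤ D.a (g - 1) → ps D p u (g - 2 - sh p) =
        if g - 2 - sh p < -1 then 0 else 2 * D.h + 2 - (g - 2 - sh p) := by
      intro u hu
      unfold ps
      by_cases h8 : g - 2 - sh p < -1
      · rw [if_pos h8, if_pos h8]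
      · have e1 : D.m (g - 2 - sh p) = D.a (g - 2 - sh p + 1) := md_lo (by omega)
        have e2 := a_anti (D := D) (y := g - 2 - sh p + 1) (z := g - 1) (by omega) (by omega)
          (by omega)
        rw [if_neg (by omega), if_neg (by omega), if_pos (by omega), if_neg h8]
    simp only [dr]
    rw [q.1, q'.1, show g - 1 - sh p - 1 = g - 2 - sh p by ring, key _ (by omega), key _ (by omega)]
  · obtain ⟨hca, h1, h2, h3, h4, h5⟩ := h
    obtain ⟨hca', h1', h2', h3', h4', h5'⟩ := h'
    simp only at h1 h2 h3 h4 h5 h1' h2' h3' h4' h5'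
    subst h1 h2 h1' h2'
    simp only at q q'
    have h6 := (F_x hca).2.1
    have hd := b_rise (D := D) (y := g - 1) (by omega) (by rw [sub_add_cancel]; omega)
    rw [sub_add_cancel] at hd
    have key : ∀ u, D.b (g - 1) ≤ u → ps D p u (g - 2 - sh p) =
        if g - 2 - sh p < -1 then 0 else g - 2 - sh p + 2 := by
      intro u hu
      unfold ps
      by_cases h8 : g - 2 - sh p < -1
      · rw [if_pos h8, if_pos h8]
      · have e1 : D.M (g - 2 - sh p) = D.b (g - 2 - sh p + 1) := Md_lo (by omega)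
        have e2 := b_mono (D := D) (y := g - 2 - sh p + 1) (z := g - 1) (by omega) (by omega)
          (by omega)
        have e3 := m_lt_M (D := D) (y := g - 2 - sh p) (by omega) (by omega)
        rw [if_neg (by omega), if_neg (by omega), if_neg (by omega), if_pos (by omega), if_neg h8]
    simp only [dr]
    rw [q.1, q'.1, show g - 1 - sh p - 1 = g - 2 - sh p by ring, key _ (by omega), key _ (by omega)]
  · obtain ⟨hca, h1, h2, h3, h4, h5⟩ := h
    obtain ⟨hca', h1', h2', h3', h4', h5'⟩ := h'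
    simp only at h1 h2 h3 h4 h5 h1' h2' h3' h4' h5'
    subst h1 h2 h1' h2'
    simp only at q q'
    have key : ∀ u, ps D p u (g - 2 - sh p) = 0 := by
      intro u
      unfold ps
      rw [if_pos (by omega)]
    simp only [dr]
    rw [q.1, q'.1, show g - 1 - sh p - 1 = g - 2 - sh p by ring, key, key]
  · obtain ⟨hca, h1, h2, h3, h4, h5⟩ := h
    obtain ⟨hca', h1', h2', h3', h4', h5'⟩ := h'
    simp only at h1 h2 h3 h4 h5 h1' h2' h3' h4' h5'
    subst h1 h2 h1' h2'
    simp only at q q'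
    have h6 := (C_x hca).1
    have hd := a_rise (D := D) (y := g - 1) (by omega) (by rw [sub_add_cancel]; omega)
    rw [sub_add_cancel] at hd
    have key : ∀ u, u + 1 ≤ D.a g → ps D p u (g + 1 - sh p) =
        if D.h ≤ g + 1 - sh p then D.h + 2 else 2 * D.h + 2 - (g + 1 - sh p) := by
      intro u hu
      unfold ps
      by_cases h8 : D.h ≤ g + 1 - sh p
      · rw [if_neg (by omega), if_pos h8, if_pos h8]
      · have e1 : D.m (g + 1 - sh p) = D.a (g + 1 - sh p) := md_hi (by omega)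
        have e2 := a_mono (D := D) (y := g) (z := g + 1 - sh p) (by omega) (by omega)
          (by omega)
        rw [if_neg (by omega), if_neg h8, if_pos (by omega), if_neg h8]
    simp only [dr]
    rw [q.1, q'.1, show g + 1 - sh p - 1 - -1 = g + 1 - sh p by ring, key _ (by omega),
      key _ (by omega)]
  · obtain ⟨hca, h1, h2, h3, h4, h5⟩ := h
    obtain ⟨hca', h1', h2', h3', h4', h5'⟩ := h'
    simp only at h1 h2 h3 h4 h5 h1' h2' h3' h4' h5'
    subst h1 h2 h1' h2'
    simp only at q q'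
    have h6 := (C_x hca).1
    have hd := b_drop (D := D) (y := g - 1) (by omega) (by rw [sub_add_cancel]; omega)
    have key : ∀ u, D.b g ≤ u → ps D p u (g + 1 - sh p) =
        if D.h ≤ g + 1 - sh p then D.h + 2 else g + 1 - sh p + 2 := by
      intro u hu
      unfold ps
      by_cases h8 : D.h ≤ g + 1 - sh p
      · rw [if_neg (by omega), if_pos h8, if_pos h8]
      · have e1 : D.M (g + 1 - sh p) = D.b (g + 1 - sh p) := Md_hi (by omega)
        have e2 := b_anti (D := D) (y := g) (z := g + 1 - sh p) (by omega) (by omega)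
          (by omega)
        have e3 := m_lt_M (D := D) (y := g + 1 - sh p) (by omega) (by omega)
        rw [if_neg (by omega), if_neg h8, if_neg (by omega), if_pos (by omega), if_neg h8]
    simp only [dr]
    rw [q.1, q'.1, show g + 1 - sh p - 1 - -1 = g + 1 - sh p by ring, key _ (by omega),
      key _ (by omega)]
  · obtain ⟨hca, h1, h2, h3, h4, h5⟩ := h
    obtain ⟨hca', h1', h2', h3', h4', h5'⟩ := h'
    simp only at h1 h2 h3 h4 h5 h1' h2' h3' h4' h5'
    subst h1 h2 h1' h2'
    simp only at q q'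
    have key : ∀ u, ps D p u (g + 1 - sh p) = D.h + 2 := by
      intro u
      unfold ps
      rw [if_neg (by omega), if_pos (by omega)]
    simp only [dr]
    rw [q.1, q'.1, show g + 1 - sh p - 1 - -1 = g + 1 - sh p by ring, key, key]

end Pool.Agent.H20.Sp
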