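import Pool.Agent.H20.Sp.BoxF
import Pool.Agent.H74.Win.RingY

set_option autoImplicit false
open Finset

/-!
# The number of frozen tiles of the tied form of a natural window

`frz_cover` : every frozen tile is within `3` of an end of a segment. `card_FZ` : there are at most
`70 |G|` frozen tiles.
-/

namespace Pool.Agent.H20.Sp

open Pool.Agent.H75.Perc hiding ph
open Pool.Agent.H75.TwoArm Pool.Agent.Q1 Pool.Agent.H33.Q1
open Pool.Agent.H75.Four Pool.Agent.H69.Q1
open Pool.Agent.H46.Sp (Win Out nxt nxt_le nxt_mem le_nxt not_lev)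
open Pool.Agent.H46.Sp.Win
open Pool.Agent.H74.Win
open Pool.Agent.H42.Sp (Sd Ix kt rt kt_odd rt_even kt_Tg rt_Tg)

variable {D : Win} {p : Bool} {j : ℤ} {G : Finset ℤ} {g c n x y r : ℤ}

lemma par_or (hr : r = 0 ∨ r = 1) (x y : ℤ) : (x + y) % 2 = r ∨ (x + 1 + y) % 2 = r := by omega

lemma TT_F (hr : r = 0 ∨ r = 1) (h : ∀ u, u = x ∨ u = x + 1 → (u + y) % 2 = r →
    CA D p (.F, (u, y))) : TT D p x y := by
  rcases par_or hr x y with h1 | h1
  · refine ⟨_, h x (Or.inl rfl) h1, ?_⟩
    unfold kt rt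
    simp only
    split_ifs <;> simp
  · refine ⟨_, h (x + 1) (Or.inr rfl) h1, ?_⟩
    unfold kt rt
    simp only
    split_ifs <;> simp

lemma TT_C (hr : r = 0 ∨ r = 1) (h : ∀ u, u = x ∨ u = x + 1 → (u + (y + 1)) % 2 = r →
    CA D p (.C, (u, y + 1))) : TT D p x y := by
  rcases par_or hr x (y + 1) with h1 | h1
  · refine ⟨_, h x (Or.inl rfl) h1, ?_⟩
    unfold kt rt
    simp only
    split_ifs <;> simp
  · refine ⟨_, h (x + 1) (Or.inr rfl) h1, ?_⟩
    unfold kt rt
    simp only
    split_ifs <;> simp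

lemma TT_L (hr : r = 0 ∨ r = 1) (h : ∀ v, v = y ∨ v = y + 1 → (x + v) % 2 = r →
    CA D p (.L, (x, v))) : TT D p x y := by
  rcases par_or hr y x with h1 | h1
  · refine ⟨_, h y (Or.inl rfl) (by rw [add_comm]; exact h1), ?_⟩
    unfold kt rt
    simp only
    split_ifs <;> simp
  · refine ⟨_, h (y + 1) (Or.inr rfl) (by rw [add_comm]; exact h1), ?_⟩
    unfold kt rt
    simp only
    split_ifs <;> simp

lemma TT_R (hr : r = 0 ∨ r = 1) (h : ∀ v, v = y ∨ v = y + 1 → (x + 1 + v) % 2 = r →
    CA D p (.R, (x + 1, v))) : TT D p x y := by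
  rcases par_or hr y (x + 1) with h1 | h1
  · refine ⟨_, h y (Or.inl rfl) (by rw [add_comm]; exact h1), ?_⟩
    unfold kt rt
    simp only
    split_ifs <;> simp
  · refine ⟨_, h (y + 1) (Or.inr rfl) (by rw [add_comm]; exact h1), ?_⟩
    unfold kt rt
    simp only
    split_ifs <;> simp

/-- the exceptional tiles of the ring -/
def frPt (D : Win) (p : Bool) (e : Fin 10) (g i : ℤ) : ℤ × ℤ :=
  match e with
  | 0 => (D.a (g + i) - 1, g + i - sh p)
  | 1 => (D.b (g + i), g + i - sh p)
  | 2 => (D.a g + i, g - 1 - sh p)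
  | 3 => (D.a (g - 1) + i, g - 1 - sh p)
  | 4 => (D.b (g - 1) + i, g - 1 - sh p)
  | 5 => (D.b g + i, g - 1 - sh p)
  | 6 => (D.a (g - 1) + i, g - sh p)
  | 7 => (D.a g + i, g - sh p)
  | 8 => (D.b g + i, g - sh p)
  | 9 => (D.b (g - 1) + i, g - sh p)

lemma bool_par (b : Bool) : (if b = true then (1 : ℤ) else 0) = 0 ∨ (if b = true then (1 : ℤ) else 0) = 1 := by
  cases b <;> simp

/-- the end of the row of a near tile -/
lemma frz_side (hG : D.Lev j G) (h : ¬ TT D p x y) (h0 : 0 ≤ y + sh p) (h1 : y + sh p < D.h)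
    (hx : x = D.a (y + sh p) - 1 ∨ x = D.b (y + sh p)) :
    ∃ e : Fin 10, ∃ g ∈ G, ∃ i, -3 ≤ i ∧ i ≤ 3 ∧ (x, y) = frPt D p e g i := by
  obtain ⟨g, hg, h4, h5⟩ := exists_lev hG h0 h1
  have h6 := hG.ab_eq hg h4 h5
  by_cases c1 : y + sh p ≤ g + 2
  · rcases hx with hx | hx
    · refine ⟨0, g, hg, y + sh p - g, by omega, by omega, ?_⟩
      unfold frPt
      simp only
      rw [show g + (y + sh p - g) = y + sh p by ring, hx, add_sub_cancel_right]
    · refine ⟨1, g, hg, y + sh p - g, by omega, by omega, ?_⟩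
      unfold frPt
      simp only
      rw [show g + (y + sh p - g) = y + sh p by ring, hx, add_sub_cancel_right]
  by_cases c2 : nxt G g ≤ y + sh p + 3
  · rcases hx with hx | hx
    · refine ⟨0, nxt G g, nxt_mem (by omega), y + sh p - nxt G g, by omega, by omega, ?_⟩
      unfold frPt
      simp only
      rw [show nxt G g + (y + sh p - nxt G g) = y + sh p by ring, hx, add_sub_cancel_right]
    · refine ⟨1, nxt G g, nxt_mem (by omega), y + sh p - nxt G g, by omega, by omega, ?_⟩
      unfold frPt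
      simp only
      rw [show nxt G g + (y + sh p - nxt G g) = y + sh p by ring, hx, add_sub_cancel_right]
  exfalso
  apply h
  rcases hx with hx | hx
  · refine TT_L (bool_par (D.cl g)) fun v hv h7 => ?_
    rw [L_iff hG hg (by omega) (by omega)]
    exact ⟨by omega, h7⟩
  · refine TT_R (bool_par (D.cr g)) fun v hv h7 => ?_
    rw [R_iff hG hg (by omega) (by omega)]
    exact ⟨by omega, h7⟩

/-- **Frozen tiles are near the ends of the segments.** -/
theorem frz_cover (hG : D.Lev j G) (hl : Ldg D G n) (hn : 5 ≤ n) (hR : RG D p x y)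
    (h : ¬ TT D p x y) : ∃ e : Fin 10, ∃ g ∈ G, ∃ i, -3 ≤ i ∧ i ≤ 3 ∧ (x, y) = frPt D p e g i := by
  obtain ⟨hP, x', y', k1, k2, k3, k4, k5, k6, k7, k8⟩ := hR
  have hs := sh_nonneg p
  have hs1 := sh_le p
  have hhh := D.hh
  have hP0 := D.P0
  have hP1 := D.P1
  have hQ0 := D.Q0
  have hQ1 := D.Q1
  by_cases c0 : 0 ≤ y + sh p
  swap
  · -- below the bottom
    have e1 : y' + sh p = 0 := by omega
    have e2 : y = -1 - sh p := by omega
    subst e2
    rw [e1] at k7 k8
    by_cases c1 : x ≤ D.a 0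
    · exact ⟨2, 0, hG.zero, x - D.a 0, by omega, by omega, by
        unfold frPt; simp only [Prod.mk.injEq, and_true]; omega⟩
    by_cases c2 : D.b 0 ≤ x + 1
    · exact ⟨5, 0, hG.zero, x - D.b 0, by omega, by omega, by
        unfold frPt; simp only [Prod.mk.injEq, and_true]; omega⟩
    exfalso
    refine h (TT_F (bool_par D.cb) fun u hu h7 => ?_)
    rw [Fb_iff (by omega) (by omega)]
    exact h7
  by_cases c1 : y + sh p < D.h
  swap
  · -- above the top
    have e1 : y' + sh p = D.h - 1 := by omega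
    have e2 : y = D.h - sh p := by omega
    subst e2
    rw [e1] at k7 k8
    by_cases c1 : x ≤ D.a (D.h - 1)
    · exact ⟨6, D.h, hG.h, x - D.a (D.h - 1), by omega, by omega, by
        unfold frPt; simp only [Prod.mk.injEq, and_true]; omega⟩
    by_cases c2 : D.b (D.h - 1) ≤ x + 1
    · exact ⟨9, D.h, hG.h, x - D.b (D.h - 1), by omega, by omega, by
        unfold frPt; simp only [Prod.mk.injEq, and_true]; omega⟩
    exfalso
    refine h (TT_C (bool_par D.ct) fun u hu h7 => ?_)
    rw [show D.h - sh p + 1 = D.h + 1 - sh p by ring] at h7 ⊢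
    rw [Ct_iff (by omega) (by omega)]
    exact h7
  by_cases c2 : x = D.a (y + sh p) - 1 ∨ x = D.b (y + sh p)
  · exact frz_side hG h c0 c1 c2
  push Not at c2
  have hxx : x + 2 ≤ D.a (y + sh p) ∨ D.b (y + sh p) + 1 ≤ x := by
    by_contra hc
    exact hP ⟨c0, c1, by omega, by omega⟩
  have hne : y' ≠ y := by
    rintro rfl
    omega
  rcases (by omega : y' = y + 1 ∨ y' = y - 1) with rfl | rfl
  · -- a row below a ledge
    set g := y + sh p + 1 with hgd
    have e3 : y + 1 + sh p = g := by omega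
    rw [e3] at k7 k8 k6
    have e4 : y + sh p = g - 1 := by omega
    rw [e4] at hxx c2 c0 c1
    have e5 : y = g - 1 - sh p := by omega
    have hg : g ∈ G := by
      by_contra hc
      have h1 := hG.ab g (by omega) (by omega) hc
      have := D.ab g (by omega) (by omega)
      omega
    have hab := D.ab g (by omega) (by omega)
    rw [e5] at h ⊢
    clear_value g
    rcases hxx with hxx | hxx
    · obtain ⟨l1, l2⟩ := hl.fl g hg (by omega) (by omega) (by omega)
      by_cases d1 : x ≤ D.a g
      · exact ⟨2, g, hg, x - D.a g, by omega, by omega, by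
          unfold frPt; simp only [Prod.mk.injEq, and_true]; omega⟩
      by_cases d2 : D.a (g - 1) ≤ x + 2
      · exact ⟨3, g, hg, x - D.a (g - 1), by omega, by omega, by
          unfold frPt; simp only [Prod.mk.injEq, and_true]; omega⟩
      exfalso
      refine h (TT_F (bool_par (D.cl (g - 2))) fun u hu h7 => ?_)
      rw [Fl_iff (by omega) (by omega) (by omega) (by omega)]
      refine ⟨?_, h7⟩
      unfold fl
      rw [if_neg (show ¬ g = 1 by omega), l2 (g - 3) (by omega) (by omega), ite_self]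
    · obtain ⟨l1, l2⟩ := hl.fr g hg (by omega) (by omega) (by omega)
      by_cases d1 : x ≤ D.b (g - 1) + 1
      · exact ⟨4, g, hg, x - D.b (g - 1), by omega, by omega, by
          unfold frPt; simp only [Prod.mk.injEq, and_true]; omega⟩
      by_cases d2 : D.b g ≤ x + 1
      · exact ⟨5, g, hg, x - D.b g, by omega, by omega, by
          unfold frPt; simp only [Prod.mk.injEq, and_true]; omega⟩
      exfalso
      refine h (TT_F (bool_par (D.cr (g - 2))) fun u hu h7 => ?_)
      rw [Fr_iff (by omega) (by omega) (by omega) (by omega)]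
      refine ⟨?_, h7⟩
      unfold fl
      rw [if_neg (show ¬ g = 1 by omega), l2 (g - 3) (by omega) (by omega), ite_self]
  · -- a row above a ledge
    set g := y + sh p with hgd
    have e3 : y - 1 + sh p = g - 1 := by omega
    rw [e3] at k7 k8 k5
    have e5 : y = g - sh p := by omega
    have hg : g ∈ G := by
      by_contra hc
      have h1 := hG.ab g (by omega) (by omega) hc
      have := D.ab g (by omega) (by omega)
      omega
    have hab := D.ab (g - 1) (by omega) (by omega)
    rw [e5] at h ⊢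
    clear_value g
    rcases hxx with hxx | hxx
    · obtain ⟨l1, l2⟩ := hl.ul g hg (by omega) (by omega) (by omega)
      by_cases d1 : x ≤ D.a (g - 1)
      · exact ⟨6, g, hg, x - D.a (g - 1), by omega, by omega, by
          unfold frPt; simp only [Prod.mk.injEq, and_true]; omega⟩
      by_cases d2 : D.a g ≤ x + 2
      · exact ⟨7, g, hg, x - D.a g, by omega, by omega, by
          unfold frPt; simp only [Prod.mk.injEq, and_true]; omega⟩
      exfalso
      refine h (TT_C (bool_par (D.cl g)) fun u hu h7 => ?_)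
      rw [show g - sh p + 1 = g + 1 - sh p by ring] at h7 ⊢
      rw [Cl_iff (by omega) (by omega) (by omega) (by omega)]
      refine ⟨?_, h7⟩
      unfold cu
      rw [if_neg (show ¬ g + 1 = D.h by omega), l2 (g + 1) (by omega) (by omega), ite_self]
    · obtain ⟨l1, l2⟩ := hl.ur g hg (by omega) (by omega) (by omega)
      by_cases d1 : x ≤ D.b g + 1
      · exact ⟨8, g, hg, x - D.b g, by omega, by omega, by
          unfold frPt; simp only [Prod.mk.injEq, and_true]; omega⟩
      by_cases d2 : D.b (g - 1) ≤ x + 1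
      · exact ⟨9, g, hg, x - D.b (g - 1), by omega, by omega, by
          unfold frPt; simp only [Prod.mk.injEq, and_true]; omega⟩
      exfalso
      refine h (TT_C (bool_par (D.cr g)) fun u hu h7 => ?_)
      rw [show g - sh p + 1 = g + 1 - sh p by ring] at h7 ⊢
      rw [Cr_iff (by omega) (by omega) (by omega) (by omega)]
      refine ⟨?_, h7⟩
      unfold cu
      rw [if_neg (show ¬ g + 1 = D.h by omega), l2 (g + 1) (by omega) (by omega), ite_self]

/-- **The number of frozen tiles.** -/
theorem card_FZ (hG : D.Lev j G) (hl : Ldg D G n) (hn : 5 ≤ n) : (FZ D p).card ≤ 70 * G.card := by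
  classical
  have h1 : FZ D p ⊆ ((univ : Finset (Fin 10)) ×ˢ (G ×ˢ Icc (-3 : ℤ) 3)).image
      fun t => lt (frPt D p t.1 t.2.1 t.2.2) := by
    intro e he
    obtain ⟨x, y, rfl⟩ := Pool.Agent.H74.R45.exists_lt (odd_TB he)
    obtain ⟨h2, h3⟩ := mem_FZ.1 he
    obtain ⟨e, g, hg, i, hi, hi', h4⟩ := frz_cover hG hl hn h2 h3
    refine mem_image.2 ⟨(e, g, i), ?_, by rw [← h4]⟩
    exact mem_product.2 ⟨mem_univ _, mem_product.2 ⟨hg, Finset.mem_Icc.2 ⟨hi, hi'⟩⟩⟩
  refine (card_le_card h1).trans (card_image_le.trans (le_of_eq ?_))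
  rw [card_product, card_product, card_univ, Fintype.card_fin, Int.card_Icc]
  have h7 : (3 + 1 - -3 : ℤ).toNat = 7 := rfl
  rw [h7]
  ring

end Pool.Agent.H20.Sp
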