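import Pool.Agent.H20.Sp.BdW
import Pool.Agent.H20.Sp.Frz
import Pool.Agent.H30.Sp.LineC
import Pool.Agent.Q1.M6b.ABWdef

set_option autoImplicit false
open Finset

/-!
# The local a priori bound of the potentials of the natural windows

`lbw_of` : `LBW S η` for every class of natural windows at the scale `R` (`WinX`).
-/

namespace Pool.Agent.H20.Sp

open Pool.Agent.H75.Perc hiding ph
open Pool.Agent.H75.TwoArm Pool.Agent.Q1 Pool.Agent.H33.Q1 Pool.Agent.Q1.M6b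
open Pool.Agent.H75.Four hiding ev
open Pool.Agent.H69.Q1
open Pool.Agent.H46.Sp (Win Out)
open Pool.Agent.H46.Sp.Win
open Pool.Agent.H74.Win (CA InP EN FZ OutB qs mem_EN odd_TB sh sh_nonneg sh_le fillc XA FW FW_eq PotL
  PotU)
open Pool.Agent.H42.Sp (Sd Ix kt rt)
open Pool.Agent.H13.R45 (gp ev Ag ag_he ag_ve)
open Pool.Agent.H13.Sp (TA fmA colp XA_eq FR_eq FR WA WlA LaA LBA bA oA arc rep InL Wide HasG
  Dp OnT)
open Pool.Agent.Q1.M6e (LC La Lk inc2 Ec_norm_le sumL_lk sumU_lk)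
open Pool.Agent.H30.Sp (frz frz_sub X0_XA Xh_XA sL)
open Pool.Agent.H20.Q1 (Nr near_bd near_aT rpow_small)
open Pool.Agent.H40.R45 (aT bT norm_w6_inv)
open Pool.Agent.Q1.M6b.ABW (cT Lnk PotT shT LBW)

variable {D : Win} {p : Bool} {a b c : ℂ} {j : ℤ}

lemma wal_norm {x y : ℤ} {w : ℂ} (h1 : ‖w‖ ≤ 5) (h2 : ‖1 - w‖ ≤ 5) :
    ‖wal x y w‖ ≤ 5 ∧ ‖1 - wal x y w‖ ≤ 5 := by
  unfold wal
  split_ifs
  · exact ⟨h1, h2⟩
  · exact ⟨h2, by rw [sub_sub_cancel]; exact h1⟩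

/-- the weights of the line are bounded -/
lemma qJ_norm (ha : ‖a‖ ≤ 2 ∧ ‖1 - a‖ ≤ 2) (hb : ‖b‖ ≤ 2 ∧ ‖1 - b‖ ≤ 2)
    (hc : ‖c‖ ≤ 2 ∧ ‖1 - c‖ ≤ 2) (e : ℤ × ℤ) : ‖D.qJ j a b c e‖ ≤ 5 ∧ ‖1 - D.qJ j a b c e‖ ≤ 5 := by
  obtain ⟨a1, a2⟩ := ha
  obtain ⟨b1, b2⟩ := hb
  obtain ⟨c1, c2⟩ := hc
  have one : ∀ w : ℂ, ‖w‖ ≤ 2 → ‖1 - w‖ ≤ 2 → ‖w‖ ≤ 5 ∧ ‖1 - w‖ ≤ 5 := fun w h1 h2 =>
    ⟨by linarith, by linarith⟩
  have opp : ∀ w : ℂ, ‖w‖ ≤ 2 → ‖1 - w‖ ≤ 2 → ‖1 - w‖ ≤ 5 ∧ ‖1 - (1 - w)‖ ≤ 5 := fun w h1 h2 =>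
    ⟨by linarith, by rw [sub_sub_cancel]; linarith⟩
  have prd : ∀ w v : ℂ, ‖w‖ ≤ 2 → ‖v‖ ≤ 2 → ‖w * v‖ ≤ 4 := fun w v h1 h2 => by
    rw [norm_mul]
    nlinarith [norm_nonneg w, norm_nonneg v]
  have prd' : ∀ w v : ℂ, ‖w‖ ≤ 2 → ‖v‖ ≤ 2 → ‖w * v‖ ≤ 5 ∧ ‖1 - w * v‖ ≤ 5 := fun w v h1 h2 => by
    have h3 := prd w v h1 h2
    refine ⟨by linarith, (norm_sub_le _ _).trans ?_⟩
    rw [norm_one]
    linarith
  have prd'' : ∀ w v : ℂ, ‖w‖ ≤ 2 → ‖v‖ ≤ 2 → ‖1 - w * v‖ ≤ 5 ∧ ‖1 - (1 - w * v)‖ ≤ 5 :=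
    fun w v h1 h2 => by
    have h3 := prd w v h1 h2
    refine ⟨(norm_sub_le _ _).trans ?_, ?_⟩
    · rw [norm_one]
      linarith
    · rw [sub_sub_cancel]
      linarith
  unfold Win.qJ
  split_ifs
  all_goals
    first
    | exact wal_norm (opp _ b1 b2).1 (opp _ b1 b2).2
    | exact wal_norm (opp _ c1 c2).1 (opp _ c1 c2).2
    | exact wal_norm (one _ a1 a2).1 (one _ a1 a2).2
    | exact wal_norm (one _ b1 b2).1 (one _ b1 b2).2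
    | exact wal_norm (one _ c1 c2).1 (one _ c1 c2).2
    | exact wal_norm (prd' _ _ a1 c2).1 (prd' _ _ a1 c2).2
    | exact wal_norm (prd' _ _ c2 a1).1 (prd' _ _ c2 a1).2
    | exact wal_norm (prd'' _ _ a2 b1).1 (prd'' _ _ a2 b1).2
    | exact wal_norm (prd'' _ _ b1 a2).1 (prd'' _ _ b1 a2).2
    | norm_num

/-- the ties of the line -/
lemma sL_nr {θ : ℝ} (ha : ‖1 - a * (1 - a)‖ ≤ θ) (hb : ‖1 - b * (1 - b)‖ ≤ θ)
    (hc : ‖1 - c * (1 - c)‖ ≤ θ) (k : Ix) : Nr θ (sL D p a b c k) := by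
  have h0 : Nr θ 0 := Or.inr ⟨0, le_rfl, zero_le_one, by simp⟩
  obtain ⟨s, x, y⟩ := k
  cases p <;> cases s <;> unfold sL <;> simp only <;> (try split_ifs) <;>
    first | exact h0 | exact Or.inl ha | exact Or.inl hb | exact Or.inl hc

/-- the corners of the path are not tie points -/
lemma path_tie {m : ℤ} {P Q : ℤ × ℤ} (hL : Lk (InP D p) ((m : ℝ) + 3) P Q) (hm : 0 ≤ m)
    {z : ℤ × ℤ} (hz : z ∈ LC P.1 P.2 Q.1 Q.2) (k : Ix) (hk : CA D p k) : ¬ Ag k.2 z := by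
  intro hg
  have h1 := path_deep hL hz hg (x := (kt k).1) (y := (kt k).2) (by
    have q := kt_cases k
    unfold OnT
    obtain ⟨s, x, y⟩ := k
    cases s <;> simp only at q ⊢ <;> omega)
  have h2 := h1.inP hm
  have h3 : Pool.Agent.H74.Win.TT D p (kt k).1 (kt k).2 := ⟨k, hk, Or.inl rfl⟩
  exact h3.rg.1 h2

/-- **The increments of a line in terms of the tied environments.** -/
lemma line_bound {η : ℝ} {n0 R : ℕ} {O : OutB D} {s0 N : ℤ} {G : Finset ℤ} {M θ : ℝ}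
    (hX : WinX η n0 R O s0 N G) (h5 : 5 ≤ η * R)
    (ha : ‖1 - a * (1 - a)‖ ≤ θ) (hb : ‖1 - b * (1 - b)‖ ≤ θ) (hc : ‖1 - c * (1 - c)‖ ≤ θ)
    (hθ : θ ≤ 1) {P Q : ℤ × ℤ} (hL : Lk (InP D p) (η * R) P Q) {F : ℤ × ℤ → ℂ}
    (hF : ∀ z, (∀ k, CA D p k → ¬ Ag k.2 z) → F z = Ec (D.qJ j a b c) (FZ D p ∩ D.EJ j)
      (fun S => (XA O p (frz O p j S) (frz_sub O p j S)).incW (qs D p (sL D p a b c)) z))
    (hB : ∀ (S : Finset (ℤ × ℤ)) (hS : S ⊆ FZ D p) (s : Ix → ℂ), (∀ k, CA D p k → Nr θ (s k)) →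
      ‖∑ c ∈ LC P.1 P.2 Q.1 Q.2, La P.1 P.2 Q.1 Q.2 c * (XA O p S hS).incW (qs D p s) c‖ ≤ M) :
    ‖∑ z ∈ LC P.1 P.2 Q.1 Q.2, La P.1 P.2 Q.1 Q.2 z * F z‖ ≤ 10 ^ (70 * n0) * M := by
  obtain ⟨j', hG⟩ := hX.lev
  have hN5 : 5 ≤ N := by
    have : ((5 : ℤ) : ℝ) ≤ N := by push_cast; exact h5.trans hX.N1
    exact_mod_cast this
  have e1 : ∑ z ∈ LC P.1 P.2 Q.1 Q.2, La P.1 P.2 Q.1 Q.2 z * F z =
      Ec (D.qJ j a b c) (FZ D p ∩ D.EJ j) (fun S => ∑ z ∈ LC P.1 P.2 Q.1 Q.2,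
        La P.1 P.2 Q.1 Q.2 z * (XA O p (frz O p j S) (frz_sub O p j S)).incW
          (qs D p (sL D p a b c)) z) := by
    rw [Ec_sum]
    refine sum_congr rfl fun z hz => ?_
    rw [Ec_smul, hF z fun k hk => path_tie (m := 0) (hL.mono (by push_cast; linarith)) le_rfl hz k
      hk]
  rw [e1]
  have ha' := near_bd (ha.trans hθ)
  have hb' := near_bd (hb.trans hθ)
  have hc' := near_bd (hc.trans hθ)
  have hM : ∀ S ⊆ FZ D p ∩ D.EJ j, ‖∑ z ∈ LC P.1 P.2 Q.1 Q.2,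
        La P.1 P.2 Q.1 Q.2 z * (XA O p (frz O p j S) (frz_sub O p j S)).incW
          (qs D p (sL D p a b c)) z‖ ≤ M := fun S _ =>
    hB _ _ _ fun k _ => sL_nr ha hb hc k
  have hM0 : 0 ≤ M := (norm_nonneg _).trans (hM ∅ (empty_subset _))
  refine (Ec_norm_le (C := 5) (fun e _ => (qJ_norm ha' hb' hc' e).1)
    (fun e _ => (qJ_norm ha' hb' hc' e).2) (by norm_num) hM).trans ?_
  refine mul_le_mul_of_nonneg_right ?_ hM0
  have h1 : (FZ D p ∩ D.EJ j).card ≤ 70 * n0 :=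
    (card_le_card inter_subset_left).trans ((card_FZ hG hX.ldg hN5).trans
      (Nat.mul_le_mul_left _ hX.card))
  refine (pow_le_pow_right₀ (by norm_num) h1).trans (le_of_eq ?_)
  norm_num

/-- the weights near `t = 0` -/
lemma near_cT {t : ℂ} (ht : t ∈ Metric.ball (0 : ℂ) (1 / 2)) :
    ‖1 - cT t * (1 - cT t)‖ ≤ 16 * ‖t‖ := by
  have h1 : w6⁻¹ * t ∈ Metric.ball (0 : ℂ) (1 / 2) := by
    rw [mem_ball_zero_iff] at ht ⊢
    rwa [norm_mul, norm_w6_inv, one_mul]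
  have h2 := (near_aT h1).1
  rw [norm_mul, norm_w6_inv, one_mul] at h2
  exact h2

lemma Lnk.lk_false {d : ℝ} {P Q : ℤ × ℤ} (h : Lnk D d P Q) : Lk (InP D false) d P Q := by
  intro x y h1 h2 h3 h4
  rw [Pool.Agent.H30.Sp.InP_false]
  refine h x y ?_ ?_ ?_ ?_
  · rcases h1 with h1 | h1
    · linarith [min_le_left (P.1 : ℝ) Q.1]
    · linarith [min_le_right (P.1 : ℝ) Q.1]
  · rcases h2 with h1 | h1
    · linarith [le_max_left (P.1 : ℝ) Q.1]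
    · linarith [le_max_right (P.1 : ℝ) Q.1]
  · rcases h3 with h1 | h1
    · linarith [min_le_left (P.2 : ℝ) Q.2]
    · linarith [min_le_right (P.2 : ℝ) Q.2]
  · rcases h4 with h1 | h1
    · linarith [le_max_left (P.2 : ℝ) Q.2]
    · linarith [le_max_right (P.2 : ℝ) Q.2]

lemma Lnk.lk_true {d : ℝ} {P Q : ℤ × ℤ} (h : Lnk D d P Q) :
    Lk (InP D true) d (P.1, P.2 - 1) (Q.1, Q.2 - 1) := by
  intro x y h1 h2 h3 h4
  simp only at h1 h2 h3 h4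
  push_cast at h3 h4
  have key := h x (y + 1) ?_ ?_ ?_ ?_
  · rw [Pool.Agent.H30.Sp.InP_true]
    exact ⟨by omega, key.2⟩
  · rcases h1 with h1 | h1
    · linarith [min_le_left (P.1 : ℝ) Q.1]
    · linarith [min_le_right (P.1 : ℝ) Q.1]
  · rcases h2 with h1 | h1
    · linarith [le_max_left (P.1 : ℝ) Q.1]
    · linarith [le_max_right (P.1 : ℝ) Q.1]
  · push_cast
    rcases h3 with h1 | h1
    · linarith [min_le_left (P.2 : ℝ) Q.2]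
    · linarith [min_le_right (P.2 : ℝ) Q.2]
  · push_cast
    rcases h4 with h1 | h1
    · linarith [le_max_left (P.2 : ℝ) Q.2]
    · linarith [le_max_right (P.2 : ℝ) Q.2]

/-- **The local a priori bound of the potentials.** -/
theorem lbw_of {S : ℕ → Set (Σ D : Win, Out D)} {η : ℝ} (hη : 0 < η) (n0 R1 : ℕ)
    (hS : ∀ R : ℕ, R1 ≤ R → ∀ v ∈ S R, ∃ O : OutB v.1, v.2 = O.out ∧
      ∃ s0 N G, WinX η n0 R O s0 N G) : LBW S η := by
  intro Z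
  obtain ⟨M, R0, hM0, hpre⟩ := lbw_pre hη n0 (Z := 16 * |Z|) (by positivity)
  obtain ⟨R2, hsm⟩ := rpow_small (Z := 16 * |Z|) (by positivity)
  refine ⟨10 ^ (70 * n0) * M, max (max R0 R1) (max ⌈R2⌉₊ ⌈5 / η⌉₊), ?_⟩
  intro R hR v hv top z hz H hH P Q hPQ
  have hR0 : R0 ≤ R := (le_max_left _ _).trans ((le_max_left _ _).trans hR)
  have hR1 : R1 ≤ R := (le_max_right _ _).trans ((le_max_left _ _).trans hR)
  have hR2 : R2 ≤ R := Nat.ceil_le.1 ((le_max_left _ _).trans ((le_max_right _ _).trans hR))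
  have hR5 : 5 ≤ η * R := by
    have := Nat.ceil_le.1 ((le_max_right _ _).trans ((le_max_right _ _).trans hR))
    rw [div_le_iff₀ hη] at this
    linarith
  obtain ⟨D, O'⟩ := v
  obtain ⟨O, hO, s0, N, G, hX⟩ := hS R hR1 _ hv
  simp only at O hO hX hPQ hH
  subst hO
  obtain ⟨hRp, h2⟩ := hsm R hR2
  set t : ℂ := z * (((R : ℝ) ^ (-(2 / 3) : ℝ) : ℝ) : ℂ) with ht
  have hr0 : 0 ≤ (R : ℝ) ^ (-(2 / 3) : ℝ) := by positivity
  have hn : ‖t‖ ≤ |Z| * (R : ℝ) ^ (-(2 / 3) : ℝ) := by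
    rw [ht, norm_mul, Complex.norm_real, Real.norm_of_nonneg hr0]
    exact mul_le_mul_of_nonneg_right (hz.trans (le_abs_self Z)) hr0
  have hball : t ∈ Metric.ball (0 : ℂ) (1 / 2) := by
    rw [mem_ball_zero_iff]
    linarith
  obtain ⟨g1, g2⟩ := near_aT hball
  have g3 := near_cT hball
  have ha : ‖1 - aT t * (1 - aT t)‖ ≤ 16 * |Z| * (R : ℝ) ^ (-(2 / 3) : ℝ) := by linarith
  have hb : ‖1 - bT t * (1 - bT t)‖ ≤ 16 * |Z| * (R : ℝ) ^ (-(2 / 3) : ℝ) := by linarith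
  have hc : ‖1 - cT t * (1 - cT t)‖ ≤ 16 * |Z| * (R : ℝ) ^ (-(2 / 3) : ℝ) := by linarith
  have hh := D.hh
  unfold PotT at hH
  cases top
  · rw [if_neg Bool.false_ne_true] at hH
    have hL := Lnk.lk_false hPQ
    have key := line_bound (j := 0) hX hR5 ha hb hc h2 hL (F := FW O.out (aT t) (bT t) (cT t) 0)
      (fun z hz => by rw [FW_eq le_rfl]; exact X0_XA O hz _ _ _)
      (fun S hS s hs => hpre R hR0 D O s0 N G hX false S hS s hs P Q hL)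
    rw [sumL_lk hH (d := η * R) (by linarith) (hL.imp fun x y h =>
      Pool.Agent.H30.Sp.InP_false.1 h)] at key
    unfold inc2 at key
    unfold shT
    rw [if_neg Bool.false_ne_true, sub_zero, sub_zero, mul_assoc]
    exact key
  · rw [if_pos rfl] at hH
    have hL := Lnk.lk_true hPQ
    have key := line_bound (j := D.h) hX hR5 ha hb hc h2 hL
      (F := FW O.out (aT t) (bT t) (cT t) D.h)
      (fun z hz => by rw [FW_eq (by omega)]; exact Xh_XA O (by omega) hz _ _ _)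
      (fun S hS s hs => hpre R hR0 D O s0 N G hX true S hS s hs _ _ hL)
    rw [sumU_lk hH (d := η * R) (by linarith) (hL.imp fun x y h =>
      Pool.Agent.H30.Sp.InP_true.1 h)] at key
    unfold inc2 at key
    unfold shT
    rw [if_pos rfl, mul_assoc]
    refine key.trans (le_of_eq ?_)
    push_cast
    ring_nf

end Pool.Agent.H20.Sp
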