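import Pool.Agent.H20.Sp.Seg
import Pool.Agent.H20.Q1.BDg

set_option autoImplicit false
open Finset

/-!
# Runs of the walls of a natural window

`RunsW.of_prog` : runs from a progression. `runsK_XA` : the ties `T` of one family of the tied window `XA`
(whole segments) lie on `8 |G|` walls up to `10 (2 c + 1) |G|` isolated ties.
-/

namespace Pool.Agent.H20.Sp

open Pool.Agent.H75.Perc hiding ph
open Pool.Agent.H75.TwoArm Pool.Agent.Q1 Pool.Agent.H33.Q1
open Pool.Agent.H75.Four Pool.Agent.H69.Q1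
open Pool.Agent.H46.Sp (Win Out nxt nxt_le nxt_mem le_nxt not_lev)
open Pool.Agent.H46.Sp.Win
open Pool.Agent.H74.Win
open Pool.Agent.H42.Sp (Sd Ix kt rt kt_odd rt_even kt_Tg rt_Tg)
open Pool.Agent.H13.R45 (gp)
open Pool.Agent.H39.Q1 Pool.Agent.H20.Q1
open Pool.Agent.Q1.M6c

variable {W Bb TT T Wi Li : Finset (ℤ × ℤ)} {b o : ℤ × ℤ → ℤ × ℤ} {co : Bool} {L J : ℕ}
  {ε : Bool × Bool} {δ : ℤ × ℤ}

open Classical in
/-- **Runs from a progression.** `r = true` : the positions decrease along the wall. -/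
theorem RunsW.of_prog {Q : ℤ → Prop} (hQ : Prog Q) {u0 u1 : ℤ} (r : Bool) (tie : ℤ → ℤ × ℤ)
    (hu : ∀ u, Q u → u0 ≤ u ∧ u ≤ u1) (hlen : u1 - u0 + 2 ≤ 2 * (J * L))
    (hfam : ∀ u u', Q u → Q u' → tie u ∈ T → tie u' ∈ T)
    (hpt : ∀ u t, Q u → Q (u + 2 * t) → gm ε (b (tie (u + 2 * t))) =
      wpt 1 (gm ε (b (tie u))) (if r = true then -t else t))
    (hflat : ∀ u ρ : ℤ, Q u → tie u ∈ T → 1 ≤ ρ → 2 * ρ < L → u0 + 4 * ρ ≤ u → u + 4 * ρ ≤ u1 →
      FlatL W Bb TT T Wi Li b o co ε δ (b (tie u)) (ρ + 1)) :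
    RunsW W Bb TT T (T.filter fun e => ∃ u, Q u ∧ tie u = e) Wi Li b o co L J := by
  obtain ⟨z, n, hz⟩ := hQ
  by_cases hne : ∃ u, Q u ∧ tie u ∈ T
  swap
  · have : (T.filter fun e => ∃ u, Q u ∧ tie u = e) = ∅ := by
      refine filter_eq_empty_iff.2 ?_
      rintro e he ⟨u, hu, rfl⟩
      exact hne ⟨u, hu, he⟩
    rw [this]
    exact RunsW.empty
  obtain ⟨u', hu', hT'⟩ := hne
  have hall : ∀ u, Q u → tie u ∈ T := fun u h => hfam u' u hu' h hT'
  have hn : 1 ≤ (n : ℤ) := by
    obtain ⟨t, ⟨h1, h2⟩, -⟩ := (hz u').1 hu'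
    omega
  have q : ∀ t : ℤ, 0 ≤ t → t < n → Q (z + 2 * t) := fun t h1 h2 => (hz _).2 ⟨t, ⟨h1, h2⟩, rfl⟩
  have q0 := hu _ (q 0 le_rfl (by omega))
  have q1 := hu _ (q (n - 1) (by omega) (by omega))
  have hnJ : n ≤ J * L := by
    have : (n : ℤ) ≤ J * L := by omega
    exact_mod_cast this
  cases r
  · refine RunsW.mk' (ε := ε) (δ := δ) (z := gm ε (b (tie z))) (fun p => tie (z + 2 * p)) hnJ
      ?_ ?_ ?_
    · intro e he
      obtain ⟨-, u, h1, h2⟩ := mem_filter.1 he
      obtain ⟨t, h3, rfl⟩ := (hz u).1 h1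
      exact ⟨t, h3, h2⟩
    · intro p h1 h2
      refine ⟨hall _ (q p h1 h2), ?_⟩
      have := hpt z p (by simpa using q 0 le_rfl (by omega)) (q p h1 h2)
      rwa [if_neg Bool.false_ne_true] at this
    · intro p ρ h1 h2 h3 h4
      exact hflat _ ρ (q p (by omega) (by omega)) (hall _ (q p (by omega) (by omega))) h1 h4
        (by omega) (by omega)
  · refine RunsW.mk' (ε := ε) (δ := δ) (z := gm ε (b (tie (z + 2 * (n - 1)))))
      (fun p => tie (z + 2 * (n - 1 - p))) hnJ ?_ ?_ ?_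
    · intro e he
      obtain ⟨-, u, h1, h2⟩ := mem_filter.1 he
      obtain ⟨t, h3, rfl⟩ := (hz u).1 h1
      refine ⟨n - 1 - t, by omega, ?_⟩
      rw [← h2]
      congr 2; ring
    · intro p h1 h2
      refine ⟨hall _ (q (n - 1 - p) (by omega) (by omega)), ?_⟩
      have := hpt (z + 2 * (n - 1)) (-p) (q (n - 1) (by omega) (by omega)) (by
        have := q (n - 1 - p) (by omega) (by omega)
        rw [show z + 2 * ((n : ℤ) - 1) + 2 * -p = z + 2 * (n - 1 - p) by ring]
        exact this)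
      rw [if_pos rfl, neg_neg, show z + 2 * ((n : ℤ) - 1) + 2 * -p = z + 2 * (n - 1 - p) by ring]
        at this
      exact this
    · intro p ρ h1 h2 h3 h4
      exact hflat _ ρ (q (n - 1 - p) (by omega) (by omega)) (hall _ (q (n - 1 - p) (by omega)
        (by omega))) h1 h4 (by omega) (by omega)

/-! ### The segments of `XA` -/

variable {D : Win} {p : Bool} {j : ℤ} {G : Finset ℤ} {g c : ℤ}

/-- the segments: `k` is a tie of the segment `(i, g)`, at distance `≥ c` from its ends -/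
def Sg (D : Win) (p : Bool) (G : Finset ℤ) (c : ℤ) (i : Fin 8) (g : ℤ) (k : Ix) : Prop :=
  CA D p k ∧ match i with
  | 0 => k.1 = .L ∧ k.2.1 = D.a g - 1 ∧ g + c ≤ k.2.2 + sh p ∧ k.2.2 + sh p + c ≤ nxt G g
  | 1 => k.1 = .R ∧ k.2.1 = D.b g + 1 ∧ g + c ≤ k.2.2 + sh p ∧ k.2.2 + sh p + c ≤ nxt G g
  | 2 => k.1 = .F ∧ k.2.2 = g - 1 - sh p ∧ 0 < g ∧ D.a g + c ≤ k.2.1 ∧ k.2.1 + c ≤ D.a (g - 1)
  | 3 => k.1 = .F ∧ k.2.2 = g - 1 - sh p ∧ 0 < g ∧ D.b (g - 1) + c ≤ k.2.1 ∧ k.2.1 + c ≤ D.b g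
  | 4 => k.1 = .F ∧ k.2.2 = g - 1 - sh p ∧ g = 0 ∧ D.a g + c ≤ k.2.1 ∧ k.2.1 + c ≤ D.b g
  | 5 => k.1 = .C ∧ k.2.2 = g + 1 - sh p ∧ g < D.h ∧ D.a (g - 1) + c ≤ k.2.1 ∧ k.2.1 + c ≤ D.a g
  | 6 => k.1 = .C ∧ k.2.2 = g + 1 - sh p ∧ g < D.h ∧ D.b g + c ≤ k.2.1 ∧ k.2.1 + c ≤ D.b (g - 1)
  | 7 => k.1 = .C ∧ k.2.2 = g + 1 - sh p ∧ g = D.h ∧ D.a (g - 1) + c ≤ k.2.1 ∧
      k.2.1 + c ≤ D.b (g - 1)

lemma Sg.ca {i : Fin 8} {k : Ix} (h : Sg D p G c i g k) : CA D p k := h.1

/-- the inner point of a tie -/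
def inn (k : Ix) : ℤ × ℤ :=
  match k.1 with
  | .L => (k.2.1 + 1, k.2.2)
  | .R => (k.2.1 - 1, k.2.2)
  | .F => (k.2.1, k.2.2 + 1)
  | .C => (k.2.1, k.2.2 - 1)

/-- the mirror of a kind -/
def eps : Sd → Bool × Bool
  | .L => (false, false)
  | .R => (true, true)
  | .F => (true, false)
  | .C => (false, true)

/-- the parameters of the exceptional ties -/
def isoPt (D : Win) (p : Bool) (e : Fin 10) (g i : ℤ) : Ix :=
  match e with
  | 0 => (.L, (D.a (g + i) - 1, g + i - sh p))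
  | 1 => (.R, (D.b (g + i) + 1, g + i - sh p))
  | 2 => (.F, (D.a g + i, g - 1 - sh p))
  | 3 => (.F, (D.a (g - 1) + i, g - 1 - sh p))
  | 4 => (.F, (D.b (g - 1) + i, g - 1 - sh p))
  | 5 => (.F, (D.b g + i, g - 1 - sh p))
  | 6 => (.C, (D.a (g - 1) + i, g + 1 - sh p))
  | 7 => (.C, (D.a g + i, g + 1 - sh p))
  | 8 => (.C, (D.b g + i, g + 1 - sh p))
  | 9 => (.C, (D.b (g - 1) + i, g + 1 - sh p))

/-- the previous level -/
lemma exists_lev (hG : D.Lev j G) {Y : ℤ} (h0 : 0 ≤ Y) (h1 : Y < D.h) :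
    ∃ g ∈ G, g ≤ Y ∧ Y < nxt G g := by
  classical
  have hne : (G.filter (· ≤ Y)).Nonempty := ⟨0, mem_filter.2 ⟨hG.zero, h0⟩⟩
  refine ⟨(G.filter (· ≤ Y)).max' hne, (mem_filter.1 (max'_mem _ hne)).1,
    (mem_filter.1 (max'_mem _ hne)).2, ?_⟩
  set g := (G.filter (· ≤ Y)).max' hne with hg
  have hgY : g ≤ Y := (mem_filter.1 (max'_mem _ hne)).2
  have h2 : g < nxt G g := by
    unfold nxt
    have : (G.filter (g < ·)).Nonempty := ⟨D.h, mem_filter.2 ⟨hG.h, by omega⟩⟩
    rw [dif_pos this]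
    exact (mem_filter.1 (min'_mem _ this)).2
  by_contra hc
  push Not at hc
  have h3 := le_max' (G.filter (· ≤ Y)) (nxt G g) (mem_filter.2 ⟨nxt_mem h2, hc⟩)
  omega

/-- **every tie lies in a segment or is exceptional** -/
theorem cover_XA (hG : D.Lev j G) {k : Ix} (hk : CA D p k) :
    (∃ i, ∃ g ∈ G, Sg D p G c i g k) ∨ ∃ e, ∃ g ∈ G, ∃ i, -c ≤ i ∧ i ≤ c ∧ k = isoPt D p e g i := by
  obtain ⟨s, x, y⟩ := k
  have hh := D.hh
  cases s
  · obtain ⟨h1, h2, h3⟩ := L_x hk
    obtain ⟨g, hg, h4, h5⟩ := exists_lev hG (by omega) h3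
    have h6 := (hG.ab_eq hg h4 h5).1
    by_cases c1 : g + c ≤ y + sh p
    · by_cases c2 : y + sh p + c ≤ nxt G g
      · exact Or.inl ⟨0, g, hg, hk, rfl, by simp only; omega, c1, c2⟩
      · right
        refine ⟨0, nxt G g, nxt_mem (by omega), y + sh p - nxt G g, by omega, by omega, ?_⟩
        unfold isoPt
        simp only [Prod.mk.injEq, true_and]
        rw [show nxt G g + (y + sh p - nxt G g) = y + sh p by ring]
        omega
    · right
      refine ⟨0, g, hg, y + sh p - g, by omega, by omega, ?_⟩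
      unfold isoPt
      simp only [Prod.mk.injEq, true_and]
      rw [show g + (y + sh p - g) = y + sh p by ring]
      omega
  · obtain ⟨h1, h2, h3⟩ := R_x hk
    obtain ⟨g, hg, h4, h5⟩ := exists_lev hG (by omega) h3
    have h6 := (hG.ab_eq hg h4 h5).2
    by_cases c1 : g + c ≤ y + sh p
    · by_cases c2 : y + sh p + c ≤ nxt G g
      · exact Or.inl ⟨1, g, hg, hk, rfl, by simp only; omega, c1, c2⟩
      · right
        refine ⟨1, nxt G g, nxt_mem (by omega), y + sh p - nxt G g, by omega, by omega, ?_⟩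
        unfold isoPt
        simp only [Prod.mk.injEq, true_and]
        rw [show nxt G g + (y + sh p - nxt G g) = y + sh p by ring]
        omega
    · right
      refine ⟨1, g, hg, y + sh p - g, by omega, by omega, ?_⟩
      unfold isoPt
      simp only [Prod.mk.injEq, true_and]
      rw [show g + (y + sh p - g) = y + sh p by ring]
      omega
  · have hg := F_lev hG hk
    obtain ⟨h1, h2, h3, h4, h5⟩ := F_x hk
    obtain ⟨g, hgy⟩ : ∃ g, g = y + sh p + 1 := ⟨_, rfl⟩
    rw [← hgy] at hg h2 h3 h4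
    have hy : y = g - 1 - sh p := by omega
    rw [show y + sh p = g - 1 by omega] at h5
    by_cases h0 : 0 < g
    · rcases h5 (by omega) with h6 | h6
      · by_cases c1 : D.a g + c ≤ x
        · by_cases c2 : x + c ≤ D.a (g - 1)
          · exact Or.inl ⟨2, g, hg, hk, rfl, hy, h0, c1, c2⟩
          · exact Or.inr ⟨3, g, hg, x - D.a (g - 1), by omega, by omega, by
              unfold isoPt; simp only [Prod.mk.injEq, true_and]; omega⟩
        · exact Or.inr ⟨2, g, hg, x - D.a g, by omega, by omega, by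
            unfold isoPt; simp only [Prod.mk.injEq, true_and]; omega⟩
      · by_cases c1 : D.b (g - 1) + c ≤ x
        · by_cases c2 : x + c ≤ D.b g
          · exact Or.inl ⟨3, g, hg, hk, rfl, hy, h0, c1, c2⟩
          · exact Or.inr ⟨5, g, hg, x - D.b g, by omega, by omega, by
              unfold isoPt; simp only [Prod.mk.injEq, true_and]; omega⟩
        · exact Or.inr ⟨4, g, hg, x - D.b (g - 1), by omega, by omega, by
            unfold isoPt; simp only [Prod.mk.injEq, true_and]; omega⟩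
    · have h7 : g = 0 := by omega
      by_cases c1 : D.a g + c ≤ x
      · by_cases c2 : x + c ≤ D.b g
        · exact Or.inl ⟨4, g, hg, hk, rfl, hy, h7, c1, c2⟩
        · exact Or.inr ⟨5, g, hg, x - D.b g, by omega, by omega, by
            unfold isoPt; simp only [Prod.mk.injEq, true_and]; omega⟩
      · exact Or.inr ⟨2, g, hg, x - D.a g, by omega, by omega, by
          unfold isoPt; simp only [Prod.mk.injEq, true_and]; omega⟩
  · have hg := C_lev hG hk
    obtain ⟨h1, h2, h3, h4, h5⟩ := C_x hk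
    obtain ⟨g, hgy⟩ : ∃ g, g = y - 1 + sh p := ⟨_, rfl⟩
    rw [← hgy] at hg h1 h2 h3 h4 h5
    have hy : y = g + 1 - sh p := by omega
    by_cases h0 : g < D.h
    · rcases h5 h0 with h6 | h6
      · by_cases c1 : D.a (g - 1) + c ≤ x
        · by_cases c2 : x + c ≤ D.a g
          · exact Or.inl ⟨5, g, hg, hk, rfl, hy, h0, c1, c2⟩
          · exact Or.inr ⟨7, g, hg, x - D.a g, by omega, by omega, by
              unfold isoPt; simp only [Prod.mk.injEq, true_and]; omega⟩
        · exact Or.inr ⟨6, g, hg, x - D.a (g - 1), by omega, by omega, by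
            unfold isoPt; simp only [Prod.mk.injEq, true_and]; omega⟩
      · by_cases c1 : D.b g + c ≤ x
        · by_cases c2 : x + c ≤ D.b (g - 1)
          · exact Or.inl ⟨6, g, hg, hk, rfl, hy, h0, c1, c2⟩
          · exact Or.inr ⟨9, g, hg, x - D.b (g - 1), by omega, by omega, by
              unfold isoPt; simp only [Prod.mk.injEq, true_and]; omega⟩
        · exact Or.inr ⟨8, g, hg, x - D.b g, by omega, by omega, by
            unfold isoPt; simp only [Prod.mk.injEq, true_and]; omega⟩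
    · have h7 : g = D.h := by omega
      by_cases c1 : D.a (g - 1) + c ≤ x
      · by_cases c2 : x + c ≤ D.b (g - 1)
        · exact Or.inl ⟨7, g, hg, hk, rfl, hy, h7, c1, c2⟩
        · exact Or.inr ⟨9, g, hg, x - D.b (g - 1), by omega, by omega, by
            unfold isoPt; simp only [Prod.mk.injEq, true_and]; omega⟩
      · exact Or.inr ⟨6, g, hg, x - D.a (g - 1), by omega, by omega, by
          unfold isoPt; simp only [Prod.mk.injEq, true_and]; omega⟩


lemma Prog.congr {Q Q' : ℤ → Prop} (h : Prog Q) (h' : ∀ u, Q' u ↔ Q u) : Prog Q' := by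
  obtain ⟨z, n, hz⟩ := h
  exact ⟨z, n, fun u => (h' u).trans (hz u)⟩

open Classical in
/-- the runs of one segment -/
lemma seg_runs {s : Sd} {i : Fin 8} (pt : ℤ → ℤ × ℤ) (r : Bool) {u0 u1 : ℤ}
    (hpt : ∀ k, Sg D p G c i g k → ∃ u, k = (s, pt u))
    (hQ : Prog (fun u => Sg D p G c i g (s, pt u)))
    (hu : ∀ u, Sg D p G c i g (s, pt u) → u0 ≤ u ∧ u ≤ u1) (hlen : u1 - u0 + 2 ≤ 2 * (J * L))
    (hdeep : ∀ u ρ, 0 ≤ ρ → Sg D p G c i g (s, pt u) → u0 + 4 * ρ ≤ u → u + 4 * ρ ≤ u1 →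
      Sg D p G (c + 4 * ρ) i g (s, pt u))
    (hgm : ∀ u t, gm (eps s) (gp (inn (s, pt (u + 2 * t)))) =
      wpt 1 (gm (eps s) (gp (inn (s, pt u)))) (if r = true then -t else t))
    (hb : ∀ k, CA D p k → b (lt (kt k)) = gp (inn k))
    (hfam : ∀ k k', Sg D p G c i g k → Sg D p G c i g k' → lt (kt k) ∈ T → lt (kt k') ∈ T)
    (hflat : ∀ k ρ, Sg D p G (c + 4 * ρ) i g k → lt (kt k) ∈ T → 1 ≤ ρ → 2 * ρ < L →
      FlatL W Bb TT T Wi Li b o co (eps k.1) δ (b (lt (kt k))) (ρ + 1)) :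
    RunsW W Bb TT T (T.filter fun e => ∃ k, Sg D p G c i g k ∧ lt (kt k) = e) Wi Li b o co L J := by
  refine RunsW.mono (RunsW.of_prog (ε := eps s) (δ := δ) hQ r (fun u => lt (kt (s, pt u))) hu hlen
    (fun u u' h1 h2 h3 => hfam _ _ h1 h2 h3) (fun u t h1 h2 => ?_)
    (fun u ρ h1 h2 h3 h4 h5 h6 => ?_)) ?_
  · rw [hb _ h1.ca, hb _ h2.ca, hgm]
  · exact hflat _ ρ (hdeep u ρ (by omega) h1 h5 h6) h2 h3 h4
  · intro e he
    obtain ⟨h1, k, h2, h3⟩ := mem_filter.1 he
    obtain ⟨u, rfl⟩ := hpt k h2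
    exact mem_filter.2 ⟨h1, u, h2, h3⟩

/-- **The ties of one family of the tied natural window lie on few walls.** -/
theorem runsK_XA (hG : D.Lev j G) (hc : 3 ≤ c) (hL : 1 ≤ L) (hJ : 1 ≤ J)
    (hh : D.h ≤ 2 * (J * L)) (hw : D.b D.yQ - D.a (D.yP - 1) ≤ 2 * (J * L))
    (hb : ∀ k, CA D p k → b (lt (kt k)) = gp (inn k))
    (hT : ∀ e ∈ T, ∃ k, CA D p k ∧ lt (kt k) = e)
    (hfam : ∀ i, ∀ g ∈ G, ∀ k k', Sg D p G c i g k → Sg D p G c i g k' → lt (kt k) ∈ T →
      lt (kt k') ∈ T)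
    (hflat : ∀ i, ∀ g ∈ G, ∀ k ρ, Sg D p G (c + 4 * ρ) i g k → lt (kt k) ∈ T → 1 ≤ ρ →
      2 * ρ < L → FlatL W Bb TT T Wi Li b o co (eps k.1) δ (b (lt (kt k))) (ρ + 1)) :
    RunsK W Bb TT T Wi Li b o co L J (8 * G.card + 10 * G.card * (2 * c.toNat + 1)) := by
  classical
  have hhh := D.hh
  have lo := hG.lo
  have hi := hG.hi
  have wid : ∀ y z, 0 ≤ y → y < D.h → 0 ≤ z → z < D.h → D.b z - D.a y ≤ 2 * (J * L) := by
    intro y z h1 h2 h3 h4
    have := a_min (D := D) h1 h2
    have := b_max (D := D) h3 h4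
    omega
  have one : ∀ (i : Fin 8), ∀ g ∈ G,
      RunsW W Bb TT T (T.filter fun e => ∃ k, Sg D p G c i g k ∧ lt (kt k) = e) Wi Li b o co L J := by
    intro i g hg
    have l0 := lo g hg
    have l1 := hi g hg
    have hf := hfam i g hg
    have hfl := hflat i g hg
    have ln : nxt G g ≤ D.h ∨ nxt G g = g := by
      by_cases h : g < nxt G g
      · exact Or.inl (hG.nxt_h h)
      · exact Or.inr (le_antisymm (by omega) le_nxt)
    by_cases hne : ∃ k, Sg D p G c i g k
    swap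
    · have : (T.filter fun e => ∃ k, Sg D p G c i g k ∧ lt (kt k) = e) = ∅ := by
        refine filter_eq_empty_iff.2 ?_
        rintro e he ⟨k, hk, -⟩
        exact hne ⟨k, hk⟩
      rw [this]
      exact RunsW.empty
    obtain ⟨k0, hk0⟩ := hne
    fin_cases i
    · refine seg_runs (s := .L) (fun y => (D.a g - 1, y)) true (u0 := g + c - sh p)
        (u1 := nxt G g - c - sh p) ?_ ?_ ?_ (by omega) ?_ ?_ hb hf hfl
      · rintro ⟨s, x, y⟩ ⟨h1, h2, h3, h4, h5⟩
        simp only at h2 h3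
        subst h2 h3
        exact ⟨y, rfl⟩
      · refine (L_prog (p := p) hG hg hc).congr fun u => ?_
        unfold Sg
        simp
      · rintro u ⟨h1, h2, h3, h4, h5⟩
        simp only at h4 h5
        omega
      · rintro u ρ h0 ⟨h1, h2, h3, h4, h5⟩ h6 h7
        simp only at h4 h5
        exact ⟨h1, h2, h3, by simp only; omega, by simp only; omega⟩
      · intro u t
        unfold gm sgb wpt gp inn eps
        simp only [Bool.false_eq_true, if_false, if_true, Prod.mk.injEq]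
        omega
    · refine seg_runs (s := .R) (fun y => (D.b g + 1, y)) false (u0 := g + c - sh p)
        (u1 := nxt G g - c - sh p) ?_ ?_ ?_ (by omega) ?_ ?_ hb hf hfl
      · rintro ⟨s, x, y⟩ ⟨h1, h2, h3, h4, h5⟩
        simp only at h2 h3
        subst h2 h3
        exact ⟨y, rfl⟩
      · refine (R_prog (p := p) hG hg hc).congr fun u => ?_
        unfold Sg
        simp
      · rintro u ⟨h1, h2, h3, h4, h5⟩
        simp only at h4 h5
        omega
      · rintro u ρ h0 ⟨h1, h2, h3, h4, h5⟩ h6 h7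
        simp only at h4 h5
        exact ⟨h1, h2, h3, by simp only; omega, by simp only; omega⟩
      · intro u t
        unfold gm sgb wpt gp inn eps
        simp only [Bool.false_eq_true, if_false, if_true, Prod.mk.injEq]
        omega
    · obtain ⟨s, x, y⟩ := k0
      obtain ⟨h1, h2, h3, h4, -⟩ := hk0
      simp only at h2 h3 h4
      subst h2 h3
      have h5 := (F_x h1).2.1
      have wd := wid g (g - 1) l0 (by omega) (by omega) (by omega)
      have ba := D.ab (g - 1) (by omega) (by omega)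
      refine seg_runs (s := .F) (fun x => (x, g - 1 - sh p)) true (u0 := D.a g + c)
        (u1 := D.a (g - 1) - c) ?_ ?_ ?_ (by omega) ?_ ?_ hb hf hfl
      · rintro ⟨s, x, y⟩ ⟨h1, h2, h3, -⟩
        simp only at h2 h3
        subst h2 h3
        exact ⟨x, rfl⟩
      · refine (Fl_prog (D := D) (p := p) h4 (by omega) (by omega : 2 ≤ c)).congr fun u => ?_
        unfold Sg
        simp [h4]
      · rintro u ⟨-, -, -, -, h6, h7⟩
        simp only at h6 h7
        omega
      · rintro u ρ h0 ⟨h1, h2, h3, h4, h5, h6⟩ h7 h8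
        simp only at h5 h6
        exact ⟨h1, h2, h3, h4, by simp only; omega, by simp only; omega⟩
      · intro u t
        unfold gm sgb wpt gp inn eps
        simp only [Bool.false_eq_true, if_false, if_true, Prod.mk.injEq]
        omega
    · obtain ⟨s, x, y⟩ := k0
      obtain ⟨h1, h2, h3, h4, -⟩ := hk0
      simp only at h2 h3 h4
      subst h2 h3
      have h5 := (F_x h1).2.1
      have wd := wid (g - 1) g (by omega) (by omega) (by omega) (by omega)
      have ba := D.ab (g - 1) (by omega) (by omega)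
      refine seg_runs (s := .F) (fun x => (x, g - 1 - sh p)) true (u0 := D.b (g - 1) + c)
        (u1 := D.b g - c) ?_ ?_ ?_ (by omega) ?_ ?_ hb hf hfl
      · rintro ⟨s, x, y⟩ ⟨h1, h2, h3, -⟩
        simp only at h2 h3
        subst h2 h3
        exact ⟨x, rfl⟩
      · refine (Fr_prog (D := D) (p := p) h4 (by omega) (by omega : 2 ≤ c)).congr fun u => ?_
        unfold Sg
        simp [h4]
      · rintro u ⟨-, -, -, -, h6, h7⟩
        simp only at h6 h7
        omega
      · rintro u ρ h0 ⟨h1, h2, h3, h4, h5, h6⟩ h7 h8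
        simp only at h5 h6
        exact ⟨h1, h2, h3, h4, by simp only; omega, by simp only; omega⟩
      · intro u t
        unfold gm sgb wpt gp inn eps
        simp only [Bool.false_eq_true, if_false, if_true, Prod.mk.injEq]
        omega
    · obtain ⟨s, x, y⟩ := k0
      obtain ⟨h1, h2, h3, h4, -⟩ := hk0
      simp only at h2 h3 h4
      subst h2 h3 h4
      have wd := wid 0 0 le_rfl (by omega) le_rfl (by omega)
      refine seg_runs (s := .F) (fun x => (x, 0 - 1 - sh p)) true (u0 := D.a 0 + c)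
        (u1 := D.b 0 - c) ?_ ?_ ?_ (by omega) ?_ ?_ hb hf hfl
      · rintro ⟨s, x, y⟩ ⟨h1, h2, h3, -⟩
        simp only at h2 h3
        subst h2 h3
        exact ⟨x, rfl⟩
      · refine (Fb_prog (D := D) (p := p) (by omega : 2 ≤ c)).congr fun u => ?_
        unfold Sg
        simp
      · rintro u ⟨-, -, -, -, h6, h7⟩
        simp only at h6 h7
        omega
      · rintro u ρ h0 ⟨h1, h2, h3, h4, h5, h6⟩ h7 h8
        simp only at h5 h6
        exact ⟨h1, h2, h3, h4, by simp only; omega, by simp only; omega⟩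
      · intro u t
        unfold gm sgb wpt gp inn eps
        simp only [Bool.false_eq_true, if_false, if_true, Prod.mk.injEq]
        omega
    · obtain ⟨s, x, y⟩ := k0
      obtain ⟨h1, h2, h3, h4, -⟩ := hk0
      simp only at h2 h3 h4
      subst h2 h3
      have h5 := (C_x h1).1
      rw [show g + 1 - sh p - 1 + sh p = g by ring] at h5
      have wd := wid (g - 1) g (by omega) (by omega) (by omega) (by omega)
      have ba := D.ab g (by omega) (by omega)
      refine seg_runs (s := .C) (fun x => (x, g + 1 - sh p)) false (u0 := D.a (g - 1) + c)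
        (u1 := D.a g - c) ?_ ?_ ?_ (by omega) ?_ ?_ hb hf hfl
      · rintro ⟨s, x, y⟩ ⟨h1, h2, h3, -⟩
        simp only at h2 h3
        subst h2 h3
        exact ⟨x, rfl⟩
      · refine (Cl_prog (D := D) (p := p) (by omega) h4 (by omega : 2 ≤ c)).congr fun u => ?_
        unfold Sg
        simp [h4]
      · rintro u ⟨-, -, -, -, h6, h7⟩
        simp only at h6 h7
        omega
      · rintro u ρ h0 ⟨h1, h2, h3, h4, h5, h6⟩ h7 h8
        simp only at h5 h6
        exact ⟨h1, h2, h3, h4, by simp only; omega, by simp only; omega⟩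
      · intro u t
        unfold gm sgb wpt gp inn eps
        simp only [Bool.false_eq_true, if_false, if_true, Prod.mk.injEq]
        omega
    · obtain ⟨s, x, y⟩ := k0
      obtain ⟨h1, h2, h3, h4, -⟩ := hk0
      simp only at h2 h3 h4
      subst h2 h3
      have h5 := (C_x h1).1
      rw [show g + 1 - sh p - 1 + sh p = g by ring] at h5
      have wd := wid g (g - 1) (by omega) (by omega) (by omega) (by omega)
      have ba := D.ab g (by omega) (by omega)
      refine seg_runs (s := .C) (fun x => (x, g + 1 - sh p)) false (u0 := D.b g + c)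
        (u1 := D.b (g - 1) - c) ?_ ?_ ?_ (by omega) ?_ ?_ hb hf hfl
      · rintro ⟨s, x, y⟩ ⟨h1, h2, h3, -⟩
        simp only at h2 h3
        subst h2 h3
        exact ⟨x, rfl⟩
      · refine (Cr_prog (D := D) (p := p) (by omega) h4 (by omega : 2 ≤ c)).congr fun u => ?_
        unfold Sg
        simp [h4]
      · rintro u ⟨-, -, -, -, h6, h7⟩
        simp only at h6 h7
        omega
      · rintro u ρ h0 ⟨h1, h2, h3, h4, h5, h6⟩ h7 h8
        simp only at h5 h6
        exact ⟨h1, h2, h3, h4, by simp only; omega, by simp only; omega⟩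
      · intro u t
        unfold gm sgb wpt gp inn eps
        simp only [Bool.false_eq_true, if_false, if_true, Prod.mk.injEq]
        omega
    · obtain ⟨s, x, y⟩ := k0
      obtain ⟨h1, h2, h3, h4, -⟩ := hk0
      simp only at h2 h3 h4
      subst h2 h3 h4
      have wd := wid (D.h - 1) (D.h - 1) (by omega) (by omega) (by omega) (by omega)
      refine seg_runs (s := .C) (fun x => (x, D.h + 1 - sh p)) false (u0 := D.a (D.h - 1) + c)
        (u1 := D.b (D.h - 1) - c) ?_ ?_ ?_ (by omega) ?_ ?_ hb hf hfl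
      · rintro ⟨s, x, y⟩ ⟨h1, h2, h3, -⟩
        simp only at h2 h3
        subst h2 h3
        exact ⟨x, rfl⟩
      · refine (Ct_prog (D := D) (p := p) (by omega : 2 ≤ c)).congr fun u => ?_
        unfold Sg
        simp
      · rintro u ⟨-, -, -, -, h6, h7⟩
        simp only at h6 h7
        omega
      · rintro u ρ h0 ⟨h1, h2, h3, h4, h5, h6⟩ h7 h8
        simp only at h5 h6
        exact ⟨h1, h2, h3, h4, by simp only; omega, by simp only; omega⟩
      · intro u t
        unfold gm sgb wpt gp inn eps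
        simp only [Bool.false_eq_true, if_false, if_true, Prod.mk.injEq]
        omega
  set S : Finset (Fin 10 × ℤ × ℤ) := univ ×ˢ (G ×ˢ Icc (-c) c) with hS
  set I : Finset (ℤ × ℤ) := T.filter fun e => ∃ q ∈ S, lt (kt (isoPt D p q.1 q.2.1 q.2.2)) = e
    with hI
  have hcard : I.card ≤ 10 * G.card * (2 * c.toNat + 1) := by
    have h1 : I ⊆ S.image fun q => lt (kt (isoPt D p q.1 q.2.1 q.2.2)) := by
      intro e he
      obtain ⟨-, q, hq, rfl⟩ := mem_filter.1 he
      exact mem_image_of_mem _ hq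
    refine (card_le_card h1).trans (card_image_le.trans ?_)
    rw [hS, card_product, card_product, card_univ, Fintype.card_fin, Int.card_Icc, mul_assoc]
    refine Nat.mul_le_mul_left _ (Nat.mul_le_mul_left _ ?_)
    omega
  refine RunsK.of_walls (κ := Fin 8 × G)
    (A := fun q => T.filter fun e => ∃ k, Sg D p G c q.1 q.2 k ∧ lt (kt k) = e) (I := I)
    (filter_subset _ _) ?_ (fun q => one q.1 q.2 q.2.2) hL hJ ?_
  · intro e he
    obtain ⟨k, hk, rfl⟩ := hT e he
    rcases cover_XA (c := c) hG hk with ⟨i, g, hg, h⟩ | ⟨e', g, hg, i, h1, h2, h3⟩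
    · exact Or.inl ⟨(i, ⟨g, hg⟩), mem_filter.2 ⟨he, k, h, rfl⟩⟩
    · refine Or.inr (mem_filter.2 ⟨he, (e', g, i), ?_, ?_⟩)
      · exact mem_product.2 ⟨mem_univ _, mem_product.2 ⟨hg, mem_Icc.2 ⟨h1, h2⟩⟩⟩
      · simp only
        rw [← h3]
  · rw [Fintype.card_prod, Fintype.card_fin, Fintype.card_coe]
    omega

end Pool.Agent.H20.Sp
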