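import Mathlib
import Pool.Agent.H74.Win.RingY
import Pool.Agent.H46.Sp.Lev

set_option autoImplicit false
open Finset

/-!
# The ties of a natural window by segments

Levels `G` (`Lev D j G`). The ties of `XA` of the kinds `L`, `R` between two consecutive levels, and of the
kinds `F`, `C` on one ledge, at distance at least `c` from the ends, are a progression of difference `2`.
-/

namespace Pool.Agent.H20.Sp

open Pool.Agent.H75.Perc hiding ph
open Pool.Agent.H75.TwoArm Pool.Agent.Q1 Pool.Agent.H33.Q1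
open Pool.Agent.H75.Four Pool.Agent.H69.Q1
open Pool.Agent.H46.Sp (Win Out nxt nxt_le nxt_mem le_nxt not_lev)
open Pool.Agent.H46.Sp.Win
open Pool.Agent.H74.Win
open Pool.Agent.H42.Sp (Sd Ix kt rt kt_odd rt_even kt_Tg rt_Tg)

/-- progressions of difference two -/
def Prog (Q : ℤ → Prop) : Prop :=
  ∃ (z : ℤ) (n : ℕ), ∀ u, Q u ↔ ∃ t : ℤ, (0 ≤ t ∧ t < n) ∧ u = z + 2 * t

lemma prog_par {Q : ℤ → Prop} {P : Prop} {u0 u1 v r : ℤ}
    (h : ∀ u, Q u ↔ P ∧ u0 ≤ u ∧ u ≤ u1 ∧ (u + v) % 2 = r) : Prog Q := by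
  by_cases hP : P ∧ (r = 0 ∨ r = 1)
  · obtain ⟨hP, hr⟩ := hP
    refine ⟨if (u0 + v) % 2 = r then u0 else u0 + 1,
      ((u1 - (if (u0 + v) % 2 = r then u0 else u0 + 1)) / 2 + 1).toNat, fun u => ?_⟩
    rw [h u]
    constructor
    · rintro ⟨-, h1, h2, h3⟩
      refine ⟨(u - (if (u0 + v) % 2 = r then u0 else u0 + 1)) / 2, ?_, ?_⟩
      · split_ifs with h4 <;> omega
      · split_ifs with h4 <;> omega
    · rintro ⟨t, ⟨h1, h2⟩, h3⟩
      refine ⟨hP, ?_⟩
      split_ifs at h2 h3 with h4 <;> omega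
  · refine ⟨0, 0, fun u => ?_⟩
    rw [h u]
    constructor
    · rintro ⟨h1, -, -, h2⟩
      exact absurd ⟨h1, by omega⟩ hP
    · rintro ⟨t, h1, -⟩
      simp only [Nat.cast_zero] at h1
      omega

lemma decide_par {n : ℤ} {b : Bool} : (b = decide (n % 2 = 1)) ↔ n % 2 = if b = true then 1 else 0 := by
  cases b <;> simp

variable {D : Win} {p : Bool} {j : ℤ} {G : Finset ℤ} {x y g c : ℤ}

/-! ### The kind L -/

/-- a tie of the kind `L` -/
lemma L_x (h : CA D p (.L, (x, y))) : x = D.a (y + sh p) - 1 ∧ 1 ≤ y + sh p ∧ y + sh p < D.h := by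
  obtain ⟨h1, h2, -⟩ := h
  obtain ⟨a1, a2, a3, -, -⟩ := h1
  obtain ⟨b1, -, -, -, -⟩ := h2
  exact ⟨a3, by omega, a2⟩

/-- between two levels -/
lemma L_iff (hG : D.Lev j G) (hg : g ∈ G) (h1 : g + 3 ≤ y + sh p) (h2 : y + sh p + 3 ≤ nxt G g) :
    CA D p (.L, (x, y)) ↔ x = D.a g - 1 ∧ (x + y) % 2 = if D.cl g = true then 1 else 0 := by
  have h0 := hG.lo g hg
  have hh := hG.nxt_h (g := g) (by omega)
  have hs := sh_nonneg p
  have hs1 := sh_le p
  have e1 : ∀ z, g ≤ z → z < nxt G g → D.a z = D.a g := fun z a1 a2 => (hG.ab_eq hg a1 a2).1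
  have e2 : ∀ z, g ≤ z → z + 1 < nxt G g → D.m z = D.a g := fun z a1 a2 => hG.m_eq hg a1 a2
  have e3 : ∀ z, g ≤ z → z + 1 < nxt G g → D.cl z = D.cl g := fun z a1 a2 => hG.cl_eq hg a1 a2
  have f1 := e1 (y + sh p) (by omega) (by omega)
  have f2 := e1 (y + sh p + 1) (by omega) (by omega)
  have f3 := e1 (y + sh p - 1) (by omega) (by omega)
  have f4 := e1 (y + sh p - 1 - 1) (by omega) (by omega)
  have col : ∀ x' y', x' ≤ D.a g - 1 → y - 1 ≤ y' → y' ≤ y → natc D p x' y' = D.cl g := by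
    intro x' y' k1 k2 k3
    unfold natc
    rw [if_neg (by omega), if_neg (by omega), if_pos, e3 y' (by omega) (by omega)]
    rw [e2 y' (by omega) (by omega)]; omega
  have hL : LyL D p x y ↔ x = D.a g - 1 := by
    unfold LyL
    rw [f1, f2, f3]
    omega
  have hL' : LyL D p x (y - 1) ↔ x = D.a g - 1 := by
    unfold LyL
    rw [show y - 1 + sh p = y + sh p - 1 by ring, f3, f4, sub_add_cancel, f1]
    omega
  unfold CA
  simp only
  rw [hL, hL']
  constructor
  · rintro ⟨k1, -, k2, -⟩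
    refine ⟨k1, ?_⟩
    rw [col x y (by omega) (by omega) le_rfl, decide_par] at k2
    exact k2
  · rintro ⟨k1, k2⟩
    refine ⟨k1, k1, ?_⟩
    unfold Mono
    rw [col x y (by omega) (by omega) le_rfl, col (x - 1) y (by omega) (by omega) le_rfl,
      col x (y - 1) (by omega) le_rfl (by omega), col (x - 1) (y - 1) (by omega) le_rfl (by omega),
      decide_par]
    exact ⟨k2, k2, k2, k2⟩

/-- **the ties of the kind `L` between two levels** -/
theorem L_prog (hG : D.Lev j G) (hg : g ∈ G) (hc : 3 ≤ c) : Prog (fun y =>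
    CA D p (.L, (D.a g - 1, y)) ∧ g + c ≤ y + sh p ∧ y + sh p + c ≤ nxt G g) := by
  refine prog_par (P := True) (u0 := g + c - sh p) (u1 := nxt G g - c - sh p) (v := D.a g - 1)
    (r := if D.cl g = true then 1 else 0) fun u => ?_
  constructor
  · rintro ⟨h1, h2, h3⟩
    rw [L_iff hG hg (by omega) (by omega)] at h1
    refine ⟨trivial, by omega, by omega, ?_⟩
    rw [add_comm]; exact h1.2
  · rintro ⟨-, h1, h2, h3⟩
    refine ⟨?_, by omega, by omega⟩
    rw [L_iff hG hg (by omega) (by omega)]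
    exact ⟨rfl, by rw [add_comm]; exact h3⟩

/-! ### The kind R -/

/-- a tie of the kind `R` -/
lemma R_x (h : CA D p (.R, (x, y))) : x = D.b (y + sh p) + 1 ∧ 1 ≤ y + sh p ∧ y + sh p < D.h := by
  obtain ⟨h1, h2, -⟩ := h
  obtain ⟨a1, a2, a3, -, -⟩ := h1
  obtain ⟨b1, -, -, -, -⟩ := h2
  exact ⟨by omega, by omega, a2⟩

/-- between two levels -/
lemma R_iff (hG : D.Lev j G) (hg : g ∈ G) (h1 : g + 3 ≤ y + sh p) (h2 : y + sh p + 3 ≤ nxt G g) :
    CA D p (.R, (x, y)) ↔ x = D.b g + 1 ∧ (x + y) % 2 = if D.cr g = true then 1 else 0 := by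
  have h0 := hG.lo g hg
  have hh := hG.nxt_h (g := g) (by omega)
  have hs := sh_nonneg p
  have hs1 := sh_le p
  have e1 : ∀ z, g ≤ z → z < nxt G g → D.b z = D.b g := fun z a1 a2 => (hG.ab_eq hg a1 a2).2
  have e2 : ∀ z, g ≤ z → z + 1 < nxt G g → D.M z = D.b g := fun z a1 a2 => hG.M_eq hg a1 a2
  have e3 : ∀ z, g ≤ z → z + 1 < nxt G g → D.cr z = D.cr g := fun z a1 a2 => hG.cr_eq hg a1 a2
  have f1 := e1 (y + sh p) (by omega) (by omega)
  have f2 := e1 (y + sh p + 1) (by omega) (by omega)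
  have f3 := e1 (y + sh p - 1) (by omega) (by omega)
  have f4 := e1 (y + sh p - 1 - 1) (by omega) (by omega)
  have col : ∀ x' y', D.b g ≤ x' → y - 1 ≤ y' → y' ≤ y → natc D p x' y' = D.cr g := by
    intro x' y' k1 k2 k3
    have k4 := m_lt_M (D := D) (y := y') (by omega) (by omega)
    have k5 := e2 y' (by omega) (by omega)
    unfold natc
    rw [if_neg (by omega), if_neg (by omega), if_neg (by omega), if_pos (by omega),
      e3 y' (by omega) (by omega)]
  have hL : LyR D p (x - 1) y ↔ x = D.b g + 1 := by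
    unfold LyR
    rw [f1, f2, f3]
    omega
  have hL' : LyR D p (x - 1) (y - 1) ↔ x = D.b g + 1 := by
    unfold LyR
    rw [show y - 1 + sh p = y + sh p - 1 by ring, f3, f4, sub_add_cancel, f1]
    omega
  unfold CA
  simp only
  rw [hL, hL']
  constructor
  · rintro ⟨k1, -, k2, -⟩
    refine ⟨k1, ?_⟩
    rw [col x y (by omega) (by omega) le_rfl, decide_par] at k2
    exact k2
  · rintro ⟨k1, k2⟩
    refine ⟨k1, k1, ?_⟩
    unfold Mono
    rw [col x y (by omega) (by omega) le_rfl, col (x - 1) y (by omega) (by omega) le_rfl,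
      col x (y - 1) (by omega) le_rfl (by omega), col (x - 1) (y - 1) (by omega) le_rfl (by omega),
      decide_par]
    exact ⟨k2, k2, k2, k2⟩

/-- **the ties of the kind `R` between two levels** -/
theorem R_prog (hG : D.Lev j G) (hg : g ∈ G) (hc : 3 ≤ c) : Prog (fun y =>
    CA D p (.R, (D.b g + 1, y)) ∧ g + c ≤ y + sh p ∧ y + sh p + c ≤ nxt G g) := by
  refine prog_par (P := True) (u0 := g + c - sh p) (u1 := nxt G g - c - sh p) (v := D.b g + 1)
    (r := if D.cr g = true then 1 else 0) fun u => ?_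
  constructor
  · rintro ⟨h1, h2, h3⟩
    rw [R_iff hG hg (by omega) (by omega)] at h1
    refine ⟨trivial, by omega, by omega, ?_⟩
    rw [add_comm]; exact h1.2
  · rintro ⟨-, h1, h2, h3⟩
    refine ⟨?_, by omega, by omega⟩
    rw [R_iff hG hg (by omega) (by omega)]
    exact ⟨rfl, by rw [add_comm]; exact h3⟩


/-! ### The kind F -/

/-- a tie of the kind `F` lies on a level -/
lemma F_lev (hG : D.Lev j G) (h : CA D p (.F, (x, y))) : y + sh p + 1 ∈ G := by
  obtain ⟨⟨a1, a2, a3, a4, a5⟩, ⟨-, -, b3, b4, b5⟩, -⟩ := h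
  by_cases h0 : y + sh p = -1
  · rw [h0]; exact hG.zero
  by_contra hc
  have h1 := hG.ab (y + sh p + 1) (by omega) a2 hc
  rw [add_sub_cancel_right] at h1
  have := a5 (by omega)
  omega

/-- the ends of the ledges -/
lemma F_x (h : CA D p (.F, (x, y))) : -1 ≤ y + sh p ∧ y + sh p + 1 < D.h ∧
    D.a (y + sh p + 1) + 1 ≤ x ∧ x + 1 ≤ D.b (y + sh p + 1) ∧
    (0 ≤ y + sh p → x + 2 ≤ D.a (y + sh p) ∨ D.b (y + sh p) + 2 ≤ x) := by
  obtain ⟨⟨a1, a2, a3, a4, a5⟩, ⟨-, -, b3, b4, b5⟩, -⟩ := h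
  refine ⟨a1, a2, by omega, by omega, fun h0 => ?_⟩
  have c1 := a5 h0
  have c2 := b5 h0
  have := ab' (D := D) (y := y) (p := p) h0 (by omega)
  omega

/-- colour of the outer row below a left ledge -/
def fl (D : Win) (p : Bool) (c : ℤ → Bool) (g : ℤ) : Bool :=
  if p = true then (if g = 1 then D.cb else c (g - 3)) else c (g - 2)

lemma fl_true {c : ℤ → Bool} : fl D true c g = if g = 1 then D.cb else c (g - 3) := by
  unfold fl; simp

lemma fl_false {c : ℤ → Bool} : fl D false c g = c (g - 2) := by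
  unfold fl; simp

lemma Fl_iff (h0 : 0 < g) (h1 : g < D.h) (hx : D.a g + 1 ≤ x) (hx' : x + 2 ≤ D.a (g - 1)) :
    CA D p (.F, (x, g - 1 - sh p)) ↔ D.cl (g - 2) = fl D p D.cl g ∧
      (x + (g - 1 - sh p)) % 2 = if D.cl (g - 2) = true then 1 else 0 := by
  have hd := a_drop (D := D) (y := g - 1) (by omega) (by omega) (by rw [sub_add_cancel]; omega)
  rw [sub_add_cancel] at hd
  have hb := D.ov1 (g - 1) (by omega) (by omega)
  rw [sub_add_cancel] at hb
  have hb' := D.ab (g - 1) (by omega) (by omega)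
  have hQ := D.Q0
  have k1 : ∀ x', D.a g ≤ x' → x' + 1 ≤ D.a (g - 1) →
      natc D p x' (g - 1 - sh p) = D.cl (g - 2) := by
    intro x' g1 g2
    rcases sh_cases p with ⟨rfl, hs⟩ | ⟨rfl, hs⟩
    · rw [hs, sub_zero]
      unfold natc
      have e1 : D.m (g - 1) = D.a g := by rw [md_lo (by omega), sub_add_cancel]
      have e2 : D.b (g - 1) ≤ D.M (g - 1) := b_le_M (by omega)
      rw [if_neg (by omega), if_neg (by omega), if_neg (by omega), if_neg (by omega),
        if_neg (by simp), if_neg (by omega), if_pos (by omega)]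
      congr 1; ring
    · rw [hs]
      unfold natc
      have e1 : D.m (g - 1 - 1) = D.a (g - 1) := by rw [md_lo (by omega), sub_add_cancel]
      rw [if_neg (by omega), if_neg (by omega), if_pos (by omega)]
      congr 1; ring
  have k2 : ∀ x', D.a g ≤ x' → x' + 1 ≤ D.a (g - 1) →
      natc D p x' (g - 1 - sh p - 1) = fl D p D.cl g := by
    intro x' g1 g2
    rcases sh_cases p with ⟨rfl, hs⟩ | ⟨rfl, hs⟩
    · rw [hs, sub_zero, fl_false]
      unfold natc
      have e1 : D.m (g - 1 - 1) = D.a (g - 1) := by rw [md_lo (by omega), sub_add_cancel]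
      rw [if_neg (by omega), if_neg (by omega), if_pos (by omega)]
      congr 1; ring
    · rw [hs, fl_true]
      unfold natc
      by_cases hg1 : g = 1
      · rw [if_pos (by omega), if_pos hg1]
      · have e1 : D.m (g - 1 - 1 - 1) = D.a (g - 2) := by rw [md_lo (by omega)]; congr 1; ring
        have e2 := D.aL (g - 2) (by omega) (by omega)
        rw [show g - 2 + 1 = g - 1 by ring] at e2
        rw [if_neg (by omega), if_neg (by omega), if_pos (by omega), if_neg hg1]
        congr 1; ring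
  have l1 : LyF D p x (g - 1 - sh p) := by
    unfold LyF
    rw [show g - 1 - sh p + sh p = g - 1 by ring, sub_add_cancel]
    omega
  have l2 : LyF D p (x - 1) (g - 1 - sh p) := by
    unfold LyF
    rw [show g - 1 - sh p + sh p = g - 1 by ring, sub_add_cancel]
    omega
  unfold CA Mono
  simp only
  rw [k1 x (by omega) (by omega), k1 (x - 1) (by omega) (by omega), k2 x (by omega) (by omega),
    k2 (x - 1) (by omega) (by omega), ← decide_par]
  constructor
  · rintro ⟨-, -, g1, -, g2, -⟩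
    exact ⟨g1.trans g2.symm, g1⟩
  · rintro ⟨g1, g2⟩
    exact ⟨l1, l2, g2, g2, g1 ▸ g2, g1 ▸ g2⟩

lemma Fr_iff (h0 : 0 < g) (h1 : g < D.h) (hx : D.b (g - 1) + 2 ≤ x) (hx' : x + 1 ≤ D.b g) :
    CA D p (.F, (x, g - 1 - sh p)) ↔ D.cr (g - 2) = fl D p D.cr g ∧
      (x + (g - 1 - sh p)) % 2 = if D.cr (g - 2) = true then 1 else 0 := by
  have hd := b_rise (D := D) (y := g - 1) (by omega) (by rw [sub_add_cancel]; omega)
  rw [sub_add_cancel] at hd
  have hb := D.ov2 (g - 1) (by omega) (by omega)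
  rw [sub_add_cancel] at hb
  have hb' := D.ab (g - 1) (by omega) (by omega)
  have hQ := D.Q0
  have k1 : ∀ x', D.b (g - 1) ≤ x' → x' + 1 ≤ D.b g →
      natc D p x' (g - 1 - sh p) = D.cr (g - 2) := by
    intro x' g1 g2
    rcases sh_cases p with ⟨rfl, hs⟩ | ⟨rfl, hs⟩
    · rw [hs, sub_zero]
      unfold natc
      have e1 : D.M (g - 1) = D.b g := by rw [Md_lo (by omega), sub_add_cancel]
      have e2 : D.m (g - 1) ≤ D.a (g - 1) := m_le_a (by omega)
      rw [if_neg (by omega), if_neg (by omega), if_neg (by omega), if_neg (by omega),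
        if_neg (by simp), if_neg (by omega), if_neg (by omega)]
      congr 1; ring
    · rw [hs]
      unfold natc
      have e1 : D.M (g - 1 - 1) = D.b (g - 1) := by rw [Md_lo (by omega), sub_add_cancel]
      have e2 := m_lt_M (D := D) (y := g - 1 - 1) (by omega) (by omega)
      rw [if_neg (by omega), if_neg (by omega), if_neg (by omega), if_pos (by omega)]
      congr 1; ring
  have k2 : ∀ x', D.b (g - 1) ≤ x' → x' + 1 ≤ D.b g →
      natc D p x' (g - 1 - sh p - 1) = fl D p D.cr g := by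
    intro x' g1 g2
    rcases sh_cases p with ⟨rfl, hs⟩ | ⟨rfl, hs⟩
    · rw [hs, sub_zero, fl_false]
      unfold natc
      have e1 : D.M (g - 1 - 1) = D.b (g - 1) := by rw [Md_lo (by omega), sub_add_cancel]
      have e2 := m_lt_M (D := D) (y := g - 1 - 1) (by omega) (by omega)
      rw [if_neg (by omega), if_neg (by omega), if_neg (by omega), if_pos (by omega)]
      congr 1; ring
    · rw [hs, fl_true]
      unfold natc
      by_cases hg1 : g = 1
      · rw [if_pos (by omega), if_pos hg1]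
      · have e1 : D.M (g - 1 - 1 - 1) = D.b (g - 2) := by rw [Md_lo (by omega)]; congr 1; ring
        have e2 := D.bL (g - 2) (by omega) (by omega)
        rw [show g - 2 + 1 = g - 1 by ring] at e2
        have e3 := m_lt_M (D := D) (y := g - 1 - 1 - 1) (by omega) (by omega)
        rw [if_neg (by omega), if_neg (by omega), if_neg (by omega), if_pos (by omega),
          if_neg hg1]
        congr 1; ring
  have l1 : LyF D p x (g - 1 - sh p) := by
    unfold LyF
    rw [show g - 1 - sh p + sh p = g - 1 by ring, sub_add_cancel]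
    omega
  have l2 : LyF D p (x - 1) (g - 1 - sh p) := by
    unfold LyF
    rw [show g - 1 - sh p + sh p = g - 1 by ring, sub_add_cancel]
    omega
  unfold CA Mono
  simp only
  rw [k1 x (by omega) (by omega), k1 (x - 1) (by omega) (by omega), k2 x (by omega) (by omega),
    k2 (x - 1) (by omega) (by omega), ← decide_par]
  constructor
  · rintro ⟨-, -, g1, -, g2, -⟩
    exact ⟨g1.trans g2.symm, g1⟩
  · rintro ⟨g1, g2⟩
    exact ⟨l1, l2, g2, g2, g1 ▸ g2, g1 ▸ g2⟩

lemma Fb_iff (hx : D.a 0 + 1 ≤ x) (hx' : x + 1 ≤ D.b 0) :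
    CA D p (.F, (x, -1 - sh p)) ↔ (x + (-1 - sh p)) % 2 = if D.cb = true then 1 else 0 := by
  have hh := D.hh
  have hP := D.P0
  have hQ := D.Q0
  have k1 : ∀ x' y', D.a 0 ≤ x' → x' + 1 ≤ D.b 0 → y' + sh p ≤ -1 → y' ≤ -1 →
      natc D p x' y' = D.cb := by
    intro x' y' g1 g2 g3 g4
    unfold natc
    by_cases h1 : y' < -1
    · rw [if_pos h1]
    · have h2 : y' = -1 := by omega
      subst h2
      have e1 : D.m (-1) = D.a 0 := by rw [md_lo (by omega)]; congr 1
      have e2 : D.M (-1) = D.b 0 := by rw [Md_lo (by omega)]; congr 1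
      have e3 : p = false := by
        rcases sh_cases p with ⟨h, -⟩ | ⟨h, hs⟩
        · exact h
        · omega
      subst e3
      rw [if_neg (by omega), if_neg (by omega), if_neg (by omega), if_neg (by omega),
        if_neg (by simp), if_pos rfl]
  have hs := sh_nonneg p
  have l1 : LyF D p x (-1 - sh p) := by
    unfold LyF
    rw [show -1 - sh p + sh p = -1 by ring, show (-1 : ℤ) + 1 = 0 by ring]
    omega
  have l2 : LyF D p (x - 1) (-1 - sh p) := by
    unfold LyF
    rw [show -1 - sh p + sh p = -1 by ring, show (-1 : ℤ) + 1 = 0 by ring]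
    omega
  unfold CA Mono
  simp only
  rw [k1 x _ (by omega) (by omega) (by omega) (by omega),
    k1 (x - 1) _ (by omega) (by omega) (by omega) (by omega),
    k1 x _ (by omega) (by omega) (by omega) (by omega),
    k1 (x - 1) _ (by omega) (by omega) (by omega) (by omega), ← decide_par]
  constructor
  · rintro ⟨-, -, g1, -⟩
    exact g1
  · intro g1
    exact ⟨l1, l2, g1, g1, g1, g1⟩

/-- **the ties of the kind `F` on the left ledge** -/
theorem Fl_prog (h0 : 0 < g) (h1 : g < D.h) (hc : 2 ≤ c) : Prog (fun x =>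
    CA D p (.F, (x, g - 1 - sh p)) ∧ D.a g + c ≤ x ∧ x + c ≤ D.a (g - 1)) := by
  refine prog_par (P := D.cl (g - 2) = fl D p D.cl g) (u0 := D.a g + c) (u1 := D.a (g - 1) - c)
    (v := g - 1 - sh p) (r := if D.cl (g - 2) = true then 1 else 0) fun u => ?_
  constructor
  · rintro ⟨k1, k2, k3⟩
    rw [Fl_iff h0 h1 (by omega) (by omega)] at k1
    exact ⟨k1.1, by omega, by omega, k1.2⟩
  · rintro ⟨k1, k2, k3, k4⟩
    exact ⟨(Fl_iff h0 h1 (by omega) (by omega)).2 ⟨k1, k4⟩, by omega, by omega⟩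

/-- **the ties of the kind `F` on the right ledge** -/
theorem Fr_prog (h0 : 0 < g) (h1 : g < D.h) (hc : 2 ≤ c) : Prog (fun x =>
    CA D p (.F, (x, g - 1 - sh p)) ∧ D.b (g - 1) + c ≤ x ∧ x + c ≤ D.b g) := by
  refine prog_par (P := D.cr (g - 2) = fl D p D.cr g) (u0 := D.b (g - 1) + c) (u1 := D.b g - c)
    (v := g - 1 - sh p) (r := if D.cr (g - 2) = true then 1 else 0) fun u => ?_
  constructor
  · rintro ⟨k1, k2, k3⟩
    rw [Fr_iff h0 h1 (by omega) (by omega)] at k1
    exact ⟨k1.1, by omega, by omega, k1.2⟩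
  · rintro ⟨k1, k2, k3, k4⟩
    exact ⟨(Fr_iff h0 h1 (by omega) (by omega)).2 ⟨k1, k4⟩, by omega, by omega⟩

/-- **the ties of the kind `F` at the bottom** -/
theorem Fb_prog (hc : 2 ≤ c) : Prog (fun x =>
    CA D p (.F, (x, -1 - sh p)) ∧ D.a 0 + c ≤ x ∧ x + c ≤ D.b 0) := by
  refine prog_par (P := True) (u0 := D.a 0 + c) (u1 := D.b 0 - c)
    (v := -1 - sh p) (r := if D.cb = true then 1 else 0) fun u => ?_
  constructor
  · rintro ⟨k1, k2, k3⟩
    rw [Fb_iff (by omega) (by omega)] at k1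
    exact ⟨trivial, by omega, by omega, k1⟩
  · rintro ⟨-, k2, k3, k4⟩
    exact ⟨(Fb_iff (by omega) (by omega)).2 k4, by omega, by omega⟩

/-! ### The kind C -/

/-- a tie of the kind `C` lies on a level -/
lemma C_lev (hG : D.Lev j G) (h : CA D p (.C, (x, y))) : y - 1 + sh p ∈ G := by
  obtain ⟨⟨a1, a2, a3, a4, a5⟩, ⟨-, -, b3, b4, b5⟩, -⟩ := h
  by_cases h0 : y - 1 + sh p = D.h
  · rw [h0]; exact hG.h
  by_contra hc
  have h1 := hG.ab (y - 1 + sh p) (by omega) (by omega) hc
  have := a5 (by omega)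
  omega

/-- the ends of the ledges -/
lemma C_x (h : CA D p (.C, (x, y))) : 1 ≤ y - 1 + sh p ∧ y - 1 + sh p ≤ D.h ∧
    D.a (y - 1 + sh p - 1) + 1 ≤ x ∧ x + 1 ≤ D.b (y - 1 + sh p - 1) ∧
    (y - 1 + sh p < D.h → x + 2 ≤ D.a (y - 1 + sh p) ∨ D.b (y - 1 + sh p) + 2 ≤ x) := by
  obtain ⟨⟨a1, a2, a3, a4, a5⟩, ⟨-, -, b3, b4, b5⟩, -⟩ := h
  refine ⟨a1, a2, by omega, by omega, fun h0 => ?_⟩
  have c1 := a5 h0
  have c2 := b5 h0
  have := ab' (D := D) (y := y - 1) (p := p) (by omega) h0
  omega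

/-- colour of the outer row above a ledge -/
def cu (D : Win) (p : Bool) (c : ℤ → Bool) (g : ℤ) : Bool :=
  if p = true then c g else (if g + 1 = D.h then D.ct else c (g + 1))

lemma cu_true {c : ℤ → Bool} : cu D true c g = c g := by
  unfold cu; simp

lemma cu_false {c : ℤ → Bool} : cu D false c g = if g + 1 = D.h then D.ct else c (g + 1) := by
  unfold cu; simp

lemma Cl_iff (h0 : 0 < g) (h1 : g < D.h) (hx : D.a (g - 1) + 1 ≤ x) (hx' : x + 2 ≤ D.a g) :
    CA D p (.C, (x, g + 1 - sh p)) ↔ D.cl g = cu D p D.cl g ∧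
      (x + (g + 1 - sh p)) % 2 = if D.cl g = true then 1 else 0 := by
  have hd := a_rise (D := D) (y := g - 1) (by omega) (by rw [sub_add_cancel]; omega)
  rw [sub_add_cancel] at hd
  have hb := D.ov2 (g - 1) (by omega) (by omega)
  rw [sub_add_cancel] at hb
  have hb' := D.ab g (by omega) (by omega)
  have k1 : ∀ x', D.a (g - 1) ≤ x' → x' + 1 ≤ D.a g →
      natc D p x' (g + 1 - sh p - 1) = D.cl g := by
    intro x' g1 g2
    rcases sh_cases p with ⟨rfl, hs⟩ | ⟨rfl, hs⟩
    · rw [hs, sub_zero, add_sub_cancel_right]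
      unfold natc
      have e1 : D.m g = D.a g := md_hi (by omega)
      rw [if_neg (by omega), if_neg (by omega), if_pos (by omega)]
    · rw [hs, add_sub_cancel_right]
      unfold natc
      have e1 : D.m (g - 1) = D.a (g - 1) := md_hi (by omega)
      have e2 : D.b g ≤ D.M (g - 1) := by
        have := b_le_M' (D := D) (y := g - 1) (by omega)
        rwa [sub_add_cancel] at this
      rw [if_neg (by omega), if_neg (by omega), if_neg (by omega), if_neg (by omega),
        if_pos rfl, if_neg (by omega), if_pos (by rw [sub_add_cancel]; omega), sub_add_cancel]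
  have k2 : ∀ x', D.a (g - 1) ≤ x' → x' + 1 ≤ D.a g →
      natc D p x' (g + 1 - sh p) = cu D p D.cl g := by
    intro x' g1 g2
    rcases sh_cases p with ⟨rfl, hs⟩ | ⟨rfl, hs⟩
    · rw [hs, sub_zero, cu_false]
      unfold natc
      by_cases hg1 : g + 1 = D.h
      · rw [if_neg (by omega), if_pos (by omega), if_pos hg1]
      · have e1 : D.m (g + 1) = D.a (g + 1) := md_hi (by omega)
        have e2 := D.aU g (by omega) (by omega)
        rw [if_neg (by omega), if_neg (by omega), if_pos (by omega), if_neg hg1]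
    · rw [hs, add_sub_cancel_right, cu_true]
      unfold natc
      have e1 : D.m g = D.a g := md_hi (by omega)
      rw [if_neg (by omega), if_neg (by omega), if_pos (by omega)]
  have l1 : LyC D p x (g + 1 - sh p - 1) := by
    unfold LyC
    rw [show g + 1 - sh p - 1 + sh p = g by ring]
    omega
  have l2 : LyC D p (x - 1) (g + 1 - sh p - 1) := by
    unfold LyC
    rw [show g + 1 - sh p - 1 + sh p = g by ring]
    omega
  unfold CA Mono
  simp only
  rw [k1 x (by omega) (by omega), k1 (x - 1) (by omega) (by omega), k2 x (by omega) (by omega),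
    k2 (x - 1) (by omega) (by omega), ← decide_par]
  constructor
  · rintro ⟨-, -, g1, -, g2, -⟩
    exact ⟨g2.trans g1.symm, g2⟩
  · rintro ⟨g1, g2⟩
    exact ⟨l1, l2, g1 ▸ g2, g1 ▸ g2, g2, g2⟩

lemma Cr_iff (h0 : 0 < g) (h1 : g < D.h) (hx : D.b g + 2 ≤ x) (hx' : x + 1 ≤ D.b (g - 1)) :
    CA D p (.C, (x, g + 1 - sh p)) ↔ D.cr g = cu D p D.cr g ∧
      (x + (g + 1 - sh p)) % 2 = if D.cr g = true then 1 else 0 := by
  have hd := b_drop (D := D) (y := g - 1) (by omega) (by rw [sub_add_cancel]; omega)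
  have hb := D.ov1 (g - 1) (by omega) (by omega)
  rw [sub_add_cancel] at hb
  have hb' := D.ab g (by omega) (by omega)
  have k1 : ∀ x', D.b g ≤ x' → x' + 1 ≤ D.b (g - 1) →
      natc D p x' (g + 1 - sh p - 1) = D.cr g := by
    intro x' g1 g2
    rcases sh_cases p with ⟨rfl, hs⟩ | ⟨rfl, hs⟩
    · rw [hs, sub_zero, add_sub_cancel_right]
      unfold natc
      have e1 : D.M g = D.b g := Md_hi (by omega)
      have e2 : D.m g ≤ D.a g := m_le_a (by omega)
      rw [if_neg (by omega), if_neg (by omega), if_neg (by omega), if_pos (by omega)]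
    · rw [hs, add_sub_cancel_right]
      unfold natc
      have e1 : D.M (g - 1) = D.b (g - 1) := Md_hi (by omega)
      have e2 : D.m (g - 1) ≤ D.a g := by
        have := m_le_a' (D := D) (y := g - 1) (by omega)
        rwa [sub_add_cancel] at this
      rw [if_neg (by omega), if_neg (by omega), if_neg (by omega), if_neg (by omega),
        if_pos rfl, if_neg (by omega), if_neg (by rw [sub_add_cancel]; omega), sub_add_cancel]
  have k2 : ∀ x', D.b g ≤ x' → x' + 1 ≤ D.b (g - 1) →
      natc D p x' (g + 1 - sh p) = cu D p D.cr g := by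
    intro x' g1 g2
    rcases sh_cases p with ⟨rfl, hs⟩ | ⟨rfl, hs⟩
    · rw [hs, sub_zero, cu_false]
      unfold natc
      by_cases hg1 : g + 1 = D.h
      · rw [if_neg (by omega), if_pos (by omega), if_pos hg1]
      · have e1 : D.M (g + 1) = D.b (g + 1) := Md_hi (by omega)
        have e2 := D.bU g (by omega) (by omega)
        have e3 := m_lt_M (D := D) (y := g + 1) (by omega) (by omega)
        rw [if_neg (by omega), if_neg (by omega), if_neg (by omega), if_pos (by omega),
          if_neg hg1]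
    · rw [hs, add_sub_cancel_right, cu_true]
      unfold natc
      have e1 : D.M g = D.b g := Md_hi (by omega)
      have e2 : D.m g ≤ D.a g := m_le_a (by omega)
      rw [if_neg (by omega), if_neg (by omega), if_neg (by omega), if_pos (by omega)]
  have l1 : LyC D p x (g + 1 - sh p - 1) := by
    unfold LyC
    rw [show g + 1 - sh p - 1 + sh p = g by ring]
    omega
  have l2 : LyC D p (x - 1) (g + 1 - sh p - 1) := by
    unfold LyC
    rw [show g + 1 - sh p - 1 + sh p = g by ring]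
    omega
  unfold CA Mono
  simp only
  rw [k1 x (by omega) (by omega), k1 (x - 1) (by omega) (by omega), k2 x (by omega) (by omega),
    k2 (x - 1) (by omega) (by omega), ← decide_par]
  constructor
  · rintro ⟨-, -, g1, -, g2, -⟩
    exact ⟨g2.trans g1.symm, g2⟩
  · rintro ⟨g1, g2⟩
    exact ⟨l1, l2, g1 ▸ g2, g1 ▸ g2, g2, g2⟩

lemma Ct_iff (hx : D.a (D.h - 1) + 1 ≤ x) (hx' : x + 1 ≤ D.b (D.h - 1)) :
    CA D p (.C, (x, D.h + 1 - sh p)) ↔
      (x + (D.h + 1 - sh p)) % 2 = if D.ct = true then 1 else 0 := by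
  have hh := D.hh
  have hP := D.P1
  have hQ := D.Q1
  have hs := sh_nonneg p
  have hs1 := sh_le p
  have k1 : ∀ x' y', D.a (D.h - 1) ≤ x' → x' + 1 ≤ D.b (D.h - 1) → D.h ≤ y' + sh p →
      D.h - 1 ≤ y' → natc D p x' y' = D.ct := by
    intro x' y' g1 g2 g3 g4
    unfold natc
    by_cases h1 : D.h ≤ y'
    · rw [if_neg (by omega), if_pos h1]
    · have h2 : y' = D.h - 1 := by omega
      subst h2
      have e1 : D.m (D.h - 1) = D.a (D.h - 1) := md_hi (by omega)
      have e2 : D.M (D.h - 1) = D.b (D.h - 1) := Md_hi (by omega)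
      have e3 : p = true := by
        rcases sh_cases p with ⟨h, hs⟩ | ⟨h, -⟩
        · omega
        · exact h
      subst e3
      rw [if_neg (by omega), if_neg (by omega), if_neg (by omega), if_neg (by omega),
        if_pos rfl, if_pos rfl]
  have l1 : LyC D p x (D.h + 1 - sh p - 1) := by
    unfold LyC
    rw [show D.h + 1 - sh p - 1 + sh p = D.h by ring]
    omega
  have l2 : LyC D p (x - 1) (D.h + 1 - sh p - 1) := by
    unfold LyC
    rw [show D.h + 1 - sh p - 1 + sh p = D.h by ring]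
    omega
  unfold CA Mono
  simp only
  rw [k1 x _ (by omega) (by omega) (by omega) (by omega),
    k1 (x - 1) _ (by omega) (by omega) (by omega) (by omega),
    k1 x _ (by omega) (by omega) (by omega) (by omega),
    k1 (x - 1) _ (by omega) (by omega) (by omega) (by omega), ← decide_par]
  constructor
  · rintro ⟨-, -, g1, -⟩
    exact g1
  · intro g1
    exact ⟨l1, l2, g1, g1, g1, g1⟩

/-- **the ties of the kind `C` on the left ledge** -/
theorem Cl_prog (h0 : 0 < g) (h1 : g < D.h) (hc : 2 ≤ c) : Prog (fun x =>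
    CA D p (.C, (x, g + 1 - sh p)) ∧ D.a (g - 1) + c ≤ x ∧ x + c ≤ D.a g) := by
  refine prog_par (P := D.cl g = cu D p D.cl g) (u0 := D.a (g - 1) + c) (u1 := D.a g - c)
    (v := g + 1 - sh p) (r := if D.cl g = true then 1 else 0) fun u => ?_
  constructor
  · rintro ⟨k1, k2, k3⟩
    rw [Cl_iff h0 h1 (by omega) (by omega)] at k1
    exact ⟨k1.1, by omega, by omega, k1.2⟩
  · rintro ⟨k1, k2, k3, k4⟩
    exact ⟨(Cl_iff h0 h1 (by omega) (by omega)).2 ⟨k1, k4⟩, by omega, by omega⟩

/-- **the ties of the kind `C` on the right ledge** -/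
theorem Cr_prog (h0 : 0 < g) (h1 : g < D.h) (hc : 2 ≤ c) : Prog (fun x =>
    CA D p (.C, (x, g + 1 - sh p)) ∧ D.b g + c ≤ x ∧ x + c ≤ D.b (g - 1)) := by
  refine prog_par (P := D.cr g = cu D p D.cr g) (u0 := D.b g + c) (u1 := D.b (g - 1) - c)
    (v := g + 1 - sh p) (r := if D.cr g = true then 1 else 0) fun u => ?_
  constructor
  · rintro ⟨k1, k2, k3⟩
    rw [Cr_iff h0 h1 (by omega) (by omega)] at k1
    exact ⟨k1.1, by omega, by omega, k1.2⟩
  · rintro ⟨k1, k2, k3, k4⟩
    exact ⟨(Cr_iff h0 h1 (by omega) (by omega)).2 ⟨k1, k4⟩, by omega, by omega⟩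

/-- **the ties of the kind `C` at the top** -/
theorem Ct_prog (hc : 2 ≤ c) : Prog (fun x =>
    CA D p (.C, (x, D.h + 1 - sh p)) ∧ D.a (D.h - 1) + c ≤ x ∧ x + c ≤ D.b (D.h - 1)) := by
  refine prog_par (P := True) (u0 := D.a (D.h - 1) + c) (u1 := D.b (D.h - 1) - c)
    (v := D.h + 1 - sh p) (r := if D.ct = true then 1 else 0) fun u => ?_
  constructor
  · rintro ⟨k1, k2, k3⟩
    rw [Ct_iff (by omega) (by omega)] at k1
    exact ⟨trivial, by omega, by omega, k1⟩
  · rintro ⟨-, k2, k3, k4⟩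
    exact ⟨(Ct_iff (by omega) (by omega)).2 k4, by omega, by omega⟩

end Pool.Agent.H20.Sp
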